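import Pool.Agent.Helper58.IC.LinP

/-!
# Periods of a map of a residue ball

PROOF of P3. `𝔪` = maximal ideal; `⨅ j, 𝔪 ^ j = ⊥` (Krull, `Ideal.iInf_pow_eq_bot_of_isLocalRing`).
All iterates `G^[s]` map the ball of `q` to itself and satisfy `Lin` with matrix `A ^ s` (modulo
errors in `𝔪`, which do not matter as `u ∈ 𝔪 ^ j`; precisely: `G^[s+1] (x+u) = G (G^[s] x + u')` with
`u' = G^[s] (x+u) - G^[s] x ∈ 𝔪 ^ j`, `u' = A ^ s u` modulo `𝔪 ^ (j+1)`).
Write `m = p ^ e * w` with `p ∤ w`, let `H = G^[E p ^ e]` and `P = A ^ (E p ^ e)`; `P ^ 2 = P` modulo `𝔪`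
(a power of an idempotent). `H^[w] q = (G^[m])^[E] q = q`. Claim `H q = q`. Put `x_i = H^[i] q - q`
(vectors in `𝔪`), `v = x_1`. If `v ≠ 0` let `j ≥ 1` be the largest `j` with all `x_i ∈ 𝔪 ^ j`,
`i ≤ w` (exists since `v ≠ 0`). Modulo `𝔪 ^ (j+1)`: `x_(i+1) = H (q + x_i) - q = v + P x_i`, so
`x_i = v + (i - 1) P v` for `i ≥ 1` (use `P P v = P v`, `v ∈ 𝔪 ^ j`). From `x_w = 0` (`w ≥ 1`) we get
`v + (w - 1) P v = 0`, multiply by `P`: `w P v = 0`, `w` is a unit in `O` (`p ∤ w` and `p ∈ 𝔪`: Bezout),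
so `P v = 0` and `v = 0` modulo `𝔪 ^ (j+1)`; then all `x_i ∈ 𝔪 ^ (j+1)`, a contradiction.
-/

set_option autoImplicit false

namespace Pool.Agent.Helper58.IC

open MvPolynomial Filter
open Pool.Agent.Helper65.RP (MultLT orb iter van)

section ball_
variable {O : Type} [CommRing O] [IsLocalRing O] {N : ℕ}

/-- `F` maps the ball of `q` to itself and has the constant derivative `A` modulo `𝔪`. -/
private structure LV (q : Fin N → O) (A : Matrix (Fin N) (Fin N) O)
    (F : (Fin N → O) → Fin N → O) : Prop where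
  maps : ∀ x : Fin N → O, (∀ i, x i - q i ∈ IsLocalRing.maximalIdeal O) →
    ∀ i, F x i - q i ∈ IsLocalRing.maximalIdeal O
  lin : ∀ x : Fin N → O, (∀ i, x i - q i ∈ IsLocalRing.maximalIdeal O) → ∀ j : ℕ, 1 ≤ j →
    ∀ u : Fin N → O, (∀ i, u i ∈ IsLocalRing.maximalIdeal O ^ j) →
      ∀ i, F (x + u) i - F x i - (A.mulVec u) i ∈ IsLocalRing.maximalIdeal O ^ (j + 1)

omit [IsLocalRing O] in
private theorem mulVec_mem (A : Matrix (Fin N) (Fin N) O) {I : Ideal O} {v : Fin N → O}
    (h : ∀ i, v i ∈ I) (i : Fin N) : A.mulVec v i ∈ I := by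
  rw [Matrix.mulVec, dotProduct]
  exact I.sum_mem fun j _ => I.mul_mem_left _ (h j)

private theorem mulVec_mem_succ {A : Matrix (Fin N) (Fin N) O}
    (hA : ∀ i j, A i j ∈ IsLocalRing.maximalIdeal O) {j : ℕ} {v : Fin N → O}
    (h : ∀ i, v i ∈ IsLocalRing.maximalIdeal O ^ j) (i : Fin N) :
    A.mulVec v i ∈ IsLocalRing.maximalIdeal O ^ (j + 1) := by
  rw [Matrix.mulVec, dotProduct, pow_succ']
  exact Ideal.sum_mem _ fun k _ => Ideal.mul_mem_mul (hA i k) (h k)

private theorem LV.diff {q : Fin N → O} {A : Matrix (Fin N) (Fin N) O}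
    {F : (Fin N → O) → Fin N → O} (h : LV q A F) {x : Fin N → O}
    (hx : ∀ i, x i - q i ∈ IsLocalRing.maximalIdeal O) {j : ℕ} (hj : 1 ≤ j) {u : Fin N → O}
    (hu : ∀ i, u i ∈ IsLocalRing.maximalIdeal O ^ j) (i : Fin N) :
    F (x + u) i - F x i ∈ IsLocalRing.maximalIdeal O ^ j := by
  have h1 := Ideal.pow_le_pow_right (Nat.le_succ j) (h.lin x hx j hj u hu i)
  have h2 := Ideal.add_mem _ h1 (mulVec_mem A hu i)
  rwa [sub_add_cancel] at h2

private theorem LV.one (q : Fin N → O) : LV q 1 (fun x => x) where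
  maps := fun _ hx => hx
  lin := fun x _ j _ u _ i => by
    rw [Matrix.one_mulVec, Pi.add_apply, add_sub_cancel_left, sub_self]
    exact Ideal.zero_mem _

private theorem LV.comp {q : Fin N → O} {A B : Matrix (Fin N) (Fin N) O}
    {F F' : (Fin N → O) → Fin N → O} (h' : LV q B F') (h : LV q A F) :
    LV q (B * A) (fun x => F' (F x)) where
  maps := fun x hx => h'.maps _ (h.maps x hx)
  lin := fun x hx j hj u hu i => by
    have h0 : ∀ i, (F (x + u) - F x) i ∈ IsLocalRing.maximalIdeal O ^ j := fun i =>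
      h.diff hx hj hu i
    have h1 := h'.lin (F x) (h.maps x hx) j hj (F (x + u) - F x) h0 i
    rw [add_sub_cancel] at h1
    have h2 : B.mulVec (F (x + u) - F x - A.mulVec u) i ∈
        IsLocalRing.maximalIdeal O ^ (j + 1) :=
      mulVec_mem B (fun k => h.lin x hx j hj u hu k) i
    rw [Matrix.mulVec_sub B (F (x + u) - F x), Pi.sub_apply, Matrix.mulVec_mulVec] at h2
    have h3 := Ideal.add_mem _ h1 h2
    rwa [sub_add_sub_cancel] at h3

private theorem LV.iterate {q : Fin N → O} {A : Matrix (Fin N) (Fin N) O}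
    {F : (Fin N → O) → Fin N → O} (h : LV q A F) (n : ℕ) : LV q (A ^ n) (F^[n]) := by
  induction n with
  | zero =>
    rw [pow_zero]
    exact LV.one q
  | succ n ih =>
    rw [pow_succ]
    exact ih.comp h

/-- A natural number prime to the residue characteristic is a unit. -/
private theorem unit_of_not_dvd {p w : ℕ} (hp : p.Prime)
    (hpm : (p : O) ∈ IsLocalRing.maximalIdeal O) (hw : ¬ p ∣ w) : IsUnit (w : O) := by
  by_contra hu
  have h1 : (w : O) ∈ IsLocalRing.maximalIdeal O := (IsLocalRing.mem_maximalIdeal _).2 hu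
  have hco : Nat.Coprime p w := (Nat.Prime.coprime_iff_not_dvd hp).2 hw
  have h2 : ((p : O) * ((Nat.gcdA p w : ℤ) : O) + (w : O) * ((Nat.gcdB p w : ℤ) : O)) = 1 := by
    have h3 := Nat.gcd_eq_gcd_ab p w
    rw [hco.gcd_eq_one] at h3
    have h4 := congrArg (Int.cast : ℤ → O) h3
    push_cast at h4
    rw [← h4]
  have h3 : (1 : O) ∈ IsLocalRing.maximalIdeal O := by
    rw [← h2]
    exact Ideal.add_mem _ (Ideal.mul_mem_right _ _ hpm) (Ideal.mul_mem_right _ _ h1)
  exact (IsLocalRing.mem_maximalIdeal _).1 h3 isUnit_one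

/-- The induction step: all differences lie in the next power of the maximal ideal. -/
private theorem step {p w : ℕ} (hp : p.Prime) (hpm : (p : O) ∈ IsLocalRing.maximalIdeal O)
    (hw : ¬ p ∣ w) {q : Fin N → O} {P : Matrix (Fin N) (Fin N) O}
    {H : (Fin N → O) → Fin N → O} (hH : LV q P H)
    (hP : ∀ i j, (P * P - P) i j ∈ IsLocalRing.maximalIdeal O) (hper : H^[w] q = q) {j : ℕ}
    (hj : 1 ≤ j) (hall : ∀ n i, (H^[n] q) i - q i ∈ IsLocalRing.maximalIdeal O ^ j) :
    ∀ n i, (H^[n] q) i - q i ∈ IsLocalRing.maximalIdeal O ^ (j + 1) := by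
  have hq : ∀ i, q i - q i ∈ IsLocalRing.maximalIdeal O := fun i => by
    rw [sub_self]
    exact Ideal.zero_mem _
  set v : Fin N → O := H q - q with hv
  have hvj : ∀ i, v i ∈ IsLocalRing.maximalIdeal O ^ j := fun i => hall 1 i
  have hPPv : ∀ i, P.mulVec (P.mulVec v) i - P.mulVec v i ∈
      IsLocalRing.maximalIdeal O ^ (j + 1) := by
    intro i
    have h1 := mulVec_mem_succ hP hvj i
    rwa [Matrix.sub_mulVec, Pi.sub_apply, ← Matrix.mulVec_mulVec] at h1
  -- the recursion
  have hrec : ∀ n i, (H^[n + 1] q) i - q i - (v i + P.mulVec (H^[n] q - q) i) ∈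
      IsLocalRing.maximalIdeal O ^ (j + 1) := by
    intro n i
    have h1 := hH.lin q hq j hj (H^[n] q - q) (fun i => hall n i) i
    rw [add_sub_cancel] at h1
    rw [Function.iterate_succ_apply']
    have h2 : H (H^[n] q) i - q i - (v i + P.mulVec (H^[n] q - q) i) =
        H (H^[n] q) i - H q i - P.mulVec (H^[n] q - q) i := by
      rw [hv, Pi.sub_apply]
      ring
    rw [h2]
    exact h1
  have hformula : ∀ n i, (H^[n + 1] q) i - q i - (v i + (n : O) * P.mulVec v i) ∈
      IsLocalRing.maximalIdeal O ^ (j + 1) := by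
    intro n
    induction n with
    | zero =>
      intro i
      have h1 : (H^[0 + 1] q) i - q i - (v i + ((0 : ℕ) : O) * P.mulVec v i) = 0 := by
        rw [Nat.cast_zero, zero_mul, add_zero]
        exact sub_self _
      rw [h1]
      exact Ideal.zero_mem _
    | succ n ih =>
      intro i
      have h1 := hrec (n + 1) i
      have h2 : P.mulVec ((H^[n + 1] q - q) - (v + (n : O) • P.mulVec v)) i ∈
          IsLocalRing.maximalIdeal O ^ (j + 1) := by
        refine mulVec_mem P (fun k => ?_) i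
        exact ih k
      rw [Matrix.mulVec_sub, Matrix.mulVec_add, Matrix.mulVec_smul, Pi.sub_apply, Pi.add_apply,
        Pi.smul_apply, smul_eq_mul] at h2
      have h3 := Ideal.add_mem _ (Ideal.add_mem _ h1 h2) (Ideal.mul_mem_left _ (n : O) (hPPv i))
      have h4 : (H^[n + 1 + 1] q) i - q i - (v i + ((n + 1 : ℕ) : O) * P.mulVec v i) =
          (H^[n + 1 + 1] q) i - q i - (v i + P.mulVec (H^[n + 1] q - q) i) +
            (P.mulVec (H^[n + 1] q - q) i - (P.mulVec v i + (n : O) * P.mulVec (P.mulVec v) i)) +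
            (n : O) * (P.mulVec (P.mulVec v) i - P.mulVec v i) := by
        push_cast
        ring
      rw [h4]
      exact h3
  have hw0 : w ≠ 0 := by
    rintro rfl
    exact hw (dvd_zero p)
  obtain ⟨w', rfl⟩ : ∃ w', w = w' + 1 := ⟨w - 1, by omega⟩
  have h0 : ∀ i, v i + (w' : O) * P.mulVec v i ∈ IsLocalRing.maximalIdeal O ^ (j + 1) := by
    intro i
    have h1 := hformula w' i
    rw [hper, sub_self, zero_sub] at h1
    exact (neg_mem_iff (S := Ideal O)).1 h1
  have hPv : ∀ i, P.mulVec v i ∈ IsLocalRing.maximalIdeal O ^ (j + 1) := by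
    intro i
    have h1 : P.mulVec (v + (w' : O) • P.mulVec v) i ∈ IsLocalRing.maximalIdeal O ^ (j + 1) :=
      mulVec_mem P (fun k => h0 k) i
    rw [Matrix.mulVec_add, Matrix.mulVec_smul, Pi.add_apply, Pi.smul_apply, smul_eq_mul] at h1
    have h2 := Ideal.sub_mem _ h1 (Ideal.mul_mem_left _ (w' : O) (hPPv i))
    have h3 : P.mulVec v i + (w' : O) * P.mulVec (P.mulVec v) i -
        (w' : O) * (P.mulVec (P.mulVec v) i - P.mulVec v i) =
        ((w' + 1 : ℕ) : O) * P.mulVec v i := by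
      push_cast
      ring
    rw [h3] at h2
    obtain ⟨z, hz⟩ := unit_of_not_dvd hp hpm hw
    rw [← hz] at h2
    have h4 := Ideal.mul_mem_left _ ((z⁻¹ : Oˣ) : O) h2
    rwa [← mul_assoc, Units.inv_mul, one_mul] at h4
  have hv' : ∀ i, v i ∈ IsLocalRing.maximalIdeal O ^ (j + 1) := by
    intro i
    have h1 := Ideal.sub_mem _ (h0 i) (Ideal.mul_mem_left _ (w' : O) (hPv i))
    rwa [add_sub_cancel_right] at h1
  intro n i
  rcases n with _ | n
  · rw [Function.iterate_zero, id, sub_self]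
    exact Ideal.zero_mem _
  · have h1 := Ideal.add_mem _ (hformula n i)
      (Ideal.add_mem _ (hv' i) (Ideal.mul_mem_left _ (n : O) (hPv i)))
    rwa [sub_add_cancel] at h1

end ball_

/-- P3. Periods of a map of a residue ball: if the derivative is idempotent modulo the maximal
ideal, then they are powers of the residue characteristic. -/
theorem ball_period {O : Type} [CommRing O] [IsLocalRing O] {N : ℕ} [IsNoetherianRing O] (p : ℕ)
    (hp : p.Prime)
    (hpm : (p : O) ∈ IsLocalRing.maximalIdeal O) (G : (Fin N → O) → Fin N → O) (q : Fin N → O)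
    (A : Matrix (Fin N) (Fin N) O)
    (hG : ∀ x : Fin N → O, (∀ i, x i - q i ∈ IsLocalRing.maximalIdeal O) →
      ∀ i, G x i - q i ∈ IsLocalRing.maximalIdeal O)
    (hlin : ∀ i, Lin q (fun x => G x i) (A i)) (E : ℕ) (hE : 1 ≤ E)
    (hA : ∀ i j, (A ^ E * A ^ E - A ^ E) i j ∈ IsLocalRing.maximalIdeal O) (m : ℕ) (hm : 1 ≤ m)
    (hper : G^[m] q = q) : ∃ e : ℕ, G^[E * p ^ e] q = q := by
  have hLV : LV q (Matrix.of A) G := by
    refine ⟨hG, fun x hx j hj u hu i => ?_⟩
    exact hlin i x hx j hj u hu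
  have hm0 : m ≠ 0 := by omega
  obtain ⟨e, w, hw, hme⟩ := Nat.exists_eq_pow_mul_and_not_dvd hm0 p hp.ne_one
  refine ⟨e, ?_⟩
  set H := G^[E * p ^ e] with hHdef
  set P : Matrix (Fin N) (Fin N) O := (Matrix.of A) ^ (E * p ^ e) with hPdef
  have hH : LV q P H := hLV.iterate _
  have hP : ∀ i j, (P * P - P) i j ∈ IsLocalRing.maximalIdeal O := by
    have h1 : IsIdempotentElem (((Matrix.of A) ^ E).map (IsLocalRing.residue O)) := by
      rw [IsIdempotentElem, ← Matrix.map_mul]
      ext i j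
      have h2 := (IsLocalRing.residue_eq_zero_iff _).2 (hA i j)
      rw [Matrix.sub_apply, map_sub, sub_eq_zero] at h2
      exact h2
    have h2 : P.map (IsLocalRing.residue O) =
        (((Matrix.of A) ^ E).map (IsLocalRing.residue O)) ^ (p ^ e) := by
      rw [hPdef, pow_mul]
      exact map_pow (RingHom.mapMatrix (IsLocalRing.residue O)) ((Matrix.of A) ^ E) (p ^ e)
    have h3 : IsIdempotentElem (P.map (IsLocalRing.residue O)) := by
      rw [h2]
      exact h1.pow _
    intro i j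
    rw [← IsLocalRing.residue_eq_zero_iff, Matrix.sub_apply, map_sub, sub_eq_zero]
    rw [IsIdempotentElem, ← Matrix.map_mul] at h3
    exact congrFun (congrFun h3 i) j
  have hperH : H^[w] q = q := by
    rw [hHdef, ← Function.iterate_mul]
    have h1 : E * p ^ e * w = m * E := by
      rw [hme]
      ring
    rw [h1, Function.iterate_mul]
    exact Function.iterate_fixed hper E
  have hq : ∀ i, q i - q i ∈ IsLocalRing.maximalIdeal O := fun i => by
    rw [sub_self]
    exact Ideal.zero_mem _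
  have hall : ∀ j n i, (H^[n] q) i - q i ∈ IsLocalRing.maximalIdeal O ^ (j + 1) := by
    intro j
    induction j with
    | zero =>
      intro n i
      rw [zero_add, pow_one]
      exact (hH.iterate n).maps q hq i
    | succ j ih => exact step hp hpm hw hH hP hperH (by omega) ih
  ext i
  have h1 : H q i - q i ∈ (⨅ j : ℕ, IsLocalRing.maximalIdeal O ^ j) := by
    rw [Ideal.mem_iInf]
    intro j
    exact Ideal.pow_le_pow_right (Nat.le_succ j) (hall j 1 i)
  rw [Ideal.iInf_pow_eq_bot_of_isLocalRing _ (Ideal.IsPrime.ne_top'), Ideal.mem_bot,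
    sub_eq_zero] at h1
  exact h1

end Pool.Agent.Helper58.IC
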