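import Pool.Agent.Helper58.IC.Defs

/-!
# Every finite set of complex numbers lies in a base ring

PROOF of B1. `Algebra.adjoin ℚ E` is a `ℚ`-algebra of finite type inside `ℂ`; by
`exists_integral_inj_algHom_of_fg` there is an injective integral `ℚ`-algebra homomorphism
`g : MvPolynomial (Fin r) ℚ → Algebra.adjoin ℚ E`; put `T i = g (X i)`. Every `x ∈ E` is a root of a
monic polynomial over `MvPolynomial (Fin r) ℚ`; let `ℓ` be a common denominator of all the
coefficients of all the coefficients of these finitely many polynomials. Then `ℓ x` is integral over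
`ℤ[T]` (multiply the equation by `ℓ ^ n`). Let `R` be the subring of `ℂ` generated by the `T i`, `E`
and `1 / ℓ`, with the algebra structure given by `X i ↦ T i`.
- `inj`: `g` is injective and `MvPolynomial.map (Int.castRingHom ℚ)` is injective.
- `noeth`: `R` is a quotient of a polynomial ring over `ℤ` in finitely many variables.
- `int`: the set of the `x ∈ R` such that `ℓ ^ m x` is integral over `ℤ[T]` for some `m` is a subring
  and contains the generators (`Subring.closure_induction`).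
- `gen`: the `ℤ[T]`-algebra `R₁` generated by the `ℓ x`, `x ∈ E`, is a finitely generated
  `ℤ[T]`-module (finitely many integral generators), generated by `e_1, ..., e_D` say, and for every
  `x ∈ R` some `ℓ ^ m x` lies in `R₁` (again by induction over the generators).
(Instead of `R₁` one may also use that `R` is generated, up to powers of `ℓ`, by the monomials in the
`ℓ x` with bounded exponents.)
-/

set_option autoImplicit false

namespace Pool.Agent.Helper58.IC

open MvPolynomial Filter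
open Pool.Agent.Helper65.RP (MultLT orb iter van)

attribute [local instance] MvPolynomial.algebraMvPolynomial

/-- clearing the rational denominators of an integral equation -/
private theorem base_clear {r : ℕ} (T : Fin r → ℂ) (x : ℂ)
    (hx : (eval₂Hom (algebraMap ℚ ℂ) T).IsIntegralElem x) :
    ∃ l : ℕ, l ≠ 0 ∧ (eval₂Hom (Int.castRingHom ℂ) T).IsIntegralElem ((l : ℂ) * x) := by
  let : Algebra (MvPolynomial (Fin r) ℚ) ℂ := (eval₂Hom (algebraMap ℚ ℂ) T).toAlgebra
  let : Algebra (MvPolynomial (Fin r) ℤ) ℂ := (eval₂Hom (Int.castRingHom ℂ) T).toAlgebra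
  have : IsScalarTower (MvPolynomial (Fin r) ℤ) (MvPolynomial (Fin r) ℚ) ℂ := by
    refine IsScalarTower.of_algebraMap_eq fun p => ?_
    show eval₂Hom (Int.castRingHom ℂ) T p = eval₂Hom (algebraMap ℚ ℂ) T (map (algebraMap ℤ ℚ) p)
    rw [coe_eval₂Hom, coe_eval₂Hom, eval₂_map]
    congr 1
  have hx' : IsIntegral (MvPolynomial (Fin r) ℚ) x := hx
  obtain ⟨⟨_, z, hz, rfl⟩, hm⟩ := IsIntegral.exists_multiple_integral_of_isLocalization
    (R := MvPolynomial (Fin r) ℤ)
    ((nonZeroDivisors ℤ).map (C (σ := Fin r))) (Rₘ := MvPolynomial (Fin r) ℚ) x hx'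
  have hz0 : z ≠ 0 := nonZeroDivisors.ne_zero hz
  have h1 : IsIntegral (MvPolynomial (Fin r) ℤ) ((z : ℂ) * x) := by
    have h2 : ((⟨C z, ⟨z, hz, rfl⟩⟩ :
        ((nonZeroDivisors ℤ).map (C (σ := Fin r)) : Submonoid _)) • x : ℂ) = (z : ℂ) * x := by
      rw [Submonoid.smul_def, Algebra.smul_def]
      congr 1
      show eval₂Hom (Int.castRingHom ℂ) T (C z) = _
      rw [eval₂Hom_C]
      simp
    rw [← h2]
    exact hm
  refine ⟨z.natAbs, Int.natAbs_ne_zero.2 hz0, ?_⟩
  have h3 : IsIntegral (MvPolynomial (Fin r) ℤ) ((z.natAbs : ℂ) * x) := by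
    rcases Int.natAbs_eq z with h | h
    · have h4 : (z : ℂ) = (z.natAbs : ℂ) := by
        rw [h]; simp
      rw [← h4]
      exact h1
    · have h4 : (z : ℂ) = -(z.natAbs : ℂ) := by
        rw [h]; simp
      have h5 : (z.natAbs : ℂ) * x = -((z : ℂ) * x) := by rw [h4]; ring
      rw [h5]
      exact h1.neg
  exact h3

private theorem base_int (E : Finset ℂ) :
    ∃ (r ℓ : ℕ) (T : Fin r → ℂ), Function.Injective (eval₂Hom (Int.castRingHom ℂ) T) ∧ ℓ ≠ 0 ∧
      ∀ x ∈ E, (eval₂Hom (Int.castRingHom ℂ) T).IsIntegralElem ((ℓ : ℂ) * x) := by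
  classical
  let S₀ := Algebra.adjoin ℚ (E : Set ℂ)
  have : Algebra.FiniteType ℚ S₀ := S₀.fg_iff_finiteType.mp (Subalgebra.fg_adjoin_finset E)
  obtain ⟨r, g, ginj, gint⟩ := exists_integral_inj_algHom_of_fg ℚ S₀
  let T : Fin r → ℂ := fun i => ((g (X i) : S₀) : ℂ)
  have hcomp : (eval₂Hom (algebraMap ℚ ℂ) T) = (S₀.val : S₀ →+* ℂ).comp (g : _ →+* S₀) := by
    refine MvPolynomial.ringHom_ext (fun q => ?_) (fun i => ?_)
    · rw [eval₂Hom_C]
      simp [← MvPolynomial.algebraMap_eq]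
    · rw [eval₂Hom_X']
      rfl
  have hint : ∀ x ∈ E, ∃ l : ℕ, l ≠ 0 ∧
      (eval₂Hom (Int.castRingHom ℂ) T).IsIntegralElem ((l : ℂ) * x) := by
    intro x hx
    refine base_clear T x ?_
    have hxS : x ∈ S₀ := Algebra.subset_adjoin hx
    obtain ⟨p, hp, hp0⟩ := gint ⟨x, hxS⟩
    refine ⟨p, hp, ?_⟩
    have h1 := Polynomial.hom_eval₂ p (g : _ →+* S₀) (S₀.val : S₀ →+* ℂ) ⟨x, hxS⟩
    rw [hcomp]
    have h2 : Polynomial.eval₂ (g : _ →+* S₀) ⟨x, hxS⟩ p = 0 := hp0
    rw [h2, map_zero] at h1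
    exact h1.symm
  choose! l hl0 hl using hint
  refine ⟨r, ∏ x ∈ E, l x, T, ?_, Finset.prod_ne_zero_iff.2 hl0, ?_⟩
  · have h1 : (eval₂Hom (Int.castRingHom ℂ) T)
        = ((S₀.val : S₀ →+* ℂ).comp (g : _ →+* S₀)).comp (map (Int.castRingHom ℚ)) := by
      rw [← hcomp]
      refine MvPolynomial.ringHom_ext (fun q => ?_) (fun i => ?_)
      · rw [eval₂Hom_C]
        simp
      · rw [eval₂Hom_X', RingHom.comp_apply, map_X, eval₂Hom_X']
    rw [h1]
    have h2 : Function.Injective (map (σ := Fin r) (Int.castRingHom ℚ)) :=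
      map_injective _ Int.cast_injective
    have h3 : Function.Injective (S₀.val : S₀ →+* ℂ) := Subtype.val_injective
    intro a b hab
    rw [RingHom.comp_apply, RingHom.comp_apply, RingHom.comp_apply, RingHom.comp_apply] at hab
    exact h2 (ginj (h3 hab))
  · intro x hx
    let : Algebra (MvPolynomial (Fin r) ℤ) ℂ := (eval₂Hom (Int.castRingHom ℂ) T).toAlgebra
    have h1 : IsIntegral (MvPolynomial (Fin r) ℤ) ((l x : ℂ) * x) := hl x hx
    have h2 : (((∏ y ∈ E, l y : ℕ)) : ℂ) * x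
        = ((∏ y ∈ E.erase x, l y : ℕ) : ℂ) * ((l x : ℂ) * x) := by
      rw [← Finset.prod_erase_mul _ _ hx]
      push_cast
      ring
    have h3 : IsIntegral (MvPolynomial (Fin r) ℤ) ((((∏ y ∈ E, l y : ℕ)) : ℂ) * x) := by
      rw [h2]
      exact (isIntegral_natCast _).mul h1
    exact h3

/-- B1. Every finite set of complex numbers lies in a base ring. -/
theorem exists_base (E : Finset ℂ) :
    ∃ (r ℓ D : ℕ) (R : Subring ℂ) (_ : Algebra (MvPolynomial (Fin r) ℤ) R),
      IsBase r ℓ D R ∧ ∀ x ∈ E, x ∈ R := by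
  classical
  obtain ⟨r, ℓ, T, hinj, hℓ, hint⟩ := base_int E
  let : Algebra (MvPolynomial (Fin r) ℤ) ℂ := (eval₂Hom (Int.castRingHom ℂ) T).toAlgebra
  have halg : ∀ p : MvPolynomial (Fin r) ℤ, algebraMap (MvPolynomial (Fin r) ℤ) ℂ p
      = eval₂Hom (Int.castRingHom ℂ) T p := fun p => rfl
  let G : Set ℂ := Set.range T ∪ (E : Set ℂ) ∪ {(ℓ : ℂ)⁻¹}
  let R : Subring ℂ := Subring.closure G
  have hℓC : (ℓ : ℂ) ≠ 0 := Nat.cast_ne_zero.2 hℓ
  have hT : ∀ i, T i ∈ R := fun i => Subring.subset_closure (Or.inl (Or.inl ⟨i, rfl⟩))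
  have hE : ∀ x ∈ E, x ∈ R := fun x hx => Subring.subset_closure (Or.inl (Or.inr hx))
  have hI : (ℓ : ℂ)⁻¹ ∈ R := Subring.subset_closure (Or.inr rfl)
  have hφ : ∀ p : MvPolynomial (Fin r) ℤ, eval₂Hom (Int.castRingHom ℂ) T p ∈ R := by
    intro p
    induction p using MvPolynomial.induction_on with
    | C z => rw [eval₂Hom_C]; exact intCast_mem R z
    | add p q hp hq => rw [map_add]; exact add_mem hp hq
    | mul_X p i hp => rw [map_mul, eval₂Hom_X']; exact mul_mem hp (hT i)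
  let R₁ : Subalgebra (MvPolynomial (Fin r) ℤ) ℂ :=
    Algebra.adjoin (MvPolynomial (Fin r) ℤ) ((fun x => (ℓ : ℂ) * x) '' (E : Set ℂ))
  have hfg : (Subalgebra.toSubmodule R₁).FG := by
    refine fg_adjoin_of_finite (E.finite_toSet.image _) ?_
    rintro _ ⟨x, hx, rfl⟩
    exact hint x hx
  have hR₁ : ∀ y ∈ R₁, y ∈ R := by
    intro y hy
    induction hy using Algebra.adjoin_induction with
    | mem y hy =>
      obtain ⟨x, hx, rfl⟩ := hy
      exact mul_mem (natCast_mem R ℓ) (hE x hx)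
    | algebraMap p => exact hφ p
    | add a b _ _ ha hb => exact add_mem ha hb
    | mul a b _ _ ha hb => exact mul_mem ha hb
  have hpow : ∀ m : ℕ, (ℓ : ℂ) ^ m ∈ R₁ := fun m => pow_mem (natCast_mem R₁ ℓ) m
  have key : ∀ x ∈ R, ∃ m : ℕ, (ℓ : ℂ) ^ m * x ∈ R₁ := by
    intro x hx
    induction hx using Subring.closure_induction with
    | mem x hx =>
      rcases hx with (⟨i, rfl⟩ | hx) | hx
      · refine ⟨0, ?_⟩
        rw [pow_zero, one_mul]
        have h1 : T i = algebraMap (MvPolynomial (Fin r) ℤ) ℂ (X i) := by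
          rw [halg, eval₂Hom_X']
        rw [h1]
        exact R₁.algebraMap_mem _
      · refine ⟨1, ?_⟩
        rw [pow_one]
        exact Algebra.subset_adjoin ⟨x, hx, rfl⟩
      · refine ⟨1, ?_⟩
        rw [Set.mem_singleton_iff] at hx
        rw [hx, pow_one, mul_inv_cancel₀ hℓC]
        exact R₁.one_mem
    | zero => exact ⟨0, by simp⟩
    | one => exact ⟨0, by simp⟩
    | add a b _ _ ha hb =>
      obtain ⟨m, hm⟩ := ha
      obtain ⟨k, hk⟩ := hb
      refine ⟨m + k, ?_⟩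
      have h1 : (ℓ : ℂ) ^ (m + k) * (a + b)
          = (ℓ : ℂ) ^ k * ((ℓ : ℂ) ^ m * a) + (ℓ : ℂ) ^ m * ((ℓ : ℂ) ^ k * b) := by
        rw [pow_add]; ring
      rw [h1]
      exact add_mem (mul_mem (hpow k) hm) (mul_mem (hpow m) hk)
    | neg a _ ha =>
      obtain ⟨m, hm⟩ := ha
      refine ⟨m, ?_⟩
      rw [mul_neg]
      exact neg_mem hm
    | mul a b _ _ ha hb =>
      obtain ⟨m, hm⟩ := ha
      obtain ⟨k, hk⟩ := hb
      refine ⟨m + k, ?_⟩
      have h1 : (ℓ : ℂ) ^ (m + k) * (a * b) = ((ℓ : ℂ) ^ m * a) * ((ℓ : ℂ) ^ k * b) := by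
        rw [pow_add]; ring
      rw [h1]
      exact mul_mem hm hk
  obtain ⟨D, e, he⟩ := Submodule.fg_iff_exists_fin_generating_family.mp hfg
  have heR : ∀ j, e j ∈ R := by
    intro j
    refine hR₁ _ ?_
    rw [← Subalgebra.mem_toSubmodule, ← he]
    exact Submodule.subset_span ⟨j, rfl⟩
  let ψ : MvPolynomial (Fin r) ℤ →+* R := (eval₂Hom (Int.castRingHom ℂ) T).codRestrict R hφ
  have hψ : ∀ p, ((ψ p : R) : ℂ) = eval₂Hom (Int.castRingHom ℂ) T p := fun p => rfl
  refine ⟨r, ℓ, D, R, ψ.toAlgebra, ?_, hE⟩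
  let : Algebra (MvPolynomial (Fin r) ℤ) R := ψ.toAlgebra
  have hal : ∀ p, algebraMap (MvPolynomial (Fin r) ℤ) R p = ψ p := fun p => rfl
  refine ⟨?_, ?_, hℓ, ?_, ?_, ?_⟩
  · -- noetherian
    have hGfin : G.Finite := ((Set.finite_range T).union E.finite_toSet).union (Set.finite_singleton _)
    have h1 : (Algebra.adjoin ℤ G).FG := ⟨hGfin.toFinset, by rw [Set.Finite.coe_toFinset]⟩
    have : Algebra.FiniteType ℤ (Algebra.adjoin ℤ G) := (Subalgebra.fg_iff_finiteType _).mp h1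
    have h2 : IsNoetherianRing (Algebra.adjoin ℤ G) := Algebra.FiniteType.isNoetherianRing ℤ _
    have h3 : ∀ x : ℂ, x ∈ Algebra.adjoin ℤ G → x ∈ R := by
      intro x hx
      rw [Algebra.adjoin_int] at hx
      exact hx
    have h4 : ∀ x : ℂ, x ∈ R → x ∈ Algebra.adjoin ℤ G := by
      intro x hx
      rw [Algebra.adjoin_int]
      exact hx
    let f : Algebra.adjoin ℤ G →+* R :=
      ((Algebra.adjoin ℤ G).val : Algebra.adjoin ℤ G →+* ℂ).codRestrict R fun x => h3 _ x.2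
    refine isNoetherianRing_of_surjective _ _ f ?_
    intro x
    exact ⟨⟨x, h4 _ x.2⟩, rfl⟩
  · intro p q hpq
    apply hinj
    rw [← hψ p, ← hψ q, ← hal, ← hal, hpq]
  · -- unit
    refine IsUnit.of_mul_eq_one (⟨(ℓ : ℂ)⁻¹, hI⟩ : R) ?_
    apply Subtype.ext
    push_cast
    exact mul_inv_cancel₀ hℓC
  · intro x
    obtain ⟨m, hm⟩ := key x x.2
    refine ⟨m, ?_⟩
    have h1 : IsIntegral (MvPolynomial (Fin r) ℤ) ((ℓ : ℂ) ^ m * x) :=
      IsIntegral.of_mem_of_fg R₁ hfg _ hm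
    obtain ⟨p, hp, hp0⟩ := h1
    refine ⟨p, hp, ?_⟩
    apply Subtype.ext
    have h2 := Polynomial.hom_eval₂ p ψ R.subtype ((ℓ : R) ^ m * x)
    have h3 : R.subtype.comp ψ = algebraMap (MvPolynomial (Fin r) ℤ) ℂ := rfl
    rw [h3] at h2
    have h4 : R.subtype ((ℓ : R) ^ m * x) = (ℓ : ℂ) ^ m * x := by
      rw [map_mul, map_pow, map_natCast]
      rfl
    rw [h4, hp0] at h2
    exact h2
  · refine ⟨fun j => ⟨e j, heR j⟩, ?_⟩
    intro x
    obtain ⟨m, hm⟩ := key x x.2
    rw [← Subalgebra.mem_toSubmodule, ← he, Submodule.mem_span_range_iff_exists_fun] at hm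
    obtain ⟨c, hc⟩ := hm
    refine ⟨m, c, ?_⟩
    apply Subtype.ext
    push_cast
    rw [← hc]
    refine Finset.sum_congr rfl fun j _ => ?_
    rw [Algebra.smul_def, halg, ← hψ, hal]

end Pool.Agent.Helper58.IC
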