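import Pool.Agent.Helper58.IC.Defs

/-!
# Bounds for the values of one element of the base ring

PROOF. By `hB.int` there are `m` and a monic polynomial `P = X ^ e + ... + P_0` over
`A = MvPolynomial (Fin r) ℤ` with `P (ℓ ^ m c) = 0`. For a specialisation `y` over `z` the number
`w = y (ℓ ^ m c) = ℓ ^ m y (c)` is a root of the monic polynomial with the integer coefficients
`P_j (z)`. T5a: `‖w‖ ≤ 1 + ∑_j |P_j (z)|` (Cauchy's bound) and `|P_j (z)| ≤ C_j sz z ^ (B_j)`,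
`‖ℓ ^ m‖ ≥ 1`. T5b: an element of an ultrametric field which is integral over `ℤ` has norm `≤ 1`
(`PadicAlgCl p` is ultrametric: see `PadicAlgCl.isNonarchimedean`, or the spectral norm), so
`‖y c‖ ≤ ‖(ℓ : PadicAlgCl p) ^ m‖⁻¹`.
-/

set_option autoImplicit false

namespace Pool.Agent.Helper58.IC

open MvPolynomial Filter
open Pool.Agent.Helper65.RP (MultLT orb iter van)

section aux

private lemma one_le_sz {r : ℕ} (z : Fin r → ℤ) : 1 ≤ sz z := by
  have h : 0 ≤ ∑ i, |(z i : ℝ)| := Finset.sum_nonneg (fun i _ => abs_nonneg _)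
  unfold sz
  linarith

private lemma abs_le_sz {r : ℕ} (z : Fin r → ℤ) (i : Fin r) : |(z i : ℝ)| ≤ sz z := by
  have h : |(z i : ℝ)| ≤ ∑ j, |(z j : ℝ)| :=
    Finset.single_le_sum (f := fun j => |(z j : ℝ)|) (fun j _ => abs_nonneg _) (Finset.mem_univ i)
  unfold sz
  linarith

/-- Values of one integral polynomial grow at most like a power. -/
private lemma eval_bound {r : ℕ} (p : MvPolynomial (Fin r) ℤ) :
    ∃ (C : ℝ) (B : ℕ), 0 ≤ C ∧ ∀ z : Fin r → ℤ, |((eval z p : ℤ) : ℝ)| ≤ C * sz z ^ B := by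
  induction p using MvPolynomial.induction_on with
  | C a =>
    refine ⟨|(a : ℝ)|, 0, abs_nonneg _, fun z => ?_⟩
    simp
  | add p q hp hq =>
    obtain ⟨C₁, B₁, h₁, hp⟩ := hp
    obtain ⟨C₂, B₂, h₂, hq⟩ := hq
    refine ⟨C₁ + C₂, B₁ + B₂, add_nonneg h₁ h₂, fun z => ?_⟩
    have hs := one_le_sz z
    have e1 : sz z ^ B₁ ≤ sz z ^ (B₁ + B₂) := pow_le_pow_right₀ hs (Nat.le_add_right _ _)
    have e2 : sz z ^ B₂ ≤ sz z ^ (B₁ + B₂) := pow_le_pow_right₀ hs (Nat.le_add_left _ _)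
    have a1 := hp z
    have a2 := hq z
    have a3 : C₁ * sz z ^ B₁ ≤ C₁ * sz z ^ (B₁ + B₂) := mul_le_mul_of_nonneg_left e1 h₁
    have a4 : C₂ * sz z ^ B₂ ≤ C₂ * sz z ^ (B₁ + B₂) := mul_le_mul_of_nonneg_left e2 h₂
    have a5 : |((eval z p : ℤ) : ℝ) + ((eval z q : ℤ) : ℝ)| ≤
        |((eval z p : ℤ) : ℝ)| + |((eval z q : ℤ) : ℝ)| := abs_add_le _ _
    rw [map_add, Int.cast_add]
    have a6 : (C₁ + C₂) * sz z ^ (B₁ + B₂) =
        C₁ * sz z ^ (B₁ + B₂) + C₂ * sz z ^ (B₁ + B₂) := by ring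
    rw [a6]
    linarith
  | mul_X p i hp =>
    obtain ⟨C₁, B₁, h₁, hp⟩ := hp
    refine ⟨C₁, B₁ + 1, h₁, fun z => ?_⟩
    rw [map_mul, eval_X, Int.cast_mul, abs_mul, pow_succ, ← mul_assoc]
    have hs := one_le_sz z
    exact mul_le_mul (hp z) (abs_le_sz z i) (abs_nonneg _)
      (mul_nonneg h₁ (pow_nonneg (by linarith) _))

private lemma monic_root {A L : Type} [CommRing A] [Field L] (φ : A →+* L) (P : Polynomial A)
    (hP : P.Monic) (w : L) (h : P.eval₂ φ w = 0) :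
    w ^ P.natDegree = - ∑ j ∈ Finset.range P.natDegree, φ (P.coeff j) * w ^ j := by
  rw [Polynomial.eval₂_eq_sum_range, Finset.sum_range_succ, hP.coeff_natDegree, map_one,
    one_mul] at h
  exact eq_neg_of_add_eq_zero_right h

private lemma natDegree_pos' {A L : Type} [CommRing A] [Field L] (φ : A →+* L)
    (P : Polynomial A) (hP : P.Monic) (w : L) (h : P.eval₂ φ w = 0) : 0 < P.natDegree := by
  rcases Nat.eq_zero_or_pos P.natDegree with h0 | h0
  · have h1 := monic_root φ P hP w h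
    rw [h0] at h1
    simp at h1
  · exact h0

/-- Cauchy's bound. -/
private lemma norm_root {A L : Type} [CommRing A] [NormedField L] (φ : A →+* L)
    (P : Polynomial A) (hP : P.Monic) (w : L) (h : P.eval₂ φ w = 0) :
    ‖w‖ ≤ 1 + ∑ j ∈ Finset.range P.natDegree, ‖φ (P.coeff j)‖ := by
  have hS : 0 ≤ ∑ j ∈ Finset.range P.natDegree, ‖φ (P.coeff j)‖ :=
    Finset.sum_nonneg (fun j _ => norm_nonneg _)
  by_cases h1 : ‖w‖ ≤ 1
  · linarith
  push Not at h1
  have hpos := natDegree_pos' φ P hP w h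
  have hr := monic_root φ P hP w h
  have h2 : ‖w‖ ^ P.natDegree ≤
      (∑ j ∈ Finset.range P.natDegree, ‖φ (P.coeff j)‖) * ‖w‖ ^ (P.natDegree - 1) := by
    rw [← norm_pow, hr, norm_neg, Finset.sum_mul]
    refine (norm_sum_le _ _).trans (Finset.sum_le_sum fun j hj => ?_)
    rw [norm_mul, norm_pow]
    refine mul_le_mul_of_nonneg_left ?_ (norm_nonneg _)
    exact pow_le_pow_right₀ h1.le (by have := Finset.mem_range.1 hj; omega)
  have h3 : ‖w‖ ^ P.natDegree = ‖w‖ * ‖w‖ ^ (P.natDegree - 1) := by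
    rw [← pow_succ']
    congr 1
    omega
  rw [h3] at h2
  have h4 := le_of_mul_le_mul_right h2 (pow_pos (by linarith) _)
  linarith

/-- Roots of monic polynomials with coefficients of norm `≤ 1` in an ultrametric field. -/
private lemma norm_root_ultra {A L : Type} [CommRing A] [NormedField L] [IsUltrametricDist L]
    (φ : A →+* L) (hφ : ∀ a, ‖φ a‖ ≤ 1) (P : Polynomial A) (hP : P.Monic) (w : L)
    (h : P.eval₂ φ w = 0) : ‖w‖ ≤ 1 := by
  by_contra h1
  push Not at h1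
  have hpos := natDegree_pos' φ P hP w h
  have hr := monic_root φ P hP w h
  have h2 : ‖w‖ ^ P.natDegree ≤ ‖w‖ ^ (P.natDegree - 1) := by
    rw [← norm_pow, hr, norm_neg]
    refine IsUltrametricDist.norm_sum_le_of_forall_le_of_nonneg
      (pow_nonneg (norm_nonneg _) _) (fun j hj => ?_)
    rw [norm_mul, norm_pow]
    have h5 : ‖w‖ ^ j ≤ ‖w‖ ^ (P.natDegree - 1) :=
      pow_le_pow_right₀ h1.le (by have := Finset.mem_range.1 hj; omega)
    calc ‖φ (P.coeff j)‖ * ‖w‖ ^ j ≤ 1 * ‖w‖ ^ j :=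
          mul_le_mul_of_nonneg_right (hφ _) (pow_nonneg (norm_nonneg _) _)
      _ = ‖w‖ ^ j := one_mul _
      _ ≤ _ := h5
  have h3 : ‖w‖ ^ (P.natDegree - 1) < ‖w‖ ^ P.natDegree :=
    pow_lt_pow_right₀ h1 (by omega)
  linarith

end aux

section base
variable {r ℓ D : ℕ} {R : Type} [CommRing R] [IsDomain R] [Algebra (MvPolynomial (Fin r) ℤ) R]

omit [IsDomain R] in
/-- The value of `ℓ ^ m c` is a root of the specialised polynomial. -/
private lemma spec_root {L : Type} [CommRing L] (z : Fin r → ℤ) (y : R →+* L) (hy : IsSpec z y)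
    (x : R) (P : Polynomial (MvPolynomial (Fin r) ℤ))
    (h : P.eval₂ (algebraMap (MvPolynomial (Fin r) ℤ) R) x = 0) :
    P.eval₂ ((Int.castRingHom L).comp (eval z : MvPolynomial (Fin r) ℤ →+* ℤ)) (y x) = 0 := by
  have h1 : y.comp (algebraMap (MvPolynomial (Fin r) ℤ) R) =
      (Int.castRingHom L).comp (eval z : MvPolynomial (Fin r) ℤ →+* ℤ) := by
    refine RingHom.ext fun p => ?_
    exact hy p
  rw [← h1, ← Polynomial.hom_eval₂, h, map_zero]

/-- T5a. Bounds for the values of one element, archimedean case. -/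
theorem spec_bound (hB : IsBase r ℓ D R) (c : R) :
    ∃ (C : ℝ) (B : ℕ), 0 ≤ C ∧ ∀ (z : Fin r → ℤ) (y : R →+* ℂ), IsSpec z y →
      ‖y c‖ ≤ C * sz z ^ B := by
  obtain ⟨m, P, hP, hroot⟩ := hB.int c
  choose C B hC hCB using fun j => eval_bound (P.coeff j)
  refine ⟨1 + ∑ j ∈ Finset.range P.natDegree, C j, ∑ j ∈ Finset.range P.natDegree, B j,
    add_nonneg zero_le_one (Finset.sum_nonneg fun j _ => hC j), fun z y hy => ?_⟩
  have hs := one_le_sz z
  have h1 := norm_root _ P hP _ (spec_root z y hy _ P hroot)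
  have hℓ : (1 : ℝ) ≤ ‖(ℓ : ℂ) ^ m‖ := by
    rw [norm_pow, Complex.norm_natCast]
    refine one_le_pow₀ ?_
    exact_mod_cast Nat.one_le_iff_ne_zero.2 hB.pos
  have h2 : ‖y c‖ ≤ ‖y ((ℓ : R) ^ m * c)‖ := by
    rw [map_mul, map_pow, map_natCast, norm_mul]
    exact le_mul_of_one_le_left (norm_nonneg _) hℓ
  have h3 : ∀ j ∈ Finset.range P.natDegree,
      ‖((Int.castRingHom ℂ).comp (eval z : MvPolynomial (Fin r) ℤ →+* ℤ)) (P.coeff j)‖ ≤
        C j * sz z ^ (∑ j ∈ Finset.range P.natDegree, B j) := by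
    intro j hj
    have e1 : ‖((Int.castRingHom ℂ).comp (eval z : MvPolynomial (Fin r) ℤ →+* ℤ)) (P.coeff j)‖ =
        |((eval z (P.coeff j) : ℤ) : ℝ)| := by
      rw [RingHom.comp_apply]
      simp only [eq_intCast]
      exact Complex.norm_intCast _
    rw [e1]
    refine (hCB j z).trans (mul_le_mul_of_nonneg_left ?_ (hC j))
    exact pow_le_pow_right₀ hs
      (Finset.single_le_sum (f := B) (fun i _ => Nat.zero_le _) hj)
  have h4 := Finset.sum_le_sum h3
  rw [← Finset.sum_mul] at h4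
  have h5 : (1 : ℝ) ≤ sz z ^ (∑ j ∈ Finset.range P.natDegree, B j) := one_le_pow₀ hs
  rw [add_mul, one_mul]
  linarith

/-- T5b. Bounds for the values of one element, `p`-adic case. -/
theorem spec_bound_padic (hB : IsBase r ℓ D R) (c : R) (p : ℕ) [Fact p.Prime] :
    ∃ C : ℝ, 0 ≤ C ∧ ∀ (z : Fin r → ℤ) (y : R →+* PadicAlgCl p), IsSpec z y → ‖y c‖ ≤ C := by
  obtain ⟨m, P, hP, hroot⟩ := hB.int c
  refine ⟨‖((ℓ : PadicAlgCl p) ^ m)‖⁻¹, inv_nonneg.2 (norm_nonneg _), fun z y hy => ?_⟩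
  have hint : ∀ n : ℤ, ‖(n : PadicAlgCl p)‖ ≤ 1 := by
    intro n
    have e1 : (n : PadicAlgCl p) = ((n : ℚ_[p]) : PadicAlgCl p) := by simp
    rw [e1, PadicAlgCl.norm_extends]
    exact Padic.norm_int_le_one n
  have h1 : ‖y ((ℓ : R) ^ m * c)‖ ≤ 1 := by
    refine norm_root_ultra _ (fun a => ?_) P hP _ (spec_root z y hy _ P hroot)
    rw [RingHom.comp_apply]
    simp only [eq_intCast]
    exact hint _
  have hne : (ℓ : PadicAlgCl p) ^ m ≠ 0 := pow_ne_zero _ (Nat.cast_ne_zero.2 hB.pos)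
  rw [map_mul, map_pow, map_natCast, norm_mul] at h1
  have h2 : 0 < ‖((ℓ : PadicAlgCl p) ^ m)‖ := norm_pos_iff.2 hne
  rw [← one_div, le_div_iff₀ h2, mul_comm]
  exact h1

end base

end Pool.Agent.Helper58.IC
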