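import Pool.Agent.Helper58.IC.Defs

/-!
# Certificates from the Nullstellensatz

V1. By the Nullstellensatz (`MvPolynomial.vanishingIdeal_zeroLocus_eq_radical`) every `X i` lies in the
radical of `Ideal.span (Set.range h)`; take a common exponent `M ≥ 1`.

V2. For every function `σ : B → Fin N × Fin N` and every `i` the polynomial
`P = X i * ∏_{b ∈ B} (C (b (σ b).2) * X (σ b).1 - C (b (σ b).1) * X (σ b).2)` vanishes at every common
zero of `S` (at `0` because of `X i`, at `c • b` because of the factor of `b`), so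
`P ^ M = ∑_{s ∈ S} A_s * s` for some `M`, `A_s`. Let `E` consist of all coordinates of all `b ∈ B` and
all coefficients of all the `A_s`, for all `σ`, `i`. If `E ⊆ R`, then the `A_s` lift to `R`, and the
identity lifts as well, because `MvPolynomial.map R.subtype` is injective (use the lifts `s'`, `b'`
of the `s`, `b`). Apply `y` and evaluate at `x`: since all `s'` vanish at `x`, we get
`x i * ∏_b (y (b' (σ b).2) * x (σ b).1 - y (b' (σ b).1) * x (σ b).2) = 0` for all `σ`, `i`. Choose `i`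
with `x i ≠ 0`. If no `b` had all its minors zero, a suitable `σ` would give a contradiction. So there
is `b` with `y (b' k) * x j = y (b' j) * x k` for all `j, k`; with `k` such that `b k = 1`, hence
`b' k = 1`, we get `x j = x k * y (b' j)`.
-/

set_option autoImplicit false

namespace Pool.Agent.Helper58.IC

open MvPolynomial Filter
open Pool.Agent.Helper65.RP (MultLT orb iter van)

/-- Nullstellensatz for a set of equations. -/
private theorem nullst {N : ℕ} (T : Set (MvPolynomial (Fin N) ℂ)) (P : MvPolynomial (Fin N) ℂ)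
    (hP : ∀ x : Fin N → ℂ, (∀ s ∈ T, eval x s = 0) → eval x P = 0) :
    ∃ M : ℕ, 1 ≤ M ∧ P ^ M ∈ Ideal.span T := by
  have h1 : P ∈ (Ideal.span T).radical := by
    rw [← vanishingIdeal_zeroLocus_eq_radical (K := ℂ), mem_vanishingIdeal_iff]
    intro x hx
    rw [mem_zeroLocus_iff] at hx
    rw [aeval_eq_eval]
    refine hP x fun s hs => ?_
    have := hx s (Ideal.subset_span hs)
    rwa [aeval_eq_eval] at this
  obtain ⟨M, hM⟩ := h1
  exact ⟨M + 1, by omega, by rw [pow_succ]; exact Ideal.mul_mem_right _ _ hM⟩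

/-- V1. A certificate for the absence of common zeros. -/
theorem exists_cert {N : ℕ} (h : Fin N → MvPolynomial (Fin N) ℂ)
    (hnz : ∀ x : Fin N → ℂ, (∀ i, eval x (h i) = 0) → x = 0) : Cert h := by
  classical
  have h1 : ∀ i : Fin N, ∃ M : ℕ, 1 ≤ M ∧
      (X i : MvPolynomial (Fin N) ℂ) ^ M ∈ Ideal.span (Set.range h) := by
    intro i
    apply nullst
    intro x hx
    have hx0 : x = 0 := hnz x fun j => hx _ ⟨j, rfl⟩
    rw [eval_X, hx0]
    rfl
  choose M hM1 hM using h1
  have h2 : ∀ i : Fin N, (X i : MvPolynomial (Fin N) ℂ) ^ (1 + ∑ j, M j) ∈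
      Ideal.span (Set.range h) := by
    intro i
    have h3 : M i ≤ ∑ j, M j := Finset.single_le_sum (fun _ _ => Nat.zero_le _) (Finset.mem_univ i)
    obtain ⟨c, hc⟩ : ∃ c, 1 + ∑ j, M j = M i + c := ⟨1 + ∑ j, M j - M i, by omega⟩
    rw [hc, pow_add]
    exact Ideal.mul_mem_right _ _ (hM i)
  have h3 : ∀ i : Fin N, ∃ A : Fin N → MvPolynomial (Fin N) ℂ,
      ∑ j, A j * h j = (X i : MvPolynomial (Fin N) ℂ) ^ (1 + ∑ j, M j) := fun i =>
    Ideal.mem_span_range_iff_exists_fun.1 (h2 i)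
  choose A hA using h3
  exact ⟨1 + ∑ j, M j, A, by omega, fun i => (hA i).symm⟩

/-- Lifting of the coefficients. -/
private theorem exists_lift {N : ℕ} (R : Subring ℂ) (p : MvPolynomial (Fin N) ℂ)
    (h : ∀ m ∈ p.support, p.coeff m ∈ R) :
    ∃ q : MvPolynomial (Fin N) R, map R.subtype q = p := by
  classical
  refine ⟨∑ m ∈ p.support.attach, monomial m.1 ⟨p.coeff m.1, h m.1 m.2⟩, ?_⟩
  rw [map_sum]
  simp only [map_monomial, Subring.subtype_apply]
  rw [Finset.sum_attach p.support (fun m => monomial m (p.coeff m))]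
  exact p.support_sum_monomial_coeff

/-- V2. The finitely many zeros of a system of forms specialise to all zeros, if finitely many
complex numbers lie in the ring. -/
theorem spec_inf {N : ℕ} (S : Finset (MvPolynomial (Fin N) ℂ)) (B : Finset (Fin N → ℂ))
    (hB1 : ∀ b ∈ B, ∃ i, b i = 1)
    (h : ∀ x : Fin N → ℂ, x ≠ 0 → (∀ s ∈ S, eval x s = 0) → ∃ b ∈ B, ∃ c : ℂ, x = c • b) :
    ∃ E : Finset ℂ, ∀ (R : Subring ℂ), (∀ e ∈ E, e ∈ R) →
      ∀ (S' : Finset (MvPolynomial (Fin N) R)) (B' : Finset (Fin N → R)),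
      (∀ s ∈ S, ∃ s' ∈ S', map R.subtype s' = s) → (∀ b ∈ B, ∃ b' ∈ B', ∀ i, (b' i : ℂ) = b i) →
      ∀ (L : Type) [Field L] (y : R →+* L) (x : Fin N → L), x ≠ 0 →
      (∀ s' ∈ S', eval x (map y s') = 0) → ∃ b' ∈ B', ∃ c : L, ∀ i, x i = c * y (b' i) := by
  classical
  let P : (B → Fin N × Fin N) → Fin N → MvPolynomial (Fin N) ℂ := fun σ i =>
    X i * ∏ b : B, (C (b.1 (σ b).2) * X (σ b).1 - C (b.1 (σ b).1) * X (σ b).2)
  have h1 : ∀ (σ : B → Fin N × Fin N) (i : Fin N), ∃ M : ℕ, 1 ≤ M ∧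
      P σ i ^ M ∈ Ideal.span (Set.range (fun s : S => (s.1 : MvPolynomial (Fin N) ℂ))) := by
    intro σ i
    apply nullst
    intro x hx
    by_cases hx0 : x = 0
    · simp [P, hx0]
    obtain ⟨b, hb, c, rfl⟩ := h x hx0 fun s hs => hx s ⟨⟨s, hs⟩, rfl⟩
    simp only [P, map_mul, map_prod, map_sub, eval_C, eval_X]
    rw [Finset.prod_eq_zero (Finset.mem_univ (⟨b, hb⟩ : B)), mul_zero]
    simp only [Pi.smul_apply, smul_eq_mul]
    ring
  have h2 : ∀ (σ : B → Fin N × Fin N) (i : Fin N), ∃ (M : ℕ) (A : S → MvPolynomial (Fin N) ℂ),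
      ∑ s : S, A s * s.1 = P σ i ^ M := by
    intro σ i
    obtain ⟨M, _, hM⟩ := h1 σ i
    obtain ⟨A, hA⟩ := Ideal.mem_span_range_iff_exists_fun.1 hM
    exact ⟨M, A, hA⟩
  choose M A hA using h2
  let E1 : Finset ℂ := B.biUnion fun b => Finset.univ.image b
  let E2 : Finset ℂ := Finset.univ.biUnion fun σ : B → Fin N × Fin N =>
    Finset.univ.biUnion fun i : Fin N => Finset.univ.biUnion fun s : S =>
      (A σ i s).support.image fun m => (A σ i s).coeff m
  refine ⟨E1 ∪ E2, ?_⟩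
  intro R hR S' B' hS' hB' L _ y x hx hxS
  have hS2 : ∀ s : S, ∃ s' : MvPolynomial (Fin N) R, s' ∈ S' ∧ map R.subtype s' = s.1 := fun s => by
    obtain ⟨s', h3, h4⟩ := hS' s.1 s.2
    exact ⟨s', h3, h4⟩
  choose sl hsl1 hsl2 using hS2
  have hB2 : ∀ b : B, ∃ b' : Fin N → R, b' ∈ B' ∧ ∀ i, (b' i : ℂ) = b.1 i := fun b => by
    obtain ⟨b', h3, h4⟩ := hB' b.1 b.2
    exact ⟨b', h3, h4⟩
  choose bl hbl1 hbl2 using hB2
  have hA2 : ∀ (σ : B → Fin N × Fin N) (i : Fin N) (s : S), ∃ q : MvPolynomial (Fin N) R,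
      map R.subtype q = A σ i s := by
    intro σ i s
    apply exists_lift
    intro m hm
    apply hR
    refine Finset.mem_union_right _ ?_
    refine Finset.mem_biUnion.2 ⟨σ, Finset.mem_univ _, ?_⟩
    refine Finset.mem_biUnion.2 ⟨i, Finset.mem_univ _, ?_⟩
    refine Finset.mem_biUnion.2 ⟨s, Finset.mem_univ _, ?_⟩
    exact Finset.mem_image_of_mem _ hm
  choose Al hAl using hA2
  have hinj : Function.Injective (map (σ := Fin N) R.subtype) :=
    map_injective _ Subtype.val_injective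
  have key : ∀ (σ : B → Fin N × Fin N) (i : Fin N),
      x i * ∏ b : B, (y (bl b (σ b).2) * x (σ b).1 - y (bl b (σ b).1) * x (σ b).2) = 0 := by
    intro σ i
    have h3 : ∑ s : S, Al σ i s * sl s = (X i * ∏ b : B,
        (C (bl b (σ b).2) * X (σ b).1 - C (bl b (σ b).1) * X (σ b).2)) ^ M σ i := by
      apply hinj
      rw [map_sum, map_pow, map_mul, map_prod]
      simp only [map_mul, map_sub, map_C, map_X, hAl, hsl2, Subring.subtype_apply, hbl2]
      exact hA σ i
    have h4 := congrArg (fun q => eval x (map y q)) h3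
    simp only [map_sum, map_pow, map_mul, map_prod, map_sub, map_C, map_X, eval_C, eval_X] at h4
    rw [Finset.sum_eq_zero (fun s _ => by rw [hxS (sl s) (hsl1 s), mul_zero])] at h4
    by_contra hne
    exact pow_ne_zero _ hne h4.symm
  obtain ⟨i, hi⟩ : ∃ i, x i ≠ 0 := by
    by_contra hall
    push Not at hall
    exact hx (funext hall)
  -- some `b` has all its minors zero
  have hb : ∃ b : B, ∀ j k : Fin N, y (bl b k) * x j = y (bl b j) * x k := by
    by_contra hall
    push Not at hall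
    choose j k hjk using hall
    have h5 := key (fun b => (j b, k b)) i
    rcases mul_eq_zero.1 h5 with h6 | h6
    · exact hi h6
    · obtain ⟨b, _, hb⟩ := Finset.prod_eq_zero_iff.1 h6
      exact hjk b (sub_eq_zero.1 hb)
  obtain ⟨b, hb⟩ := hb
  obtain ⟨k, hk⟩ := hB1 b.1 b.2
  have hk' : bl b k = 1 := by
    apply Subtype.ext
    rw [hbl2, hk]
    rfl
  refine ⟨bl b, hbl1 b, x k, fun j => ?_⟩
  have h7 := hb j k
  rw [hk', map_one, one_mul] at h7
  rw [h7, mul_comm]

end Pool.Agent.Helper58.IC
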