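import Pool.Agent.Helper58.IC.Defs

/-!
# A local ring above a prime number

PROOF of P5. Let `R'' = R / ker y`, a Noetherian domain of characteristic zero. (1) `p` is not a unit
in `R''`: if `p w = 1`, then for some `m` the element `ℓ ^ m y (w) = ℓ ^ m / p` of `L` is integral over
`ℤ` (`hB.int`, and `y` maps `ℤ[T]` to `ℤ`), hence an integer, so `p ∣ ℓ ^ m`, a contradiction. (2) Let
`𝔭` be a maximal ideal of `R''` containing `p` and `O = Localization.AtPrime 𝔭`, with `ρ` the
composition `R → R'' → O` (`R'' → O` is injective as `R''` is a domain). `O` is a Noetherian local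
domain and `p` lies in its maximal ideal. (3) The residue field of `O` is `R'' / 𝔭` (`𝔭` is maximal;
`IsLocalization.AtPrime.equivQuotMaximalIdeal` or bijectivity of `R''/𝔭 → ResidueField O`). In
`R''/𝔭` we have `p = 0` and `ℓ` is invertible with inverse an integer, so by `hB.gen` every element is
a combination of the images of the `e j` with coefficients in `ZMod p` (the `c_j` become integers
under `y`): there is a surjection from `Fin D → ZMod p`.
-/

set_option autoImplicit false

namespace Pool.Agent.Helper58.IC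

open MvPolynomial Filter
open Pool.Agent.Helper65.RP (MultLT orb iter van)

/-- A rational multiple `ℓ ^ m / p` is not integral over `ℤ`. -/
private theorem not_integral {L : Type} [Field L] [CharZero L] {p ℓ m : ℕ} (hp : p.Prime)
    (hpl : ¬ p ∣ ℓ) {x : L} (hx : (p : L) * x = (ℓ : L) ^ m) : ¬ IsIntegral ℤ x := by
  intro h
  have hp0 : (p : L) ≠ 0 := Nat.cast_ne_zero.2 hp.ne_zero
  have h1 : algebraMap ℚ L ((ℓ : ℚ) ^ m / p) = x := by
    rw [map_div₀, map_pow, map_natCast, map_natCast, ← hx, mul_div_cancel_left₀ _ hp0]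
  rw [← h1, isIntegral_algebraMap_iff (algebraMap ℚ L).injective] at h
  obtain ⟨k, hk⟩ := IsIntegrallyClosed.isIntegral_iff.1 h
  have hq0 : (p : ℚ) ≠ 0 := Nat.cast_ne_zero.2 hp.ne_zero
  have h2 : (p : ℚ) * k = (ℓ : ℚ) ^ m := by
    have h3 : (k : ℚ) = (ℓ : ℚ) ^ m / p := hk
    rw [h3, mul_div_cancel₀ _ hq0]
  have h4 : (p : ℤ) * k = (ℓ : ℤ) ^ m := by exact_mod_cast h2
  have h5 : (p : ℤ) ∣ ((ℓ ^ m : ℕ) : ℤ) := ⟨k, by rw [h4]; push_cast; rfl⟩
  exact hpl (hp.dvd_of_dvd_pow (Int.natCast_dvd_natCast.1 h5))

/-- The residue field is small. -/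
private theorem card_residue {K : Type} [Field K] {p D : ℕ} (hp : p.Prime) (h0 : (p : K) = 0)
    (e : Fin D → K) (hsurj : ∀ x : K, ∃ c : Fin D → ℤ, ∃ u : ℕ, ¬ p ∣ u ∧
      (u : K) * x = ∑ j, (c j : K) * e j) : Finite K ∧ Nat.card K ≤ p ^ D := by
  have := Fact.mk hp
  have : CharP K p := by
    obtain ⟨q, hq⟩ := CharP.exists K
    have h1 : q ∣ p := (CharP.cast_eq_zero_iff K q p).1 h0
    rcases (Nat.dvd_prime hp).1 h1 with h2 | h2
    · subst h2
      exact absurd rfl (CharP.char_ne_one K 1)
    · subst h2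
      exact hq
  let φ : ZMod p →+* K := ZMod.castHom (dvd_refl p) K
  have hs : Function.Surjective (fun v : Fin D → ZMod p => ∑ j, φ (v j) * e j) := by
    intro x
    obtain ⟨c, u, hu, h1⟩ := hsurj x
    have hu0 : (u : K) ≠ 0 := fun h => hu ((CharP.cast_eq_zero_iff K p u).1 h)
    refine ⟨fun j => (u : ZMod p)⁻¹ * (c j : ZMod p), ?_⟩
    have h2 : ∀ j, φ ((u : ZMod p)⁻¹ * (c j : ZMod p)) * e j = (u : K)⁻¹ * ((c j : K) * e j) := by
      intro j
      rw [map_mul, map_inv₀, map_natCast, map_intCast, mul_assoc]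
    simp only [h2]
    rw [← Finset.mul_sum, ← h1, inv_mul_cancel_left₀ hu0]
  have : Finite (Fin D → ZMod p) := inferInstance
  refine ⟨Finite.of_surjective _ hs, (Nat.card_le_card_of_surjective _ hs).trans (le_of_eq ?_)⟩
  rw [Nat.card_fun, Nat.card_zmod, Nat.card_fin]

section base
variable {r ℓ D : ℕ} {R : Type} [CommRing R] [IsDomain R] [Algebra (MvPolynomial (Fin r) ℤ) R]

/-- P5. A local ring above a prime number that does not divide `ℓ`. -/
theorem exists_local (hB : IsBase r ℓ D R) (p : ℕ) (hp : p.Prime) (hpl : ¬ p ∣ ℓ)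
    (z : Fin r → ℤ) {L : Type} [Field L] [CharZero L] (y : R →+* L) (hy : IsSpec z y) :
    ∃ (O : Type) (_ : CommRing O) (_ : IsDomain O) (_ : IsLocalRing O) (_ : IsNoetherianRing O)
      (ρ : R →+* O), (∀ x, ρ x = 0 ↔ y x = 0) ∧ (p : O) ∈ IsLocalRing.maximalIdeal O ∧
      Finite (IsLocalRing.ResidueField O) ∧ Nat.card (IsLocalRing.ResidueField O) ≤ p ^ D := by
  classical
  have := hB.noeth
  -- the image of `y`
  have hN : IsNoetherianRing y.range :=
    isNoetherianRing_of_surjective R y.range y.rangeRestrict y.rangeRestrict_surjective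
  have hyc : ∀ c : MvPolynomial (Fin r) ℤ,
      y.rangeRestrict (algebraMap (MvPolynomial (Fin r) ℤ) R c) = ((eval z c : ℤ) : y.range) := by
    intro c
    apply Subtype.ext
    rw [RingHom.coe_rangeRestrict, hy c]
    rfl
  -- `p` is not a unit
  have hnu : ¬ IsUnit (p : y.range) := by
    intro h
    obtain ⟨w, hw⟩ := h.exists_right_inv
    obtain ⟨w, rfl⟩ := y.rangeRestrict_surjective w
    have h1 : (p : L) * y w = 1 := by
      have h2 := congrArg Subtype.val hw
      simpa using h2
    obtain ⟨m, q, hq, hq0⟩ := hB.int w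
    refine not_integral (m := m) hp hpl (x := (ℓ : L) ^ m * y w) ?_ ⟨q.map (eval z), hq.map _, ?_⟩
    · calc (p : L) * ((ℓ : L) ^ m * y w) = (ℓ : L) ^ m * ((p : L) * y w) := by ring
        _ = _ := by rw [h1, mul_one]
    · have h3 : (algebraMap ℤ L).comp (eval z) =
          y.comp (algebraMap (MvPolynomial (Fin r) ℤ) R) := by
        apply RingHom.ext
        intro c
        rw [RingHom.comp_apply, RingHom.comp_apply, hy c]
        rfl
      rw [Polynomial.eval₂_map, h3]
      have h4 := congrArg y hq0
      rw [map_zero, Polynomial.hom_eval₂, map_mul, map_pow, map_natCast] at h4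
      exact h4
  have hne : Ideal.span {(p : y.range)} ≠ ⊤ := by
    rwa [Ne, Ideal.span_singleton_eq_top]
  obtain ⟨P, hP, hpP⟩ := Ideal.exists_le_maximal _ hne
  have hpP' : (p : y.range) ∈ P := hpP (Ideal.mem_span_singleton_self _)
  have := hP
  have hPp : P.IsPrime := hP.isPrime
  have hle : P.primeCompl ≤ nonZeroDivisors y.range := P.primeCompl_le_nonZeroDivisors
  have hinj : Function.Injective (algebraMap y.range (Localization.AtPrime P)) :=
    IsLocalization.injective _ hle
  have hmem : (p : Localization.AtPrime P) ∈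
      IsLocalRing.maximalIdeal (Localization.AtPrime P) := by
    have h1 := (IsLocalization.AtPrime.to_map_mem_maximal_iff (Localization.AtPrime P) P
      (p : y.range)).2 hpP'
    rwa [map_natCast] at h1
  obtain ⟨e, he⟩ := hB.gen
  let θ : R →+* IsLocalRing.ResidueField (Localization.AtPrime P) :=
    (IsLocalRing.residue (Localization.AtPrime P)).comp
      ((algebraMap y.range (Localization.AtPrime P)).comp y.rangeRestrict)
  have hθc : ∀ c : MvPolynomial (Fin r) ℤ, θ (algebraMap (MvPolynomial (Fin r) ℤ) R c) =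
      ((eval z c : ℤ) : IsLocalRing.ResidueField (Localization.AtPrime P)) := by
    intro c
    change (IsLocalRing.residue (Localization.AtPrime P))
      ((algebraMap y.range (Localization.AtPrime P)) (y.rangeRestrict _)) = _
    rw [hyc c, map_intCast, map_intCast]
  have hθs : Function.Surjective θ := by
    have h1 : Function.Surjective (algebraMap y.range P.ResidueField) :=
      Ideal.algebraMap_residueField_surjective P
    intro x
    obtain ⟨a, ha⟩ := h1 x
    obtain ⟨b, rfl⟩ := y.rangeRestrict_surjective a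
    exact ⟨b, ha⟩
  have hp0 : (p : IsLocalRing.ResidueField (Localization.AtPrime P)) = 0 := by
    have h1 := (IsLocalRing.residue_eq_zero_iff _).2 hmem
    rwa [map_natCast] at h1
  have hcard := card_residue (D := D) hp hp0 (fun j => θ (e j)) (by
    intro x
    obtain ⟨x, rfl⟩ := hθs x
    obtain ⟨m, c, hmc⟩ := he x
    refine ⟨fun j => eval z (c j), ℓ ^ m, fun h => hpl (hp.dvd_of_dvd_pow h), ?_⟩
    have h1 := congrArg θ hmc
    rw [map_mul, map_pow, map_natCast, map_sum] at h1
    rw [Nat.cast_pow, h1]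
    refine Finset.sum_congr rfl fun j _ => ?_
    rw [map_mul, hθc])
  refine ⟨Localization.AtPrime P, inferInstance, IsLocalization.isDomain_localization hle,
    inferInstance, IsLocalization.isNoetherianRing P.primeCompl _ hN,
    (algebraMap y.range (Localization.AtPrime P)).comp y.rangeRestrict, fun x => ?_, hmem,
    hcard.1, hcard.2⟩
  rw [RingHom.comp_apply]
  constructor
  · intro h
    have h1 : y.rangeRestrict x = 0 := hinj (by rw [h, map_zero])
    have h2 := congrArg Subtype.val h1
    simpa using h2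
  · intro h
    have h1 : y.rangeRestrict x = 0 := Subtype.ext (by rw [RingHom.coe_rangeRestrict, h]; rfl)
    rw [h1, map_zero]

end base

end Pool.Agent.Helper58.IC
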