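import Pool.Agent.Helper58.IC.ProjP
import Pool.Agent.Helper58.IC.Local

/-!
# Uniform bound for the periods

PROOF of P6. Choose two different primes `p, p'` which do not divide `ℓ`, and
`B₀ = E0 N (p ^ D) * E0 N (p' ^ D)`. Let `y`, `q`, `k`, `c` be given. Taking `i = i₀`:
`c = y (eval q (iterR h k i₀))`, so `y (eval q (iterR h k i) - eval q (iterR h k i₀) * q i) = 0`.
With `O`, `ρ` from `exists_local` for `p` the same holds for `ρ`, so `proj_period_local` applies to
`map ρ (h i)` and `ρ (q i)` (iterates commute with `map ρ`), and we get `e` with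
`h ^ (E0 N (p ^ D) p ^ e) (q) ~ q` under `ρ`, hence under `y`. Similarly for `p'`, `e'`. The set `𝒫` of
the `n` such that `y (h ^ n (q))` is a multiple of `y (q)` has the properties: `m, n ∈ 𝒫 → m + n ∈ 𝒫`,
and `m, m + n ∈ 𝒫 → n ∈ 𝒫` (homogeneity; the factors are nonzero because of `Cert` and
`y (q i₀) = 1`), so it is closed under `gcd` and multiples. `B₀ p ^ e` and `B₀ p' ^ e'` are in `𝒫` and
their `gcd` is `B₀`.
-/

set_option autoImplicit false

namespace Pool.Agent.Helper58.IC

open MvPolynomial Filter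
open Pool.Agent.Helper65.RP (MultLT orb iter van)

section priv

variable {R S : Type} [CommRing R] [CommRing S] {N : ℕ}

private lemma eval_bindP (g : Fin N → MvPolynomial (Fin N) R) (p : MvPolynomial (Fin N) R)
    (x : Fin N → R) : eval x (bind₁ g p) = eval (fun i => eval x (g i)) p := by
  induction p using MvPolynomial.induction_on with
  | C a => simp
  | add p q hp hq => simp only [map_add, hp, hq]
  | mul_X p i hp => simp only [map_mul, hp, bind₁_X_right, eval_X]

/-- The map on vectors given by the tuple `f`. -/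
private noncomputable def FF (f : Fin N → MvPolynomial (Fin N) R) :
    (Fin N → R) → (Fin N → R) := fun x i => eval x (f i)

private lemma eval_iterP (f : Fin N → MvPolynomial (Fin N) R) (n : ℕ) (x : Fin N → R) :
    (fun i => eval x (iterR f n i)) = (FF f)^[n] x := by
  induction n with
  | zero => funext i; simp [iterR]
  | succ n ih =>
    rw [Function.iterate_succ_apply', ← ih]
    funext i
    simp only [iterR, FF]
    rw [eval_bindP]

private lemma eval_iterP' (f : Fin N → MvPolynomial (Fin N) R) (n : ℕ) (x : Fin N → R)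
    (i : Fin N) : eval x (iterR f n i) = (FF f)^[n] x i :=
  congrFun (eval_iterP f n x) i

private lemma map_evalP (φ : R →+* S) (x : Fin N → R) (p : MvPolynomial (Fin N) R) :
    φ (eval x p) = eval (fun i => φ (x i)) (map φ p) := by
  induction p using MvPolynomial.induction_on with
  | C a => simp
  | add p q hp hq => simp only [map_add, hp, hq]
  | mul_X p i hp => simp only [map_mul, hp, map_X, eval_X]

private lemma map_FF (φ : R →+* S) (f : Fin N → MvPolynomial (Fin N) R) (x : Fin N → R) :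
    (fun i => φ (FF f x i)) = FF (mapT φ f) (fun i => φ (x i)) := by
  funext i
  exact map_evalP φ x (f i)

private lemma map_FF_iter (φ : R →+* S) (f : Fin N → MvPolynomial (Fin N) R) (n : ℕ)
    (x : Fin N → R) :
    (fun i => φ ((FF f)^[n] x i)) = (FF (mapT φ f))^[n] (fun i => φ (x i)) := by
  induction n with
  | zero => rfl
  | succ n ih =>
    rw [Function.iterate_succ_apply', Function.iterate_succ_apply', map_FF, ih]

private lemma map_iterP (φ : R →+* S) (f : Fin N → MvPolynomial (Fin N) R) (n : ℕ)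
    (x : Fin N → R) (i : Fin N) :
    φ (eval x (iterR f n i)) = eval (fun j => φ (x j)) (iterR (mapT φ f) n i) := by
  rw [eval_iterP', eval_iterP']
  exact congrFun (map_FF_iter φ f n x) i

private lemma cert_mapP (φ : R →+* S) {h : Fin N → MvPolynomial (Fin N) R} (hc : Cert h) :
    Cert (mapT φ h) := by
  obtain ⟨M, A, hM, hA⟩ := hc
  refine ⟨M, fun i j => MvPolynomial.map φ (A i j), hM, fun i => ?_⟩
  have h1 := congrArg (MvPolynomial.map φ) (hA i)
  rw [map_pow, map_X, map_sum] at h1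
  rw [h1]
  refine Finset.sum_congr rfl fun j _ => ?_
  rw [map_mul]
  rfl

private lemma eval_smulP {d : ℕ} {p : MvPolynomial (Fin N) R} (hp : p.IsHomogeneous d) (c : R)
    (x : Fin N → R) : eval (c • x) p = c ^ d * eval x p := by
  rw [eval_eq, eval_eq, Finset.mul_sum]
  refine Finset.sum_congr rfl fun m hm => ?_
  have hdeg : ∑ i ∈ m.support, m i = d := by
    have h1 := hp (mem_support_iff.1 hm)
    rw [Finsupp.weight_apply] at h1
    simpa [Finsupp.sum] using h1
  simp only [Pi.smul_apply, smul_eq_mul, mul_pow, Finset.prod_mul_distrib,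
    Finset.prod_pow_eq_pow_sum]
  rw [hdeg]
  ring

end priv

section fld

variable {L : Type} [Field L] {N : ℕ}

private lemma FF_smul {d : ℕ} {g : Fin N → MvPolynomial (Fin N) L}
    (hg : ∀ i, (g i).IsHomogeneous d) (c : L) (x : Fin N → L) :
    FF g (c • x) = c ^ d • FF g x := by
  funext i
  exact eval_smulP (hg i) c x

private lemma FF_ne {g : Fin N → MvPolynomial (Fin N) L} (hc : Cert g) {x : Fin N → L}
    (hx : x ≠ 0) : FF g x ≠ 0 := by
  intro h0
  obtain ⟨M, A, hM, hA⟩ := hc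
  apply hx
  funext i
  have h1 := congrArg (eval x) (hA i)
  rw [map_pow, eval_X, map_sum] at h1
  have h2 : ∑ j, eval x (A i j * g j) = 0 := by
    refine Finset.sum_eq_zero fun j _ => ?_
    have h3 : eval x (g j) = 0 := congrFun h0 j
    rw [map_mul, h3, mul_zero]
  rw [h2] at h1
  exact pow_eq_zero_iff (by omega) |>.1 h1

private lemma FF_iter_smul {d : ℕ} {g : Fin N → MvPolynomial (Fin N) L}
    (hg : ∀ i, (g i).IsHomogeneous d) (n : ℕ) (c : L) (x : Fin N → L) :
    (FF g)^[n] (c • x) = c ^ (d ^ n) • (FF g)^[n] x := by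
  induction n with
  | zero => simp
  | succ n ih =>
    rw [Function.iterate_succ_apply', Function.iterate_succ_apply', ih, FF_smul hg, ← pow_mul,
      pow_succ]

private lemma FF_iter_ne {g : Fin N → MvPolynomial (Fin N) L} (hc : Cert g) (n : ℕ)
    {x : Fin N → L} (hx : x ≠ 0) : (FF g)^[n] x ≠ 0 := by
  induction n with
  | zero => exact hx
  | succ n ih =>
    rw [Function.iterate_succ_apply']
    exact FF_ne hc ih

/-- The set of the exponents `n` such that the `n`-th iterate fixes the class of `v`. -/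
private def PP (g : Fin N → MvPolynomial (Fin N) L) (v : Fin N → L) (n : ℕ) : Prop :=
  ∃ c : L, (FF g)^[n] v = c • v

private lemma PP_zero (g : Fin N → MvPolynomial (Fin N) L) (v : Fin N → L) : PP g v 0 :=
  ⟨1, by simp⟩

private lemma PP_add {d : ℕ} {g : Fin N → MvPolynomial (Fin N) L}
    (hg : ∀ i, (g i).IsHomogeneous d) {v : Fin N → L} {m n : ℕ} (hm : PP g v m)
    (hn : PP g v n) : PP g v (m + n) := by
  obtain ⟨a, ha⟩ := hm
  obtain ⟨b, hb⟩ := hn
  refine ⟨b ^ (d ^ m) * a, ?_⟩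
  rw [Function.iterate_add_apply, hb, FF_iter_smul hg, ha, smul_smul]

private lemma PP_sub {d : ℕ} {g : Fin N → MvPolynomial (Fin N) L}
    (hg : ∀ i, (g i).IsHomogeneous d) (hc : Cert g) {v : Fin N → L} (hv : v ≠ 0) {m n : ℕ}
    (hm : PP g v m) (hn : PP g v (n + m)) : PP g v n := by
  obtain ⟨a, ha⟩ := hm
  obtain ⟨b, hb⟩ := hn
  have ha0 : a ≠ 0 := by
    intro h0
    rw [h0, zero_smul] at ha
    exact FF_iter_ne hc m hv ha
  rw [Function.iterate_add_apply, ha, FF_iter_smul hg] at hb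
  have hp0 : a ^ (d ^ n) ≠ 0 := pow_ne_zero _ ha0
  refine ⟨(a ^ (d ^ n))⁻¹ * b, ?_⟩
  rw [← smul_smul, ← hb, smul_smul, inv_mul_cancel₀ hp0, one_smul]

private lemma PP_mul {d : ℕ} {g : Fin N → MvPolynomial (Fin N) L}
    (hg : ∀ i, (g i).IsHomogeneous d) {v : Fin N → L} {m : ℕ} (hm : PP g v m) (t : ℕ) :
    PP g v (m * t) := by
  induction t with
  | zero => rw [mul_zero]; exact PP_zero g v
  | succ t ih => rw [mul_add, mul_one]; exact PP_add hg ih hm

private lemma PP_gcd {d : ℕ} {g : Fin N → MvPolynomial (Fin N) L}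
    (hg : ∀ i, (g i).IsHomogeneous d) (hc : Cert g) {v : Fin N → L} (hv : v ≠ 0) (m n : ℕ) :
    PP g v m → PP g v n → PP g v (Nat.gcd m n) := by
  induction m, n using Nat.gcd.induction with
  | H0 n =>
    intro _ hn
    rwa [Nat.gcd_zero_left]
  | H1 m n hpos ih =>
    intro hm hn
    rw [Nat.gcd_rec]
    refine ih ?_ hm
    have h1 : PP g v (m * (n / m)) := PP_mul hg hm _
    refine PP_sub hg hc hv h1 ?_
    rwa [Nat.mod_add_div]

end fld

section base
variable {r ℓ D : ℕ} {R : Type} [CommRing R] [IsDomain R] [Algebra (MvPolynomial (Fin r) ℤ) R]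

private lemma core_period (hB : IsBase r ℓ D R) {N d : ℕ} (hd : 1 ≤ d)
    (h : Fin N → MvPolynomial (Fin N) R) (hh : ∀ i, (h i).IsHomogeneous d) (hc : Cert h)
    (p : ℕ) (hp : p.Prime) (hpl : ¬ p ∣ ℓ) (L : Type) [Field L] [CharZero L] (z : Fin r → ℤ)
    (y : R →+* L) (hy : IsSpec z y) (q : Fin N → R) (i₀ : Fin N) (hq : q i₀ = 1) (k : ℕ) (c : L)
    (hk : 1 ≤ k) (hper : ∀ i, y (eval q (iterR h k i)) = c * y (q i)) :
    ∃ (e : ℕ) (c : L), ∀ i, y (eval q (iterR h (E0 N (p ^ D) * p ^ e) i)) = c * y (q i) := by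
  obtain ⟨O, _, _, _, _, ρ, hρ, hpm, hfin, hcard⟩ := exists_local hB p hp hpl z y hy
  have hc0 : c = y (eval q (iterR h k i₀)) := by
    rw [hper i₀, hq, map_one, mul_one]
  have h1 : ∀ i, ρ (eval q (iterR h k i)) = ρ (eval q (iterR h k i₀)) * ρ (q i) := by
    intro i
    have h2 : y (eval q (iterR h k i) - eval q (iterR h k i₀) * q i) = 0 := by
      rw [map_sub, map_mul, hper i, ← hc0, sub_self]
    have h3 := (hρ _).2 h2
    rw [map_sub, map_mul, sub_eq_zero] at h3
    exact h3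
  obtain ⟨e, c', hc'⟩ := proj_period_local p hp hpm (p ^ D) hfin hcard hd (mapT ρ h)
    (fun i => (hh i).map ρ) (cert_mapP ρ hc) (fun j => ρ (q j)) i₀
    (by simp only [hq, map_one]) k hk (ρ (eval q (iterR h k i₀)))
    (fun i => by rw [← map_iterP]; exact h1 i)
  refine ⟨e, y (eval q (iterR h (E0 N (p ^ D) * p ^ e) i₀)), fun i => ?_⟩
  have hc2 : c' = ρ (eval q (iterR h (E0 N (p ^ D) * p ^ e) i₀)) := by
    rw [map_iterP, hc' i₀]
    simp only [hq, map_one, mul_one]
  have h4 : ρ (eval q (iterR h (E0 N (p ^ D) * p ^ e) i) -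
      eval q (iterR h (E0 N (p ^ D) * p ^ e) i₀) * q i) = 0 := by
    rw [map_sub, map_mul, ← hc2, map_iterP, hc' i, sub_self]
  have h5 := (hρ _).1 h4
  rw [map_sub, map_mul, sub_eq_zero] at h5
  exact h5

/-- P6. Uniform bound for the periods of the specialisations of a map without common zeros. -/
theorem period_bound (hB : IsBase r ℓ D R) {N d : ℕ} (hd : 1 ≤ d)
    (h : Fin N → MvPolynomial (Fin N) R) (hh : ∀ i, (h i).IsHomogeneous d) (hc : Cert h) :
    ∃ B₀ : ℕ, 1 ≤ B₀ ∧ ∀ (L : Type) [Field L] [CharZero L] (z : Fin r → ℤ) (y : R →+* L),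
      IsSpec z y → ∀ (q : Fin N → R) (i₀ : Fin N), q i₀ = 1 → ∀ (k : ℕ) (c : L), 1 ≤ k →
      (∀ i, y (eval q (iterR h k i)) = c * y (q i)) →
      ∃ c : L, ∀ i, y (eval q (iterR h B₀ i)) = c * y (q i) := by
  obtain ⟨p, hpl, hp⟩ := Nat.exists_infinite_primes (ℓ + 1)
  obtain ⟨p', hpl', hp'⟩ := Nat.exists_infinite_primes (p + 1)
  have hl : 0 < ℓ := Nat.pos_of_ne_zero hB.pos
  have hnd : ¬ p ∣ ℓ := fun hdv => by
    have := Nat.le_of_dvd hl hdv
    omega
  have hnd' : ¬ p' ∣ ℓ := fun hdv => by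
    have := Nat.le_of_dvd hl hdv
    omega
  have hE : ∀ Q : ℕ, 0 < E0 N Q := fun Q => Nat.mul_pos (Nat.factorial_pos _) (Nat.factorial_pos _)
  refine ⟨E0 N (p ^ D) * E0 N (p' ^ D), Nat.mul_pos (hE _) (hE _), ?_⟩
  intro L _ _ z y hy q i₀ hq k c hk hper
  obtain ⟨e, c1, h1⟩ := core_period hB hd h hh hc p hp hnd L z y hy q i₀ hq k c hk hper
  obtain ⟨e', c2, h2⟩ := core_period hB hd h hh hc p' hp' hnd' L z y hy q i₀ hq k c hk hper
  have hv : (fun j => y (q j)) ≠ 0 := by
    intro h0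
    have h3 := congrFun h0 i₀
    simp only [hq, map_one, Pi.zero_apply] at h3
    exact one_ne_zero h3
  have hg : ∀ i, (mapT y h i).IsHomogeneous d := fun i => (hh i).map y
  have hcy : Cert (mapT y h) := cert_mapP y hc
  have key : ∀ n : ℕ, PP (mapT y h) (fun j => y (q j)) n ↔
      ∃ c : L, ∀ i, y (eval q (iterR h n i)) = c * y (q i) := by
    intro n
    constructor
    · rintro ⟨a, ha⟩
      refine ⟨a, fun i => ?_⟩
      rw [map_iterP, eval_iterP']
      exact congrFun ha i
    · rintro ⟨a, ha⟩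
      refine ⟨a, ?_⟩
      funext i
      rw [← eval_iterP', ← map_iterP]
      exact ha i
  have g1 : PP (mapT y h) (fun j => y (q j)) (E0 N (p ^ D) * p ^ e * E0 N (p' ^ D)) :=
    PP_mul hg ((key _).2 ⟨c1, h1⟩) _
  have g2 : PP (mapT y h) (fun j => y (q j)) (E0 N (p' ^ D) * p' ^ e' * E0 N (p ^ D)) :=
    PP_mul hg ((key _).2 ⟨c2, h2⟩) _
  have g3 := PP_gcd hg hcy hv _ _ g1 g2
  have hpp : p ≠ p' := by omega
  have hcop : Nat.gcd (p ^ e) (p' ^ e') = 1 :=
    Nat.Coprime.pow e e' ((Nat.coprime_primes hp hp').2 hpp)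
  have hgcd : Nat.gcd (E0 N (p ^ D) * p ^ e * E0 N (p' ^ D))
      (E0 N (p' ^ D) * p' ^ e' * E0 N (p ^ D)) = E0 N (p ^ D) * E0 N (p' ^ D) := by
    have e1 : E0 N (p ^ D) * p ^ e * E0 N (p' ^ D) = E0 N (p ^ D) * E0 N (p' ^ D) * p ^ e := by
      ring
    have e2 : E0 N (p' ^ D) * p' ^ e' * E0 N (p ^ D) =
        E0 N (p ^ D) * E0 N (p' ^ D) * p' ^ e' := by ring
    rw [e1, e2, Nat.gcd_mul_left, hcop, mul_one]
  rw [hgcd] at g3
  exact (key _).1 g3

end base

end Pool.Agent.Helper58.IC
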