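import Pool.Agent.Helper58.IC.Generic
import Pool.Agent.Helper58.IC.Period
import Pool.Agent.Helper76.RP.Iter
import Pool.Agent.Helper47.RP.MultSlice

/-!
# The core: invariance over the field of fractions of a base ring
-/

set_option autoImplicit false

namespace Pool.Agent.Helper58.IC

open MvPolynomial Filter
open Pool.Agent.Helper65.RP (orb iter van Regular lead)

/-- The properties of a local condition which the proof needs. -/
structure Good (Pr : ∀ (K Kb : Type) [Field K] [Field Kb] [Algebra K Kb] (N : ℕ),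
    (Fin N → MvPolynomial (Fin N) K) → (Fin N → Kb) → ℕ → Prop) : Prop where
  spread : ∀ (R K : Type) [CommRing R] [IsDomain R] [Field K] [Algebra R K] [IsFractionRing R K]
    (N e : ℕ) (H : Fin N → MvPolynomial (Fin N) R) (q : Fin N → R), 1 ≤ e →
    Pr K K N (mapT (algebraMap R K) H) (fun i => algebraMap R K (q i)) e →
    ∃ g : R, g ≠ 0 ∧ ∀ (L Lb : Type) [Field L] [Field Lb] [Algebra L Lb] (y : R →+* L), y g ≠ 0 →
      Pr L Lb N (mapT y H) (fun i => algebraMap L Lb (y (q i))) e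
  smul : ∀ (K Kb : Type) [Field K] [Field Kb] [Algebra K Kb] (N e d : ℕ)
    (H : Fin N → MvPolynomial (Fin N) K), (∀ i, (H i).IsHomogeneous d) → ∀ (q : Fin N → Kb)
    (c : Kb), c ≠ 0 → Pr K Kb N H q e → Pr K Kb N H (fun i => c * q i) e
  desc : ∀ (K E : Type) [Field K] [Field E] [Algebra K E] (N e : ℕ)
    (H : Fin N → MvPolynomial (Fin N) K) (q : Fin N → K), 1 ≤ e →
    Pr E E N (mapT (algebraMap K E) H) (fun i => algebraMap K E (q i)) e → Pr K K N H q e
  key : ∀ (N d : ℕ), 2 ≤ d → ∀ (k₀ δ l : ℕ), 1 ≤ k₀ → l ≠ 0 →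
    ∃ k₁ : ℕ, 1 ≤ k₁ ∧ ∀ (K Kb : Type) [Field K] [NumberField K] [Field Kb] [Algebra K Kb]
      [IsAlgClosure K Kb] (f : Fin N → MvPolynomial (Fin N) K)
      (S : Set (MvPolynomial (Fin N) K)) (a : Fin N → K) (𝒰 : Ultrafilter ℕ),
      Module.finrank ℚ K ≤ δ → Regular Kb d f →
      ringKrullDim (MvPolynomial (Fin N) K ⧸ Ideal.span S) ≤ 1 →
      (∀ i m, ∃ n : ℕ, IsIntegral ℤ ((l : K) ^ n * (f i).coeff m)) →
      (∀ i, ∃ n : ℕ, IsIntegral ℤ ((l : K) ^ n * a i)) →
      (∀ y : Fin N → Kb, y ≠ 0 →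
        (∀ F ∈ Ideal.span S, aeval y (homogeneousComponent F.totalDegree F) = 0) →
        (∃ (k : ℕ) (c : Kb), 1 ≤ k ∧ ∀ i, aeval y (iter (lead d f) k i) = c * y i) →
        (∃ c : Kb, ∀ i, aeval y (iter (lead d f) k₀ i) = c * y i) ∧
          Pr K Kb N (iter (lead d f) k₀) y (d ^ k₀)) →
      (Set.range (orb f a)).Infinite → (𝒰 : Filter ℕ) ≤ atTop →
      (∀ᶠ n in (𝒰 : Filter ℕ), ∀ F ∈ S, eval (orb f a n) F = 0) →
      ∀ P ∈ van 𝒰 (orb f a), bind₁ (iter f k₁) P ∈ van 𝒰 (orb f a)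

lemma iterR_hom {R : Type} [CommRing R] {N d : ℕ} {h : Fin N → MvPolynomial (Fin N) R}
    (hh : ∀ i, (h i).IsHomogeneous d) (k : ℕ) (i : Fin N) :
    (iterR h k i).IsHomogeneous (d ^ k) := by
  induction k generalizing i with
  | zero => rw [pow_zero]; exact isHomogeneous_X _ _
  | succ k ih =>
    have h1 := (hh i).aeval (iterR h k) ih
    rw [← pow_succ] at h1
    exact h1

lemma iter_hom {K : Type} [Field K] {N d : ℕ} {h : Fin N → MvPolynomial (Fin N) K}
    (hh : ∀ i, (h i).IsHomogeneous d) (k : ℕ) (i : Fin N) :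
    (iter h k i).IsHomogeneous (d ^ k) := by
  induction k generalizing i with
  | zero => rw [pow_zero]; exact isHomogeneous_X _ _
  | succ k ih =>
    have h1 := (hh i).aeval (iter h k) ih
    rw [← pow_succ] at h1
    exact h1

lemma lead_mapT {R L : Type} [CommRing R] [Field L] {N : ℕ} (y : R →+* L) (d : ℕ)
    (f : Fin N → MvPolynomial (Fin N) R) : lead d (mapT y f) = mapT y (leadR d f) := by
  funext i
  exact hc_map y d (f i)

lemma iter_mapT' {R L : Type} [CommRing R] [Field L] {N : ℕ} (y : R →+* L)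
    (f : Fin N → MvPolynomial (Fin N) R) (k : ℕ) : iter (mapT y f) k = mapT y (iterR f k) := by
  funext i
  exact iter_mapT y f k i

lemma eval_map' {R L : Type} [CommRing R] [CommRing L] {σ : Type} (y : R →+* L) (b : σ → R)
    (p : MvPolynomial σ R) : eval (fun i => y (b i)) (MvPolynomial.map y p) = y (eval b p) := by
  rw [eval_map]
  have h3 := eval₂_comp_left y (RingHom.id R) b p
  rw [RingHom.comp_id] at h3
  exact h3.symm

/-- A point fixed by an iterate is fixed by its multiples. -/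
lemma fix_mul {L : Type} [Field L] {N d : ℕ} {h : Fin N → MvPolynomial (Fin N) L}
    (hh : ∀ i, (h i).IsHomogeneous d) {q : Fin N → L} {k : ℕ}
    (hk : ∃ c : L, ∀ i, eval q (iter h k i) = c * q i) (t : ℕ) :
    ∃ c : L, ∀ i, eval q (iter h (k * t) i) = c * q i := by
  obtain ⟨c, hc⟩ := hk
  induction t with
  | zero => exact ⟨1, fun i => by rw [mul_zero, iter, eval_X, one_mul]⟩
  | succ t ih =>
    obtain ⟨u, hu⟩ := ih
    refine ⟨u ^ d ^ k * c, fun i => ?_⟩
    have h1 : eval q (iter h (k * t + k) i) = eval (orb h q (k * t)) (iter h k i) := by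
      rw [← Pool.Agent.Helper76.RP.orb_add, Pool.Agent.Helper76.RP.eval_iter, orb]
    have h2 : orb h q (k * t) = fun j => u * q j := by
      funext j
      rw [← hu j, Pool.Agent.Helper76.RP.eval_iter, orb]
    rw [mul_add, mul_one, h1, h2]
    have h3 := Pool.Agent.Helper47.RP.aeval_mul_hom (iter_hom hh k i) u q
    rw [aeval_eq_eval] at h3
    rw [mul_assoc, ← hc i]
    exact h3

section base
variable {r ℓ D : ℕ} {R : Type} [CommRing R] [IsDomain R] [Algebra (MvPolynomial (Fin r) ℤ) R]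

omit [IsDomain R] in
lemma spec_integral (hB : IsBase r ℓ D R) {z : Fin r → ℤ} {L : Type} [Field L] {y : R →+* L}
    (hy : IsSpec z y) (x : R) : ∃ n : ℕ, IsIntegral ℤ ((ℓ : L) ^ n * y x) := by
  obtain ⟨m, hm⟩ := hB.int x
  refine ⟨m, ?_⟩
  have h1 := hm.map_of_comp_eq (eval z : MvPolynomial (Fin r) ℤ →+* ℤ) y (by
    ext p
    · simp
    · have h2 := hy (X p)
      simp only [RingHom.comp_apply]
      rw [h2]
      simp)
  rw [map_mul, map_pow, map_natCast] at h1
  exact h1

omit [IsDomain R] in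
lemma IsSpec.comp {z : Fin r → ℤ} {L Lb : Type} [Field L] [Field Lb] [Algebra L Lb] {y : R →+* L}
    (hy : IsSpec z y) : IsSpec z ((algebraMap L Lb).comp y) := by
  intro p
  rw [RingHom.comp_apply, hy p, map_intCast]

/-- The core theorem. -/
theorem core {Pr : ∀ (K Kb : Type) [Field K] [Field Kb] [Algebra K Kb] (N : ℕ),
      (Fin N → MvPolynomial (Fin N) K) → (Fin N → Kb) → ℕ → Prop} (G : Good Pr)
    (hB : IsBase r ℓ D R) {K : Type} [Field K] [Algebra R K] [IsFractionRing R K] {N d : ℕ}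
    (hd : 2 ≤ d) (f : Fin N → MvPolynomial (Fin N) R) (hf : ∀ i, (f i).totalDegree ≤ d)
    (hc : Cert (leadR d f)) (S : Set (MvPolynomial (Fin N) R))
    (hdimK : ringKrullDim (MvPolynomial (Fin N) K ⧸
      Ideal.span (MvPolynomial.map (algebraMap R K) '' S)) ≤ 1)
    (hdimL : ∀ (L : IntermediateField ℚ ℂ) (y : R →+* L),
      ringKrullDim (MvPolynomial (Fin N) L ⧸ Ideal.span (MvPolynomial.map y '' S)) ≤ 1)
    (B : Finset (Fin N → R)) (hB1 : ∀ b ∈ B, ∃ i, b i = 1)
    (hB2 : ∀ (Lb : Type) [Field Lb] (y : R →+* Lb) (x : Fin N → Lb), x ≠ 0 →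
      (∀ F ∈ S, eval x (homogeneousComponent (MvPolynomial.map y F).totalDegree
        (MvPolynomial.map y F)) = 0) → ∃ b ∈ B, ∃ c : Lb, ∀ i, x i = c * y (b i))
    (hM : ∀ b ∈ B, ∀ (k : ℕ) (c : K), 1 ≤ k →
      (∀ i, algebraMap R K (eval b (iterR (leadR d f) k i)) = c * algebraMap R K (b i)) →
      ∃ m, 1 ≤ m ∧ ∀ t, 1 ≤ t → m ∣ t →
        Pr K K N (mapT (algebraMap R K) (iterR (leadR d f) t)) (fun i => algebraMap R K (b i))
          (d ^ t))
    (a : Fin N → R) (hinf : (Set.range (orbR f a)).Infinite)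
    (𝒰 : Ultrafilter ℕ) (h𝒰 : (𝒰 : Filter ℕ) ≤ atTop)
    (hS : ∀ᶠ n in (𝒰 : Filter ℕ), ∀ F ∈ S, eval (orbR f a n) F = 0) :
    ∃ k₁, 1 ≤ k₁ ∧
      ∀ P ∈ van 𝒰 (orb (mapT (algebraMap R K) f) (fun i => algebraMap R K (a i))),
        bind₁ (iter (mapT (algebraMap R K) f) k₁) P ∈
          van 𝒰 (orb (mapT (algebraMap R K) f) (fun i => algebraMap R K (a i))) := by
  classical
  have hinj : Function.Injective (algebraMap R K) := IsFractionRing.injective R K
  set h := leadR d f with hh'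
  have hh : ∀ i, (h i).IsHomogeneous d := fun i => homogeneousComponent_isHomogeneous d (f i)
  obtain ⟨B₀, hB₀, hper⟩ := period_bound hB (by omega : 1 ≤ d) h hh hc
  -- the exponents
  have hm : ∀ b : Fin N → R, ∃ m, 1 ≤ m ∧ (b ∈ B →
      (∃ c : K, ∀ i, algebraMap R K (eval b (iterR h B₀ i)) = c * algebraMap R K (b i)) →
      ∀ t, 1 ≤ t → m ∣ t → Pr K K N (mapT (algebraMap R K) (iterR h t))
        (fun i => algebraMap R K (b i)) (d ^ t)) := by
    intro b
    by_cases hb : b ∈ B ∧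
      ∃ c : K, ∀ i, algebraMap R K (eval b (iterR h B₀ i)) = c * algebraMap R K (b i)
    · obtain ⟨hbB, c, hc⟩ := hb
      obtain ⟨m, hm1, hm2⟩ := hM b hbB B₀ c hB₀ hc
      exact ⟨m, hm1, fun _ _ => hm2⟩
    · exact ⟨1, le_rfl, fun h1 h2 => absurd ⟨h1, h2⟩ hb⟩
  choose m hm1 hm2 using hm
  set k₀ := B₀ * ∏ b ∈ B, m b with hk₀'
  have hk₀ : 1 ≤ k₀ := Nat.mul_pos hB₀ (Finset.prod_pos fun b _ => hm1 b)
  have hmk : ∀ b ∈ B, m b ∣ k₀ := fun b hb => Dvd.dvd.mul_left (Finset.dvd_prod_of_mem m hb) B₀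
  obtain ⟨k₁, hk₁, hkey⟩ := G.key N d hd k₀ D ℓ hk₀ hB.pos
  -- the exceptional elements
  have hg : ∀ b : Fin N → R, ∃ g : R, g ≠ 0 ∧ (b ∈ B →
      ∀ (L Lb : Type) [Field L] [Field Lb] [CharZero Lb] [Algebra L Lb] (z : Fin r → ℤ)
        (y : R →+* L), IsSpec z y → y g ≠ 0 →
        (∃ (k : ℕ) (c : Lb), 1 ≤ k ∧ ∀ i, algebraMap L Lb (y (eval b (iterR h k i))) =
          c * algebraMap L Lb (y (b i))) →
        (∃ c : Lb, ∀ i, algebraMap L Lb (y (eval b (iterR h k₀ i))) =
          c * algebraMap L Lb (y (b i))) ∧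
        Pr L Lb N (mapT y (iterR h k₀)) (fun i => algebraMap L Lb (y (b i))) (d ^ k₀)) := by
    intro b
    by_cases hbB : b ∈ B
    swap
    · exact ⟨1, one_ne_zero, fun h1 => absurd h1 hbB⟩
    obtain ⟨i₀, hi₀⟩ := hB1 b hbB
    have hfix : ∀ (L Lb : Type) [Field L] [Field Lb] [CharZero Lb] [Algebra L Lb] (z : Fin r → ℤ)
        (y : R →+* L), IsSpec z y → (∃ (k : ℕ) (c : Lb), 1 ≤ k ∧ ∀ i,
          algebraMap L Lb (y (eval b (iterR h k i))) = c * algebraMap L Lb (y (b i))) →
        (∃ c : Lb, ∀ i, algebraMap L Lb (y (eval b (iterR h B₀ i))) =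
          c * algebraMap L Lb (y (b i))) := by
      intro L Lb _ _ _ _ z y hy hk
      obtain ⟨k, c, hk, hkc⟩ := hk
      exact hper Lb z ((algebraMap L Lb).comp y) hy.comp b i₀ hi₀ k c hk hkc
    by_cases hbf : ∃ c : K, ∀ i, algebraMap R K (eval b (iterR h B₀ i)) =
        c * algebraMap R K (b i)
    · obtain ⟨g, hg0, hg⟩ := G.spread R K N (d ^ k₀) (iterR h k₀) b
        (Nat.pow_pos (by omega))
        (hm2 b hbB hbf k₀ hk₀ (hmk b hbB))
      refine ⟨g, hg0, fun _ L Lb _ _ _ _ z y hy hyg hk => ⟨?_, hg L Lb y hyg⟩⟩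
      obtain ⟨c, hc⟩ := hfix L Lb z y hy hk
      set φ : R →+* Lb := (algebraMap L Lb).comp y with hφ
      have h1 : ∀ k i, eval (fun i => φ (b i)) (iter (mapT φ h) k i) =
          algebraMap L Lb (y (eval b (iterR h k i))) := by
        intro k i
        rw [iter_mapT, eval_map']
        rfl
      have h2 := fix_mul (h := mapT φ h) (fun i => (hh i).map φ) (q := fun i => φ (b i)) (k := B₀)
        ⟨c, fun i => by rw [h1]; exact hc i⟩ (∏ b ∈ B, m b)
      obtain ⟨u, hu⟩ := h2
      refine ⟨u, fun i => ?_⟩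
      rw [← h1]
      exact hu i
    · have h1 : ∃ i, eval b (iterR h B₀ i) - eval b (iterR h B₀ i₀) * b i ≠ 0 := by
        by_contra hcon
        push Not at hcon
        apply hbf
        refine ⟨algebraMap R K (eval b (iterR h B₀ i₀)), fun i => ?_⟩
        rw [← map_mul, sub_eq_zero.1 (hcon i)]
      obtain ⟨i, hi⟩ := h1
      refine ⟨_, hi, fun _ L Lb _ _ _ _ z y hy hyg hk => ?_⟩
      exfalso
      apply hyg
      obtain ⟨c, hc⟩ := hfix L Lb z y hy hk
      have h2 := hc i₀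
      rw [hi₀, map_one, map_one, mul_one] at h2
      apply (algebraMap L Lb).injective
      rw [map_zero, map_sub, map_sub, map_mul, map_mul, hc i, h2, sub_self]
  choose g hg0 hg using hg
  refine ⟨k₁, hk₁, ?_⟩
  -- the dimension
  have hspan : Ideal.span (MvPolynomial.map (algebraMap R K) '' S) ≤
      van 𝒰 (orb (mapT (algebraMap R K) f) (fun i => algebraMap R K (a i))) := by
    refine Ideal.span_le.2 ?_
    rintro _ ⟨F, hF, rfl⟩
    change ∀ᶠ n in (𝒰 : Filter ℕ), eval (orb (mapT (algebraMap R K) f)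
      (fun i => algebraMap R K (a i)) n) (MvPolynomial.map (algebraMap R K) F) = 0
    filter_upwards [hS] with n hn
    rw [eval_orb_map, hn F hF, map_zero]
  have hdim := (ringKrullDim_le_of_surjective (Ideal.Quotient.factor hspan)
    (Ideal.Quotient.factor_surjective hspan)).trans hdimK
  refine generic_conclusion hB hd f hf hc a hinf 𝒰 h𝒰 hdim k₁ (∏ b ∈ B, g b)
    (Finset.prod_ne_zero_iff.2 fun b _ => hg0 b) ?_
  intro L z y hLf hLD hy hyg hLinf
  haveI := hLf
  haveI : NumberField L := { }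
  rw [map_prod] at hyg
  have hyg' : ∀ b ∈ B, y (g b) ≠ 0 := fun b hb => Finset.prod_ne_zero_iff.1 hyg b hb
  refine hkey L (AlgebraicClosure L) (mapT y f) (MvPolynomial.map y '' S) (fun i => y (a i)) 𝒰 hLD
    ?_ (hdimL L y) ?_ (fun i => spec_integral hB hy (a i)) ?_ hLinf h𝒰 ?_
  · refine ⟨fun i => (Finset.sup_mono (support_map_subset y (f i))).trans (hf i), fun x hx => ?_⟩
    obtain ⟨M, A, hM1, hA⟩ := hc
    funext i
    have h1 := congrArg (fun s => aeval x (MvPolynomial.map y s)) (hA i)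
    simp only [map_pow, map_X, aeval_X, map_sum, map_mul] at h1
    have h2 : ∀ j, aeval x (MvPolynomial.map y (h j)) = 0 := by
      intro j
      have h3 := hx j
      rw [← h3]
      congr 1
      exact (hc_map y d (f j)).symm
    rw [Finset.sum_eq_zero fun j _ => by rw [h2 j, mul_zero]] at h1
    exact pow_eq_zero_iff (by omega) |>.1 h1
  · intro i m
    have h1 := spec_integral hB hy ((f i).coeff m)
    unfold mapT
    rw [coeff_map]
    exact h1
  · intro x hx hxS hk
    set φ : R →+* AlgebraicClosure L := (algebraMap L (AlgebraicClosure L)).comp y with hφ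
    obtain ⟨b, hb, c, hbc⟩ := hB2 (AlgebraicClosure L) φ x hx (by
      intro F hF
      have h1 := hxS _ (Ideal.subset_span ⟨F, hF, rfl⟩)
      have h3 : MvPolynomial.map φ F =
        MvPolynomial.map (algebraMap L (AlgebraicClosure L)) (MvPolynomial.map y F) := by
        rw [MvPolynomial.map_map]
      have h4 : (MvPolynomial.map (algebraMap L (AlgebraicClosure L))
          (MvPolynomial.map y F)).totalDegree = (MvPolynomial.map y F).totalDegree :=
        Finset.sup_congr (support_map_of_injective _ (algebraMap L (AlgebraicClosure L)).injective)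
          fun _ _ => rfl
      rw [h3, h4, hc_map, eval_map, ← aeval_def]
      exact h1)
    have hxe : x = fun i => c * φ (b i) := funext hbc
    have hc0 : c ≠ 0 := by
      rintro rfl
      apply hx
      rw [hxe]
      funext i
      rw [zero_mul]
      rfl
    have hlead : ∀ k, iter (lead d (mapT y f)) k = mapT y (iterR h k) := by
      intro k
      rw [lead_mapT, iter_mapT']
    have hsc : ∀ k i, aeval x (iter (lead d (mapT y f)) k i) =
        c ^ (d ^ k) * algebraMap L (AlgebraicClosure L) (y (eval b (iterR h k i))) := by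
      intro k i
      rw [hlead, hxe]
      have h1 := Pool.Agent.Helper47.RP.aeval_mul_hom (((iterR_hom hh k i).map y)) c
        (fun i => φ (b i))
      unfold mapT
      rw [h1, aeval_def, ← eval_map, MvPolynomial.map_map]
      congr 1
      exact eval_map' φ b _
    have hconv : ∀ k, (∃ u : AlgebraicClosure L, ∀ i,
        aeval x (iter (lead d (mapT y f)) k i) = u * x i) ↔
        ∃ u : AlgebraicClosure L, ∀ i, algebraMap L (AlgebraicClosure L)
          (y (eval b (iterR h k i))) = u * algebraMap L (AlgebraicClosure L) (y (b i)) := by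
      intro k
      have hck : c ^ (d ^ k) ≠ 0 := pow_ne_zero _ hc0
      constructor
      · rintro ⟨u, hu⟩
        refine ⟨u * c / c ^ (d ^ k), fun i => ?_⟩
        have h1 := hu i
        rw [hsc, hbc i] at h1
        rw [div_mul_eq_mul_div, eq_div_iff hck]
        calc _ = c ^ (d ^ k) * algebraMap L (AlgebraicClosure L) (y (eval b (iterR h k i))) := by
              ring
          _ = _ := by rw [h1, hφ, RingHom.comp_apply]; ring
      · rintro ⟨u, hu⟩
        refine ⟨c ^ (d ^ k) * u / c, fun i => ?_⟩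
        rw [hsc, hu i, hbc i, div_mul_eq_mul_div, eq_div_iff hc0, hφ, RingHom.comp_apply]
        ring
    obtain ⟨k, u, hk1, hu⟩ := hk
    obtain ⟨u', hu'⟩ := (hconv k).1 ⟨u, hu⟩
    obtain ⟨h1, h2⟩ := hg b hb L (AlgebraicClosure L) z y hy (hyg' b hb) ⟨k, u', hk1, hu'⟩
    refine ⟨(hconv k₀).2 h1, ?_⟩
    rw [hlead, hxe]
    exact G.smul L (AlgebraicClosure L) N (d ^ k₀) (d ^ k₀) _
      (fun i => (iterR_hom hh k₀ i).map y) _ c hc0 h2
  · filter_upwards [hS] with n hn
    rintro _ ⟨F, hF, rfl⟩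
    rw [eval_orb_map, hn F hF, map_zero]

end base

end Pool.Agent.Helper58.IC
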