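import Pool.Agent.Helper65.RP.Defs3

/-!
# Dynamical Mordell-Lang for curves, complex coefficients: definitions
-/

set_option autoImplicit false

namespace Pool.Agent.Helper58.IC

open MvPolynomial Filter

/-- The orbit of `a` under the polynomial map `f`, over a commutative ring. -/
noncomputable def orbR {R : Type} [CommRing R] {N : ℕ} (f : Fin N → MvPolynomial (Fin N) R)
    (a : Fin N → R) (n : ℕ) : Fin N → R := (fun (x : Fin N → R) i => eval x (f i))^[n] a

/-- Coefficientwise image of a tuple of polynomials. -/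
noncomputable def mapT {R S : Type} [CommRing R] [CommRing S] {N : ℕ} (y : R →+* S)
    (f : Fin N → MvPolynomial (Fin N) R) : Fin N → MvPolynomial (Fin N) S :=
  fun i => map y (f i)

/-- The iterates of `f`, as polynomials, over a commutative ring. -/
noncomputable def iterR {R : Type} [CommRing R] {N : ℕ} (f : Fin N → MvPolynomial (Fin N) R) :
    ℕ → Fin N → MvPolynomial (Fin N) R
  | 0 => X
  | k + 1 => fun i => bind₁ (iterR f k) (f i)

/-- `R` is a Noetherian ring containing `ℤ[T_1, ..., T_r]` in which `ℓ` is invertible; up to powers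
of `ℓ` its elements are integral over `ℤ[T_1, ..., T_r]` and combinations of `D` fixed elements. -/
structure IsBase (r ℓ D : ℕ) (R : Type) [CommRing R] [Algebra (MvPolynomial (Fin r) ℤ) R] :
    Prop where
  noeth : IsNoetherianRing R
  inj : Function.Injective (algebraMap (MvPolynomial (Fin r) ℤ) R)
  pos : ℓ ≠ 0
  unit : IsUnit (ℓ : R)
  int : ∀ x : R, ∃ m : ℕ, IsIntegral (MvPolynomial (Fin r) ℤ) ((ℓ : R) ^ m * x)
  gen : ∃ e : Fin D → R, ∀ x : R, ∃ (m : ℕ) (c : Fin D → MvPolynomial (Fin r) ℤ),
    (ℓ : R) ^ m * x = ∑ j, algebraMap (MvPolynomial (Fin r) ℤ) R (c j) * e j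

/-- The ring homomorphism `y` maps the parameters `T` to the integers `z`. -/
def IsSpec {r : ℕ} {R L : Type} [CommRing R] [Algebra (MvPolynomial (Fin r) ℤ) R] [CommRing L]
    (z : Fin r → ℤ) (y : R →+* L) : Prop :=
  ∀ p : MvPolynomial (Fin r) ℤ,
    y (algebraMap (MvPolynomial (Fin r) ℤ) R p) = ((eval z p : ℤ) : L)

/-- Certificate for the absence of common zeros of the forms `h`. -/
def Cert {R : Type} [CommRing R] {N : ℕ} (h : Fin N → MvPolynomial (Fin N) R) : Prop :=
  ∃ (M : ℕ) (A : Fin N → Fin N → MvPolynomial (Fin N) R),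
    1 ≤ M ∧ ∀ i, (X i : MvPolynomial (Fin N) R) ^ M = ∑ j, A i j * h j

/-- The leading forms of degree `d`. -/
noncomputable def leadR {R : Type} [CommRing R] {N : ℕ} (d : ℕ)
    (f : Fin N → MvPolynomial (Fin N) R) (i : Fin N) : MvPolynomial (Fin N) R :=
  homogeneousComponent d (f i)

/-- The size of an integral vector. -/
noncomputable def sz {r : ℕ} (z : Fin r → ℤ) : ℝ := 1 + ∑ i, |(z i : ℝ)|

end Pool.Agent.Helper58.IC
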