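import Pool.Agent.Helper58.IC.Defs

/-!
# Finite orbits are bounded by an explicit constant

PROOF of T4. Write `h j = homogeneousComponent d (f j)`, `ρ = 1 + N CA (Cf + 2)` (`CA, Cf ≥ 0` as they
bound sums of norms; `N ≥ 1` because of the index `i`). Taking the homogeneous component of degree `M`
in the certificate one may replace `A i j` by its component of degree `M - d` (if `M < d` the right
side has no component of degree `M`, so `X i ^ M = 0`, impossible); the sum of the norms of its
coefficients is still at most `CA`. Let `t = max_i ‖x i‖ > ρ ≥ 1`, attained at `i`. Then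
`t ^ M ≤ N CA t ^ (M - d) max_j ‖h j (x)‖`, so `max_j ‖h j (x)‖ ≥ t ^ d / (N CA)` (in particular
`N CA > 0`), and `‖f j (x) - h j (x)‖ ≤ Cf t ^ (d - 1)`. Hence
`max_j ‖f j (x)‖ ≥ t ^ (d - 1) (t / (N CA) - Cf) > 2 t ^ (d - 1) ≥ 2 t`.
So if some coordinate of `orb f a n` has norm `> ρ`, then the maxima of the norms at
`n, n + 1, n + 2, ...` increase strictly, and the orbit is infinite.
-/

set_option autoImplicit false

namespace Pool.Agent.Helper58.IC

open MvPolynomial Filter
open Pool.Agent.Helper65.RP (MultLT orb iter van)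

private theorem comp_mul {Ω : Type} [Field Ω] {N : ℕ} (M d : ℕ) (A h : MvPolynomial (Fin N) Ω)
    (hh : h.IsHomogeneous d) :
    homogeneousComponent M (A * h) =
      if d ≤ M then homogeneousComponent (M - d) A * h else 0 := by
  have h1 : A * h = ∑ k ∈ Finset.range (A.totalDegree + 1), homogeneousComponent k A * h := by
    rw [← Finset.sum_mul, sum_homogeneousComponent]
  have h2 : ∀ k, homogeneousComponent M (homogeneousComponent k A * h) =
      if M = k + d then homogeneousComponent k A * h else 0 := fun k =>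
    homogeneousComponent_of_mem ((mem_homogeneousSubmodule _ _).2
      ((homogeneousComponent_isHomogeneous k A).mul hh))
  rw [h1, map_sum, Finset.sum_congr rfl fun k _ => h2 k]
  split_ifs with hM
  · by_cases hk : M - d ∈ Finset.range (A.totalDegree + 1)
    · rw [Finset.sum_eq_single (M - d)]
      · rw [if_pos (by omega)]
      · intro b _ hb
        rw [if_neg (by omega)]
      · intro h3
        exact absurd hk h3
    · have h4 : homogeneousComponent (M - d) A = 0 :=
        homogeneousComponent_eq_zero _ _ (by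
          rw [Finset.mem_range, not_lt] at hk
          omega)
      rw [h4, zero_mul]
      refine Finset.sum_eq_zero fun k hk' => ?_
      rw [if_neg]
      rintro rfl
      rw [Nat.add_sub_cancel] at hk
      exact hk hk'
  · refine Finset.sum_eq_zero fun k _ => ?_
    rw [if_neg (by omega)]

private theorem eval_bound {Ω : Type} [NormedField Ω] {N : ℕ} (p : MvPolynomial (Fin N) Ω)
    (S : Finset (Fin N →₀ ℕ)) (hS : p.support ⊆ S) (e : ℕ) (hp : ∀ m ∈ p.support, m.degree ≤ e)
    (x : Fin N → Ω) (t : ℝ) (ht : 1 ≤ t) (hx : ∀ i, ‖x i‖ ≤ t) :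
    ‖eval x p‖ ≤ (∑ m ∈ S, ‖p.coeff m‖) * t ^ e := by
  have h0 : ‖eval x p‖ ≤ (∑ m ∈ p.support, ‖p.coeff m‖) * t ^ e := by
    rw [eval_eq', Finset.sum_mul]
    refine (norm_sum_le _ _).trans (Finset.sum_le_sum fun m hm => ?_)
    rw [norm_mul, norm_prod]
    refine mul_le_mul_of_nonneg_left ?_ (norm_nonneg _)
    have h1 : ∏ i, ‖x i ^ m i‖ ≤ ∏ i, t ^ m i := by
      refine Finset.prod_le_prod (fun i _ => norm_nonneg _) fun i _ => ?_
      rw [norm_pow]
      exact pow_le_pow_left₀ (norm_nonneg _) (hx i) _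
    refine h1.trans ?_
    rw [Finset.prod_pow_eq_pow_sum]
    refine pow_le_pow_right₀ ht ?_
    have h2 := hp m hm
    rwa [Finsupp.degree_eq_sum] at h2
  refine h0.trans (mul_le_mul_of_nonneg_right ?_ (by positivity))
  exact Finset.sum_le_sum_of_subset_of_nonneg hS fun _ _ _ => norm_nonneg _

private theorem step {Ω : Type} [NormedField Ω] {N d : ℕ} (hd : 2 ≤ d)
    (f : Fin N → MvPolynomial (Fin N) Ω) (hf : ∀ i, (f i).totalDegree ≤ d)
    (M : ℕ) (A : Fin N → Fin N → MvPolynomial (Fin N) Ω)
    (hA : ∀ i, (X i : MvPolynomial (Fin N) Ω) ^ M = ∑ j, A i j * homogeneousComponent d (f j))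
    (CA Cf : ℝ) (hCA : ∀ i j, ∑ m ∈ (A i j).support, ‖(A i j).coeff m‖ ≤ CA)
    (hCf : ∀ i, ∑ m ∈ (f i).support, ‖(f i).coeff m‖ ≤ Cf) (x : Fin N → Ω)
    (i : Fin N) (hi : ∀ j, ‖x j‖ ≤ ‖x i‖) (hx : 1 + N * CA * (Cf + 2) < ‖x i‖) :
    ∃ j, ‖x i‖ < ‖eval x (f j)‖ := by
  have hCA0 : 0 ≤ CA := (Finset.sum_nonneg fun _ _ => norm_nonneg _).trans (hCA i i)
  have hCf0 : 0 ≤ Cf := (Finset.sum_nonneg fun _ _ => norm_nonneg _).trans (hCf i)
  set t : ℝ := ‖x i‖ with ht
  have hN0 : (0 : ℝ) ≤ (N : ℝ) * CA := by positivity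
  have ht1 : 1 ≤ t := by nlinarith [mul_nonneg hN0 (by linarith : (0 : ℝ) ≤ Cf + 2)]
  have ht0 : 0 < t := by linarith
  by_contra hcon
  push Not at hcon
  -- the forms
  have hh : ∀ j, (homogeneousComponent d (f j)).IsHomogeneous d := fun j =>
    homogeneousComponent_isHomogeneous d (f j)
  have hcomp : homogeneousComponent M ((X i : MvPolynomial (Fin N) Ω) ^ M) = X i ^ M := by
    have h1 : ((X i : MvPolynomial (Fin N) Ω) ^ M).IsHomogeneous M := by
      have := (isHomogeneous_X Ω i).pow M
      rwa [one_mul] at this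
    rw [homogeneousComponent_of_mem ((mem_homogeneousSubmodule _ _).2 h1), if_pos rfl]
  have hdM : d ≤ M := by
    by_contra hlt
    have h1 : homogeneousComponent M ((X i : MvPolynomial (Fin N) Ω) ^ M) = 0 := by
      rw [hA i, map_sum]
      refine Finset.sum_eq_zero fun j _ => ?_
      rw [comp_mul M d _ _ (hh j), if_neg hlt]
    rw [hcomp] at h1
    exact pow_ne_zero M (X_ne_zero i) h1
  have hcert : (X i : MvPolynomial (Fin N) Ω) ^ M =
      ∑ j, homogeneousComponent (M - d) (A i j) * homogeneousComponent d (f j) := by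
    rw [← hcomp, hA i, map_sum]
    refine Finset.sum_congr rfl fun j _ => ?_
    rw [comp_mul M d _ _ (hh j), if_pos hdM]
  -- bounds
  have hB : ∀ j, ‖eval x (homogeneousComponent (M - d) (A i j))‖ ≤ CA * t ^ (M - d) := by
    intro j
    have hsup : (homogeneousComponent (M - d) (A i j)).support ⊆ (A i j).support := by
      intro m hm
      rw [mem_support_iff, coeff_homogeneousComponent] at hm
      rw [mem_support_iff]
      intro h0
      rw [h0] at hm
      exact hm (by simp)
    refine (eval_bound _ (A i j).support hsup (M - d) (fun m hm => ?_) x t ht1 hi).trans ?_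
    · rw [mem_support_iff, coeff_homogeneousComponent] at hm
      by_contra hne
      rw [if_neg (by omega)] at hm
      exact hm rfl
    · refine mul_le_mul_of_nonneg_right ?_ (by positivity)
      refine (Finset.sum_le_sum fun m _ => ?_).trans (hCA i j)
      rw [coeff_homogeneousComponent]
      split_ifs
      · exact le_rfl
      · rw [norm_zero]; exact norm_nonneg _
  have hdiff : ∀ j, ‖eval x (f j - homogeneousComponent d (f j))‖ ≤ Cf * t ^ (d - 1) := by
    intro j
    have hcoef : ∀ m, (f j - homogeneousComponent d (f j)).coeff m =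
        if m.degree = d then 0 else (f j).coeff m := by
      intro m
      rw [coeff_sub, coeff_homogeneousComponent]
      split_ifs
      · exact sub_self _
      · exact sub_zero _
    have hsup : (f j - homogeneousComponent d (f j)).support ⊆ (f j).support := by
      intro m hm
      rw [mem_support_iff, hcoef] at hm
      rw [mem_support_iff]
      intro h0
      rw [h0] at hm
      exact hm (by simp)
    refine (eval_bound _ (f j).support hsup (d - 1) (fun m hm => ?_) x t ht1 hi).trans ?_
    · have h1 := hsup hm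
      rw [mem_support_iff, hcoef] at hm
      have h2 : m.degree ≤ d := (le_totalDegree h1).trans (hf j)
      have h3 : m.degree ≠ d := by
        intro h4
        rw [if_pos h4] at hm
        exact hm rfl
      omega
    · refine mul_le_mul_of_nonneg_right ?_ (by positivity)
      refine (Finset.sum_le_sum fun m _ => ?_).trans (hCf j)
      rw [hcoef]
      split_ifs
      · rw [norm_zero]; exact norm_nonneg _
      · exact le_rfl
  have hH : ∀ j, ‖eval x (homogeneousComponent d (f j))‖ ≤ (1 + Cf) * t ^ (d - 1) := by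
    intro j
    have h1 : eval x (homogeneousComponent d (f j)) =
        eval x (f j) - eval x (f j - homogeneousComponent d (f j)) := by
      rw [map_sub]; ring
    rw [h1]
    have h2 := norm_sub_le (eval x (f j)) (eval x (f j - homogeneousComponent d (f j)))
    have h3 : t ≤ t ^ (d - 1) := by
      calc t = t ^ 1 := (pow_one t).symm
        _ ≤ t ^ (d - 1) := pow_le_pow_right₀ ht1 (by omega)
    linarith [hcon j, hdiff j]
  have hmain : t ^ M ≤ N * (CA * t ^ (M - d) * ((1 + Cf) * t ^ (d - 1))) := by
    have h1 : t ^ M = ‖eval x ((X i : MvPolynomial (Fin N) Ω) ^ M)‖ := by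
      rw [map_pow, eval_X, norm_pow]
    rw [h1, hcert, map_sum]
    refine (norm_sum_le _ _).trans ?_
    have h2 : ∀ j ∈ (Finset.univ : Finset (Fin N)),
        ‖eval x (homogeneousComponent (M - d) (A i j) * homogeneousComponent d (f j))‖ ≤
          CA * t ^ (M - d) * ((1 + Cf) * t ^ (d - 1)) := by
      intro j _
      rw [map_mul, norm_mul]
      exact mul_le_mul (hB j) (hH j) (norm_nonneg _) (by positivity)
    refine (Finset.sum_le_card_nsmul _ _ _ h2).trans ?_
    rw [Finset.card_univ, Fintype.card_fin, nsmul_eq_mul]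
  have h5 : t ^ M = t ^ (M - d) * t ^ (d - 1) * t := by
    rw [mul_assoc, ← pow_succ, ← pow_add]
    congr 1
    omega
  have h6 : 0 < t ^ (M - d) * t ^ (d - 1) := by positivity
  have h7 : t ≤ N * CA * (1 + Cf) := by
    rw [h5] at hmain
    have h8 : t ^ (M - d) * t ^ (d - 1) * t ≤
        t ^ (M - d) * t ^ (d - 1) * (N * CA * (1 + Cf)) := by
      calc t ^ (M - d) * t ^ (d - 1) * t ≤ N * (CA * t ^ (M - d) * ((1 + Cf) * t ^ (d - 1))) :=
            hmain
        _ = t ^ (M - d) * t ^ (d - 1) * (N * CA * (1 + Cf)) := by ring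
    exact le_of_mul_le_mul_left h8 h6
  nlinarith

/-- T4. Finite orbits are bounded. -/
theorem escape {Ω : Type} [NormedField Ω] {N d : ℕ} (hd : 2 ≤ d)
    (f : Fin N → MvPolynomial (Fin N) Ω) (hf : ∀ i, (f i).totalDegree ≤ d)
    (M : ℕ) (A : Fin N → Fin N → MvPolynomial (Fin N) Ω)
    (hA : ∀ i, (X i : MvPolynomial (Fin N) Ω) ^ M = ∑ j, A i j * homogeneousComponent d (f j))
    (CA Cf : ℝ) (hCA : ∀ i j, ∑ m ∈ (A i j).support, ‖(A i j).coeff m‖ ≤ CA)
    (hCf : ∀ i, ∑ m ∈ (f i).support, ‖(f i).coeff m‖ ≤ Cf) (a : Fin N → Ω)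
    (hfin : (Set.range (orb f a)).Finite) (n : ℕ) (i : Fin N) :
    ‖orb f a n i‖ ≤ 1 + N * CA * (Cf + 2) := by
  by_contra hlt
  push Not at hlt
  have hne : Nonempty (Fin N) := ⟨i⟩
  have hsucc : ∀ k, orb f a (k + 1) = fun j => eval (orb f a k) (f j) := by
    intro k
    unfold orb
    rw [Function.iterate_succ_apply']
  -- the maxima
  have hmax : ∀ k, ∃ i₀, ∀ j, ‖orb f a k j‖ ≤ ‖orb f a k i₀‖ := fun k =>
    Finite.exists_max fun j => ‖orb f a k j‖
  choose I hI using hmax
  have hstep : ∀ k, 1 + N * CA * (Cf + 2) < ‖orb f a k (I k)‖ →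
      ‖orb f a k (I k)‖ < ‖orb f a (k + 1) (I (k + 1))‖ := by
    intro k hk
    obtain ⟨j, hj⟩ := step hd f hf M A hA CA Cf hCA hCf (orb f a k) (I k) (hI k) hk
    refine lt_of_lt_of_le hj ?_
    have h1 := hI (k + 1) j
    rw [show orb f a (k + 1) j = eval (orb f a k) (f j) by rw [hsucc]] at h1
    exact h1
  have hbig : ∀ k, 1 + N * CA * (Cf + 2) < ‖orb f a (n + k) (I (n + k))‖ := by
    intro k
    induction k with
    | zero => exact lt_of_lt_of_le hlt (hI n i)
    | succ k ih => exact ih.trans (hstep _ ih)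
  have hmono : StrictMono fun k => ‖orb f a (n + k) (I (n + k))‖ :=
    strictMono_nat_of_lt_succ fun k => hstep _ (hbig k)
  -- the maximal norm depends on the point only
  have hdep : ∀ k l, orb f a k = orb f a l → ‖orb f a k (I k)‖ = ‖orb f a l (I l)‖ := by
    intro k l hkl
    apply le_antisymm
    · rw [hkl]; exact hI l _
    · rw [← hkl]; exact hI k _
  have hinj : Function.Injective fun k => orb f a (n + k) := by
    intro k l hkl
    exact hmono.injective (hdep _ _ hkl)
  exact Set.infinite_of_injective_forall_mem hinj (fun k => Set.mem_range_self (n + k)) hfin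

end Pool.Agent.Helper58.IC
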