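import Pool.Agent.Helper58.IC.Defs

/-!
# The number field of a specialisation

T6a. By `hB.int` every `y x` is algebraic over `ℚ` (a root of a monic polynomial with integer
coefficients, divided by `ℓ ^ m`). Let `L = IntermediateField.adjoin ℚ (Set.range y)`. As all elements
of the set are algebraic, `L` is `Algebra.adjoin ℚ (Set.range y)`
(`IntermediateField.adjoin_toSubalgebra_of_isAlgebraic`), which is the `ℚ`-span of `Set.range y`, and by
`hB.gen` this is the `ℚ`-span of the `D` elements `y (e j)` (note that `y (c_j) = c_j (z)` is an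
integer). So `finrank ≤ D`.

T6b. `y' : R → Ω` over `z`, `Ω` any field of characteristic zero. The domain `R / ker y'` has the
fraction field `F`, which is algebraic over `ℚ` (same reason), so there is `F → ℂ`
(`IsAlgClosed.lift`); let `y` be the composition `R → R / ker y' → F → ℂ`. Alternatively, embed the
algebraic closure of `ℚ` in an algebraic closure of `Ω` in `ℂ`.
-/

set_option autoImplicit false

namespace Pool.Agent.Helper58.IC

open MvPolynomial Filter
open Pool.Agent.Helper65.RP (MultLT orb iter van)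

section base
variable {r ℓ D : ℕ} {R : Type} [CommRing R] [IsDomain R] [Algebra (MvPolynomial (Fin r) ℤ) R]

omit [IsDomain R] in
/-- The values of a specialisation are algebraic numbers. -/
private theorem isAlgebraic_value (hB : IsBase r ℓ D R) (z : Fin r → ℤ) {Ω : Type} [Field Ω]
    [CharZero Ω] (y : R →+* Ω) (hy : IsSpec z y) (x : R) : IsAlgebraic ℚ (y x) := by
  obtain ⟨m, P, hP, h0⟩ := hB.int x
  have h1 : y.comp (algebraMap (MvPolynomial (Fin r) ℤ) R) =
      (Int.castRingHom Ω).comp (eval z) := by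
    apply RingHom.ext
    intro p
    exact hy p
  have h2 : IsIntegral ℤ (y ((ℓ : R) ^ m * x)) := by
    refine ⟨P.map (eval z), hP.map _, ?_⟩
    have h3 := congrArg y h0
    rw [Polynomial.hom_eval₂, h1, map_zero, ← Polynomial.eval₂_map] at h3
    exact h3
  have h3 : IsAlgebraic ℚ (y ((ℓ : R) ^ m * x)) := (h2.tower_top (A := ℚ)).isAlgebraic
  have hl : ((ℓ : Ω) ^ m) ≠ 0 := pow_ne_zero _ (Nat.cast_ne_zero.mpr hB.pos)
  have h4 : y x = algebraMap ℚ Ω (((ℓ : ℚ) ^ m)⁻¹) * y ((ℓ : R) ^ m * x) := by
    rw [map_inv₀, map_pow, map_natCast, map_mul, map_pow, map_natCast, ← mul_assoc,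
      inv_mul_cancel₀ hl, one_mul]
  rw [h4]
  exact (isAlgebraic_algebraMap _).mul h3

/-- T6a. The values of a specialisation generate a number field of degree at most `D`. -/
theorem exists_numberField (hB : IsBase r ℓ D R) (z : Fin r → ℤ) (y : R →+* ℂ)
    (hy : IsSpec z y) :
    ∃ L : IntermediateField ℚ ℂ, FiniteDimensional ℚ L ∧ Module.finrank ℚ L ≤ D ∧
      ∀ x : R, y x ∈ L := by
  classical
  obtain ⟨e, he⟩ := hB.gen
  have halg : ∀ x ∈ Set.range y, IsAlgebraic ℚ x := by
    rintro _ ⟨x, rfl⟩
    exact isAlgebraic_value hB z y hy x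
  set L : IntermediateField ℚ ℂ := IntermediateField.adjoin ℚ (Set.range y) with hL
  set W : Submodule ℚ ℂ := Submodule.span ℚ (Set.range fun j => y (e j)) with hW
  have hfin : FiniteDimensional ℚ W := FiniteDimensional.span_of_finite ℚ (Set.finite_range _)
  have hyW : ∀ x, y x ∈ W := by
    intro x
    obtain ⟨m, c, h⟩ := he x
    have h1 := congrArg y h
    rw [map_mul, map_pow, map_natCast, map_sum] at h1
    have hl : ((ℓ : ℂ) ^ m) ≠ 0 := pow_ne_zero _ (Nat.cast_ne_zero.mpr hB.pos)
    have h2 : y x = (((ℓ : ℚ) ^ m)⁻¹ : ℚ) • ∑ j, ((eval z (c j) : ℤ) : ℚ) • y (e j) := by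
      rw [Algebra.smul_def, map_inv₀, map_pow, map_natCast, eq_inv_mul_iff_mul_eq₀ hl, h1]
      refine Finset.sum_congr rfl fun j _ => ?_
      rw [map_mul, hy, Algebra.smul_def, map_intCast]
    rw [h2]
    refine W.smul_mem _ (W.sum_mem fun j _ => W.smul_mem _ ?_)
    exact Submodule.subset_span ⟨j, rfl⟩
  have hLW : Subalgebra.toSubmodule L.toSubalgebra ≤ W := by
    rw [hL, IntermediateField.adjoin_toSubalgebra_of_isAlgebraic halg, Algebra.adjoin_eq_span,
      Submodule.span_le]
    intro x hx
    have h1 : Submonoid.closure (Set.range y) ≤ MonoidHom.mrange (y : R →* ℂ) := by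
      rw [Submonoid.closure_le]
      rintro _ ⟨x, rfl⟩
      exact ⟨x, rfl⟩
    obtain ⟨x', rfl⟩ := h1 hx
    exact hyW x'
  have hfinL : FiniteDimensional ℚ (Subalgebra.toSubmodule L.toSubalgebra) :=
    Submodule.finiteDimensional_of_le hLW
  refine ⟨L, hfinL, ?_, fun x => ?_⟩
  · have h1 := Submodule.finrank_mono hLW
    have h2 : Module.finrank ℚ W ≤ D := by
      have := finrank_range_le_card (R := ℚ) (fun j => y (e j))
      rw [Fintype.card_fin] at this
      exact this
    exact le_trans h1 h2
  · exact IntermediateField.subset_adjoin ℚ _ ⟨x, rfl⟩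

/-- T6b. A complex specialisation with the same kernel. -/
theorem exists_same_ker (hB : IsBase r ℓ D R) (z : Fin r → ℤ) {Ω : Type} [Field Ω] [CharZero Ω]
    (y' : R →+* Ω) (hy' : IsSpec z y') :
    ∃ y : R →+* ℂ, IsSpec z y ∧ ∀ x : R, y x = 0 ↔ y' x = 0 := by
  set F : IntermediateField ℚ Ω := IntermediateField.adjoin ℚ (Set.range y') with hF
  have hmem : ∀ x, y' x ∈ F := fun x => IntermediateField.subset_adjoin ℚ _ ⟨x, rfl⟩
  have halg : Algebra.IsAlgebraic ℚ F := by
    rw [hF]
    refine IntermediateField.isAlgebraic_adjoin ?_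
    rintro _ ⟨x, rfl⟩
    exact (isAlgebraic_value hB z y' hy' x).isIntegral
  let g : F →ₐ[ℚ] ℂ := IsAlgClosed.lift
  let y₁ : R →+* F := y'.codRestrict F hmem
  refine ⟨(g : F →+* ℂ).comp y₁, fun p => ?_, fun x => ?_⟩
  · have h1 : y₁ (algebraMap (MvPolynomial (Fin r) ℤ) R p) = ((eval z p : ℤ) : F) := by
      apply Subtype.ext
      have h2 := hy' p
      change y' (algebraMap (MvPolynomial (Fin r) ℤ) R p) = _
      rw [h2]
      simp
    rw [RingHom.comp_apply, h1, map_intCast]
  · rw [RingHom.comp_apply, map_eq_zero]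
    constructor
    · intro h
      exact congrArg Subtype.val h
    · intro h
      exact Subtype.ext h

end base

end Pool.Agent.Helper58.IC
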