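import Pool.Agent.Helper58.IC.Finite
import Pool.Agent.Helper58.IC.Bound
import Pool.Agent.Helper58.IC.NumF
import Pool.Agent.Helper58.IC.Escape

/-!
# Specialisations with an infinite orbit
-/

set_option autoImplicit false

namespace Pool.Agent.Helper58.IC

open MvPolynomial Filter
open Pool.Agent.Helper65.RP (MultLT orb iter van)

/-- Specialisation of an orbit. -/
lemma orb_mapT {R L : Type} [CommRing R] [Field L] {N : ℕ} (y : R →+* L)
    (f : Fin N → MvPolynomial (Fin N) R) (a : Fin N → R) (n : ℕ) :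
    orb (mapT y f) (fun i => y (a i)) n = fun i => y (orbR f a n i) := by
  induction n with
  | zero => rfl
  | succ n ih =>
    unfold orb orbR at ih ⊢
    rw [Function.iterate_succ_apply', Function.iterate_succ_apply', ih]
    funext i
    unfold mapT
    rw [eval_map]
    have h3 := eval₂_comp_left y (RingHom.id R)
      ((fun (x : Fin N → R) i => eval x (f i))^[n] a) (f i)
    rw [RingHom.comp_id] at h3
    exact h3.symm

lemma one_le_sz {r : ℕ} (z : Fin r → ℤ) : 1 ≤ sz z := by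
  unfold sz
  have : 0 ≤ ∑ i, |(z i : ℝ)| := Finset.sum_nonneg fun i _ => abs_nonneg _
  linarith

lemma hc_map {R L : Type} [CommRing R] [CommRing L] {N : ℕ} (y : R →+* L) (d : ℕ)
    (p : MvPolynomial (Fin N) R) :
    homogeneousComponent d (map y p) = map y (homogeneousComponent d p) := by
  ext m
  rw [coeff_homogeneousComponent, coeff_map, coeff_map, coeff_homogeneousComponent]
  split_ifs with h
  · rfl
  · rw [map_zero]

lemma sum_support_map {R L : Type} [CommRing R] [NormedField L] {N : ℕ} (y : R →+* L)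
    (p : MvPolynomial (Fin N) R) :
    ∑ m ∈ (map y p).support, ‖(map y p).coeff m‖ ≤ ∑ m ∈ p.support, ‖y (p.coeff m)‖ := by
  calc ∑ m ∈ (map y p).support, ‖(map y p).coeff m‖
      ≤ ∑ m ∈ p.support, ‖(map y p).coeff m‖ :=
        Finset.sum_le_sum_of_subset_of_nonneg (support_map_subset y p)
          fun _ _ _ => norm_nonneg _
    _ = _ := Finset.sum_congr rfl fun m _ => by rw [coeff_map]

section base
variable {r ℓ D : ℕ} {R : Type} [CommRing R] [IsDomain R] [Algebra (MvPolynomial (Fin r) ℤ) R]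

lemma sum_bound (hB : IsBase r ℓ D R) {ι : Type} (s : Finset ι) (c : ι → R) :
    ∃ (C : ℝ) (B : ℕ), 0 ≤ C ∧ ∀ (z : Fin r → ℤ) (y : R →+* ℂ), IsSpec z y →
      ∑ i ∈ s, ‖y (c i)‖ ≤ C * sz z ^ B := by
  classical
  induction s using Finset.induction_on with
  | empty => exact ⟨0, 0, le_refl _, fun z y _ => by simp⟩
  | insert i s hi ih =>
    obtain ⟨C1, B1, hC1, h1⟩ := ih
    obtain ⟨C2, B2, hC2, h2⟩ := spec_bound hB (c i)
    refine ⟨C2 + C1, B2 + B1, add_nonneg hC2 hC1, fun z y hy => ?_⟩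
    rw [Finset.sum_insert hi]
    have h3 := h1 z y hy
    have h4 := h2 z y hy
    have hsz := one_le_sz z
    have h5 : sz z ^ B2 ≤ sz z ^ (B2 + B1) := pow_le_pow_right₀ hsz (by omega)
    have h6 : sz z ^ B1 ≤ sz z ^ (B2 + B1) := pow_le_pow_right₀ hsz (by omega)
    have h7 := mul_le_mul_of_nonneg_left h5 hC2
    have h8 := mul_le_mul_of_nonneg_left h6 hC1
    rw [add_mul]
    linarith

lemma sum_bound_padic (hB : IsBase r ℓ D R) (p : ℕ) [Fact p.Prime] {ι : Type} (s : Finset ι)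
    (c : ι → R) :
    ∃ C : ℝ, 0 ≤ C ∧ ∀ (z : Fin r → ℤ) (y : R →+* PadicAlgCl p), IsSpec z y →
      ∑ i ∈ s, ‖y (c i)‖ ≤ C := by
  classical
  induction s using Finset.induction_on with
  | empty => exact ⟨0, le_refl _, fun z y _ => by simp⟩
  | insert i s hi ih =>
    obtain ⟨C1, hC1, h1⟩ := ih
    obtain ⟨C2, hC2, h2⟩ := spec_bound_padic hB (c i) p
    refine ⟨C2 + C1, add_nonneg hC2 hC1, fun z y hy => ?_⟩
    rw [Finset.sum_insert hi]
    exact add_le_add (h2 z y hy) (h1 z y hy)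

/-- The bound for a finite specialised orbit in terms of the coefficients. -/
lemma escape_spec {L : Type} [NormedField L] {N d : ℕ} (hd : 2 ≤ d)
    (f : Fin N → MvPolynomial (Fin N) R) (hf : ∀ i, (f i).totalDegree ≤ d) (M : ℕ)
    (A : Fin N → Fin N → MvPolynomial (Fin N) R)
    (hA : ∀ i, (X i : MvPolynomial (Fin N) R) ^ M = ∑ j, A i j * leadR d f j) (y : R →+* L)
    (a : Fin N → R) (hfin : (Set.range (orb (mapT y f) (fun i => y (a i)))).Finite) (n : ℕ)
    (i : Fin N) :
    ‖y (orbR f a n i)‖ ≤ 1 + N * (∑ k : Fin N × Fin N, ∑ m ∈ (A k.1 k.2).support,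
      ‖y ((A k.1 k.2).coeff m)‖) * ((∑ k : Fin N, ∑ m ∈ (f k).support, ‖y ((f k).coeff m)‖) + 2) := by
  classical
  have h := escape hd (mapT y f) (fun i => (Finset.sup_mono (support_map_subset y (f i))).trans
    (hf i)) M (fun i j => map y (A i j)) (by
      intro i
      have h1 := congrArg (MvPolynomial.map y) (hA i)
      rw [map_pow, map_X, map_sum] at h1
      rw [h1]
      refine Finset.sum_congr rfl fun j _ => ?_
      rw [map_mul]
      congr 1
      exact (hc_map y d (f j)).symm)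
    (∑ k : Fin N × Fin N, ∑ m ∈ (A k.1 k.2).support, ‖y ((A k.1 k.2).coeff m)‖)
    (∑ k : Fin N, ∑ m ∈ (f k).support, ‖y ((f k).coeff m)‖) (by
      intro i j
      refine (sum_support_map y (A i j)).trans ?_
      exact Finset.single_le_sum (f := fun k : Fin N × Fin N => ∑ m ∈ (A k.1 k.2).support,
        ‖y ((A k.1 k.2).coeff m)‖) (fun k _ => Finset.sum_nonneg fun m _ => norm_nonneg _)
        (Finset.mem_univ (i, j))) (by
      intro i
      refine (sum_support_map y (f i)).trans ?_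
      exact Finset.single_le_sum (f := fun k : Fin N => ∑ m ∈ (f k).support,
        ‖y ((f k).coeff m)‖) (fun k _ => Finset.sum_nonneg fun m _ => norm_nonneg _)
        (Finset.mem_univ i)) (fun i => y (a i)) hfin n i
  rw [orb_mapT] at h
  exact h

/-- T7. An infinite orbit has specialisations with an infinite orbit, off every hypersurface. -/
theorem exists_spec (hB : IsBase r ℓ D R) {N d : ℕ} (hd : 2 ≤ d)
    (f : Fin N → MvPolynomial (Fin N) R) (hf : ∀ i, (f i).totalDegree ≤ d)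
    (hc : Cert (leadR d f)) (a : Fin N → R) (hinf : (Set.range (orbR f a)).Infinite) (g : R)
    (hg : g ≠ 0) :
    ∃ (z : Fin r → ℤ) (y : R →+* ℂ), IsSpec z y ∧ y g ≠ 0 ∧
      (Set.range (orb (mapT y f) (fun i => y (a i)))).Infinite := by
  classical
  by_contra hcon
  have hcon' : ∀ (z : Fin r → ℤ) (y : R →+* ℂ), IsSpec z y → y g ≠ 0 →
      (Set.range (orb (mapT y f) (fun i => y (a i)))).Finite := by
    intro z y hy hyg
    by_contra h
    exact hcon ⟨z, y, hy, hyg, h⟩
  obtain ⟨g₀, g', hg₀, hgg⟩ := exists_multiple hB g hg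
  have hne : ∀ (z : Fin r → ℤ) (L : Type) [Field L] [CharZero L] (y : R →+* L), IsSpec z y →
      eval z g₀ ≠ 0 → y g ≠ 0 := by
    intro z L _ _ y hy hz h0
    have h1 := hy g₀
    rw [hgg, map_mul, h0, zero_mul] at h1
    exact hz (by exact_mod_cast h1.symm)
  obtain ⟨M, A, hM, hA⟩ := hc
  -- the two constants
  set s1 : Finset (Σ _ : Fin N × Fin N, (Fin N →₀ ℕ)) :=
    Finset.univ.sigma fun k => (A k.1 k.2).support with hs1
  set s2 : Finset (Σ _ : Fin N, (Fin N →₀ ℕ)) := Finset.univ.sigma fun k => (f k).support with hs2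
  set c1 : (Σ _ : Fin N × Fin N, (Fin N →₀ ℕ)) → R := fun k => (A k.1.1 k.1.2).coeff k.2 with hc1
  set c2 : (Σ _ : Fin N, (Fin N →₀ ℕ)) → R := fun k => (f k.1).coeff k.2 with hc2
  have e1 : ∀ (L : Type) [NormedField L] (y : R →+* L), (∑ k : Fin N × Fin N,
      ∑ m ∈ (A k.1 k.2).support, ‖y ((A k.1 k.2).coeff m)‖) = ∑ k ∈ s1, ‖y (c1 k)‖ := by
    intro L _ y
    rw [hs1, Finset.sum_sigma]
  have e2 : ∀ (L : Type) [NormedField L] (y : R →+* L), (∑ k : Fin N,
      ∑ m ∈ (f k).support, ‖y ((f k).coeff m)‖) = ∑ k ∈ s2, ‖y (c2 k)‖ := by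
    intro L _ y
    rw [hs2, Finset.sum_sigma]
  obtain ⟨C1, B1, hC1, hb1⟩ := sum_bound hB s1 c1
  obtain ⟨C2, B2, hC2, hb2⟩ := sum_bound hB s2 c2
  set 𝒳 : Set R := {x | ∃ n i, x = orbR f a n i} with h𝒳
  have hfinX : 𝒳.Finite := by
    refine finite_of_bounded hB 𝒳 g₀ hg₀ (1 + N * C1 * (C2 + 2)) (B1 + B2) ?_ ?_
    · rintro x ⟨n, i, rfl⟩ z hz y hy
      have h1 := escape_spec hd f hf M A hA y a (hcon' z y hy (hne z ℂ y hy hz)) n i
      rw [e1, e2] at h1
      have h2 := hb1 z y hy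
      have h3 := hb2 z y hy
      have hsz := one_le_sz z
      have hp1 : 1 ≤ sz z ^ B1 := one_le_pow₀ hsz
      have hp2 : 1 ≤ sz z ^ B2 := one_le_pow₀ hsz
      have h4 : (∑ k ∈ s2, ‖y (c2 k)‖) + 2 ≤ (C2 + 2) * sz z ^ B2 := by nlinarith
      have h5 : 0 ≤ ∑ k ∈ s2, ‖y (c2 k)‖ := Finset.sum_nonneg fun k _ => norm_nonneg _
      have h6 : 0 ≤ ∑ k ∈ s1, ‖y (c1 k)‖ := Finset.sum_nonneg fun k _ => norm_nonneg _
      have h7 : (∑ k ∈ s1, ‖y (c1 k)‖) * ((∑ k ∈ s2, ‖y (c2 k)‖) + 2) ≤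
          (C1 * sz z ^ B1) * ((C2 + 2) * sz z ^ B2) :=
        mul_le_mul h2 h4 (by linarith) (by positivity)
      have hN : (0 : ℝ) ≤ N := Nat.cast_nonneg N
      have h8 := mul_le_mul_of_nonneg_left h7 hN
      have h9 : 1 ≤ sz z ^ (B1 + B2) := one_le_pow₀ hsz
      calc ‖y (orbR f a n i)‖ ≤ 1 + N * (∑ k ∈ s1, ‖y (c1 k)‖) *
            ((∑ k ∈ s2, ‖y (c2 k)‖) + 2) := h1
        _ = 1 + N * ((∑ k ∈ s1, ‖y (c1 k)‖) * ((∑ k ∈ s2, ‖y (c2 k)‖) + 2)) := by ring
        _ ≤ sz z ^ (B1 + B2) + N * ((C1 * sz z ^ B1) * ((C2 + 2) * sz z ^ B2)) :=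
            add_le_add h9 h8
        _ = (1 + N * C1 * (C2 + 2)) * sz z ^ (B1 + B2) := by
            rw [pow_add]
            ring
    · intro p _
      obtain ⟨D1, hD1, hd1⟩ := sum_bound_padic hB p s1 c1
      obtain ⟨D2, hD2, hd2⟩ := sum_bound_padic hB p s2 c2
      refine ⟨1 + N * D1 * (D2 + 2), ?_⟩
      rintro x ⟨n, i, rfl⟩ z hz y hy
      obtain ⟨y', hy', hker⟩ := exists_same_ker hB z y hy
      have hfin' := hcon' z y' hy' (hne z ℂ y' hy' hz)
      have hfin : (Set.range (orb (mapT y f) (fun i => y (a i)))).Finite := by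
        have hfac : ∀ n m, orb (mapT y' f) (fun i => y' (a i)) n =
            orb (mapT y' f) (fun i => y' (a i)) m →
            orb (mapT y f) (fun i => y (a i)) n = orb (mapT y f) (fun i => y (a i)) m := by
          intro n m h
          rw [orb_mapT, orb_mapT] at h ⊢
          funext i
          have h1 : y' (orbR f a n i) = y' (orbR f a m i) := congrFun h i
          change y (orbR f a n i) = y (orbR f a m i)
          have h2 : y' (orbR f a n i - orbR f a m i) = 0 := by rw [map_sub, h1, sub_self]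
          rw [hker, map_sub] at h2
          exact sub_eq_zero.1 h2
        have h1 : Function.FactorsThrough (orb (mapT y f) (fun i => y (a i)))
            (orb (mapT y' f) (fun i => y' (a i))) := fun n m h => hfac n m h
        have h2 := (hfin'.image (Function.extend (orb (mapT y' f) (fun i => y' (a i)))
          (orb (mapT y f) (fun i => y (a i))) (fun _ => 0)))
        refine h2.subset ?_
        rintro _ ⟨n, rfl⟩
        exact ⟨_, ⟨n, rfl⟩, h1.extend_apply _ n⟩
      have h1 := escape_spec hd f hf M A hA y a hfin n i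
      rw [e1, e2] at h1
      refine h1.trans ?_
      have h2 := hd1 z y hy
      have h3 := hd2 z y hy
      have h5 : 0 ≤ ∑ k ∈ s2, ‖y (c2 k)‖ := Finset.sum_nonneg fun k _ => norm_nonneg _
      have hN : (0 : ℝ) ≤ N := Nat.cast_nonneg N
      have h7 : (∑ k ∈ s1, ‖y (c1 k)‖) * ((∑ k ∈ s2, ‖y (c2 k)‖) + 2) ≤ D1 * (D2 + 2) :=
        mul_le_mul h2 (by linarith) (by linarith) hD1
      have h8 := mul_le_mul_of_nonneg_left h7 hN
      nlinarith
  apply hinf
  have h1 : (Set.pi Set.univ (fun _ : Fin N => 𝒳)).Finite := Set.Finite.pi fun _ => hfinX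
  refine h1.subset ?_
  rintro _ ⟨n, rfl⟩ i _
  exact ⟨n, i, rfl⟩

end base

end Pool.Agent.Helper58.IC
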