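import Pool.Agent.Helper58.IC.Defs

/-!
# Extension of homomorphisms along integral extensions

PROOF. `P = ker φ` is prime, as `Ω` is a domain. Lying over (`Ideal.exists_ideal_over_prime_of_isIntegral`
or `Ideal.exists_ideal_comap_eq...`; the kernel of `B → R` is zero) gives a prime `Q` of `R` with
`Q ∩ B = P`. The map `B/P → R/Q` is injective and integral, hence `Frac(B/P) → Frac(R/Q)` is
algebraic. `φ` induces `Frac(B/P) → Ω` and `IsAlgClosed.lift` extends it to `Frac(R/Q) → Ω`. Compose
with `R → R/Q → Frac(R/Q)`.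
-/

set_option autoImplicit false

namespace Pool.Agent.Helper58.IC

open MvPolynomial Filter
open Pool.Agent.Helper65.RP (MultLT orb iter van)

/-- T1. Extension of a homomorphism to an algebraically closed field along an integral extension. -/
theorem exists_ext {B R Ω : Type} [CommRing B] [CommRing R] [Algebra B R]
    (hinj : Function.Injective (algebraMap B R)) (hint : Algebra.IsIntegral B R) [Field Ω]
    [IsAlgClosed Ω] (φ : B →+* Ω) : ∃ ψ : R →+* Ω, ψ.comp (algebraMap B R) = φ := by
  have hP : (RingHom.ker φ).IsPrime := RingHom.ker_isPrime φ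
  obtain ⟨Q, -, hQ, hQc⟩ := Ideal.exists_ideal_over_prime_of_isIntegral (RingHom.ker φ)
    (⊥ : Ideal R) (by
      intro x hx
      rw [Ideal.mem_comap, Ideal.mem_bot] at hx
      have : x = 0 := hinj (by rw [hx, map_zero])
      rw [this]
      exact Ideal.zero_mem _)
  have hker : ∀ b ∈ Q.comap (algebraMap B R), φ b = 0 := by
    intro b hb
    rw [hQc] at hb
    exact hb
  have hinj' : Function.Injective
      (Ideal.Quotient.lift (Q.comap (algebraMap B R)) φ hker) := by
    rw [injective_iff_map_eq_zero]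
    intro a ha
    obtain ⟨b, rfl⟩ := Ideal.Quotient.mk_surjective a
    rw [Ideal.Quotient.lift_mk] at ha
    rw [Ideal.Quotient.eq_zero_iff_mem, hQc]
    exact ha
  let _ : Algebra (B ⧸ Q.comap (algebraMap B R)) Ω :=
    (Ideal.Quotient.lift (Q.comap (algebraMap B R)) φ hker).toAlgebra
  have h1 : FaithfulSMul (B ⧸ Q.comap (algebraMap B R)) Ω := by
    rw [faithfulSMul_iff_algebraMap_injective]
    exact hinj'
  have h2 : FaithfulSMul (B ⧸ Q.comap (algebraMap B R)) (R ⧸ Q) := by
    rw [faithfulSMul_iff_algebraMap_injective]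
    exact Ideal.algebraMap_quotient_injective
  have h3 : Algebra.IsIntegral (B ⧸ Q.comap (algebraMap B R)) (R ⧸ Q) := by
    infer_instance
  have h4 : Algebra.IsAlgebraic (B ⧸ Q.comap (algebraMap B R)) (R ⧸ Q) := by
    infer_instance
  let g : (R ⧸ Q) →ₐ[B ⧸ Q.comap (algebraMap B R)] Ω := IsAlgClosed.lift
  refine ⟨g.toRingHom.comp (Ideal.Quotient.mk Q), ?_⟩
  ext b
  have e : Ideal.Quotient.mk Q (algebraMap B R b) =
      algebraMap (B ⧸ Q.comap (algebraMap B R)) (R ⧸ Q)
        (Ideal.Quotient.mk (Q.comap (algebraMap B R)) b) := rfl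
  change g (Ideal.Quotient.mk Q (algebraMap B R b)) = φ b
  rw [e, AlgHom.commutes]
  rfl

end Pool.Agent.Helper58.IC
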