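import Pool.Agent.Helper58.IC.Defs
import Pool.Agent.Helper53.RC.Spread
import Pool.Agent.Helper53.RC.NilDefs

/-!
# Specialisation of local conditions with certificates
-/

set_option autoImplicit false

namespace Pool.Agent.Helper58.IC

open MvPolynomial
open Pool.Agent.Helper65.RP (MultLT)
open Pool.Agent.Helper53.RC (mult_spread mult_base NilLT)

/-- A property that is kept by the specialisations of every subring containing finitely many
elements is kept by all specialisations that do not kill one nonzero element. -/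
theorem spread_loc {N : ℕ}
    (Pr : ∀ (K Kb : Type) [Field K] [Field Kb] [Algebra K Kb],
      (Fin N → MvPolynomial (Fin N) K) → (Fin N → Kb) → Prop)
    {R K : Type} [CommRing R] [IsDomain R] [Field K] [Algebra R K] [IsFractionRing R K]
    (H : Fin N → MvPolynomial (Fin N) R) (q : Fin N → R)
    (h : ∃ Fc : Finset K, ∀ S : Subring K, (∀ x ∈ Fc, x ∈ S) →
      ∀ (HR : Fin N → MvPolynomial (Fin N) S) (qR : Fin N → S),
        (∀ i, MvPolynomial.map S.subtype (HR i) = MvPolynomial.map (algebraMap R K) (H i)) →
        (∀ i, (qR i : K) = algebraMap R K (q i)) →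
        ∀ (K' Kb' : Type) [Field K'] [Field Kb'] [Algebra K' Kb'] (y : S →+* K'),
          Pr K' Kb' (fun i => MvPolynomial.map y (HR i)) (fun i => algebraMap K' Kb' (y (qR i)))) :
    ∃ g : R, g ≠ 0 ∧ ∀ (L Lb : Type) [Field L] [Field Lb] [Algebra L Lb] (y : R →+* L), y g ≠ 0 →
      Pr L Lb (mapT y H) (fun i => algebraMap L Lb (y (q i))) := by
  classical
  obtain ⟨Fc, hFc⟩ := h
  obtain ⟨b, hb⟩ := IsLocalization.exist_integer_multiples_of_finset (nonZeroDivisors R) Fc
  have hinj : Function.Injective (algebraMap R K) := IsFractionRing.injective R K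
  have hb0 : (b : R) ≠ 0 := nonZeroDivisors.coe_ne_zero b
  have hbK : algebraMap R K b ≠ 0 := fun h0 => hb0 (hinj (by rw [h0, map_zero]))
  refine ⟨b, hb0, fun L Lb _ _ _ y hy => ?_⟩
  set φ : Localization.Away (b : R) →+* K :=
    IsLocalization.Away.lift (b : R) (g := algebraMap R K) (isUnit_iff_ne_zero.2 hbK) with hφ
  have hφa : ∀ x, φ (algebraMap R _ x) = algebraMap R K x := fun x =>
    IsLocalization.Away.lift_eq (b : R) (isUnit_iff_ne_zero.2 hbK) x
  have hφi : Function.Injective φ := by
    rw [injective_iff_map_eq_zero]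
    intro x hx
    obtain ⟨r, s, rfl⟩ := IsLocalization.exists_mk'_eq (Submonoid.powers (b : R)) x
    have h1 : φ (algebraMap R _ r) = 0 := by
      rw [← IsLocalization.mk'_spec (Localization.Away (b : R)) r s, map_mul, hx, zero_mul]
    rw [hφa] at h1
    have h2 : r = 0 := hinj (by rw [h1, map_zero])
    rw [h2, IsLocalization.mk'_zero]
  set e : Localization.Away (b : R) ≃+* φ.range :=
    RingEquiv.ofBijective φ.rangeRestrict
      ⟨fun x x' hx => hφi (congrArg Subtype.val hx), φ.rangeRestrict_surjective⟩ with he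
  set ψ : Localization.Away (b : R) →+* L :=
    IsLocalization.Away.lift (b : R) (g := y) (isUnit_iff_ne_zero.2 hy) with hψ
  have hψa : ∀ x, ψ (algebraMap R _ x) = y x := fun x =>
    IsLocalization.Away.lift_eq (b : R) (isUnit_iff_ne_zero.2 hy) x
  have hmem : ∀ x ∈ Fc, x ∈ φ.range := by
    intro x hx
    obtain ⟨c, hc⟩ := hb x hx
    refine ⟨IsLocalization.mk' _ c (⟨b, Submonoid.mem_powers _⟩ : Submonoid.powers (b : R)), ?_⟩
    apply mul_left_cancel₀ hbK
    have h1 : algebraMap R K b = φ (algebraMap R _ b) := (hφa _).symm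
    have h2 : algebraMap R K c = algebraMap R K b * x := by
      rw [hc, Algebra.smul_def]
    rw [← h2, h1, ← map_mul, mul_comm]
    have h3 := IsLocalization.mk'_spec (Localization.Away (b : R)) c
      (⟨b, Submonoid.mem_powers _⟩ : Submonoid.powers (b : R))
    rw [h3, hφa]
  have h1 := hFc φ.range hmem
    (fun i => MvPolynomial.map (φ.rangeRestrict.comp (algebraMap R (Localization.Away (b : R)))) (H i))
    (fun i => φ.rangeRestrict (algebraMap R _ (q i))) (fun i => by
      rw [MvPolynomial.map_map]
      exact congrArg (fun s : R →+* K => MvPolynomial.map s (H i)) (RingHom.ext hφa))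
    (fun i => hφa _) L Lb (ψ.comp (e.symm : φ.range →+* Localization.Away (b : R)))
  have h2 : ∀ x : R, (ψ.comp (e.symm : φ.range →+* Localization.Away (b : R)))
      (φ.rangeRestrict (algebraMap R _ x)) = y x := by
    intro x
    have h3 : φ.rangeRestrict (algebraMap R (Localization.Away (b : R)) x) =
      e (algebraMap R _ x) := rfl
    rw [h3, RingHom.comp_apply]
    have h4 : (e.symm : φ.range →+* Localization.Away (b : R)) (e (algebraMap R _ x)) =
      algebraMap R _ x := e.symm_apply_apply _
    rw [h4, hψa]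
  have h5 : (fun i => MvPolynomial.map (ψ.comp (e.symm : φ.range →+* Localization.Away (b : R)))
      (MvPolynomial.map (φ.rangeRestrict.comp (algebraMap R (Localization.Away (b : R)))) (H i))) =
      mapT y H := by
    funext i
    rw [MvPolynomial.map_map]
    exact congrArg (fun s : R →+* L => MvPolynomial.map s (H i)) (RingHom.ext h2)
  rw [h5] at h1
  simpa only [h2] using h1

/-- Small multiplicity specialises. -/
theorem mult_spec {R K : Type} [CommRing R] [IsDomain R] [Field K] [Algebra R K]
    [IsFractionRing R K] {N e : ℕ} (H : Fin N → MvPolynomial (Fin N) R) (q : Fin N → R)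
    (h : MultLT (mapT (algebraMap R K) H) (fun i => algebraMap R K (q i)) e) :
    ∃ g : R, g ≠ 0 ∧ ∀ (L Lb : Type) [Field L] [Field Lb] [Algebra L Lb] (y : R →+* L), y g ≠ 0 →
      MultLT (mapT y H) (fun i => algebraMap L Lb (y (q i))) e := by
  refine spread_loc (fun K' Kb' _ _ _ H' q' => MultLT (K := K') (Kb := Kb') H' q' e)
    (K := K) H q ?_
  exact mult_spread _ _ h

end Pool.Agent.Helper58.IC
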