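import Pool.Agent.Helper58.IC.Main2
import Pool.Agent.Helper58.IC.MultSpec
import Pool.Agent.Helper53.RC.KeyNil
import Pool.Agent.Helper53.RC.NilSpread

/-!
# The main theorem with the nilpotency index
-/

set_option autoImplicit false

namespace Pool.Agent.Helper58.IC

open MvPolynomial Filter
open Pool.Agent.Helper65.RP (orb iter van Regular lead deh rst aff aeval_rst fibreIdeal ptIdeal
  rst_map rst_C rst_X_zero rst_X_succ)
open Pool.Agent.Helper53.RC (NilLT nil_spread nil_base nil_smul nil_iter key_unif_nil)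

/-- The nilpotency index has all the properties. -/
theorem good_nil : Good (fun K Kb _ _ _ _ H q e => NilLT (K := K) (Kb := Kb) H q e) where
  spread := by
    intro R K _ _ _ _ _ N e H q he h
    exact spread_loc (fun K' Kb' _ _ _ H' q' => NilLT (K := K') (Kb := Kb') H' q' e)
      (K := K) H q (nil_spread he _ _ h)
  smul := by
    intro K Kb _ _ _ N e d H hH q c hc h
    exact nil_smul hH hc h
  desc := by
    intro K E _ _ _ N e H q he h
    rw [← nil_base (K := K) (L := K) (Kb := E) H q he]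
    have h1 : fibreIdeal (mapT (algebraMap K E) H) (fun i => algebraMap K E (q i)) =
        fibreIdeal H (fun i => algebraMap K E (q i)) := by
      unfold fibreIdeal
      congr 1
      congr 1
      funext i
      rw [Algebra.algebraMap_self, MvPolynomial.map_id]
      congr 2
      rw [aeval_def, aeval_def, Algebra.algebraMap_self]
      unfold mapT
      rw [eval₂_map, RingHom.id_comp]
    unfold NilLT at h ⊢
    rw [h1] at h
    exact h
  key := by
    intro N d hd k₀ δ l hk₀ hl
    exact key_unif_nil hd k₀ δ l hk₀ hl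

/-- From the condition in homogeneous coordinates to the condition in the hyperplane. -/
theorem nil_rst {N d : ℕ} (hd : 2 ≤ d) {F : Fin (N + 1) → MvPolynomial (Fin (N + 1)) ℂ}
    (hF : ∀ i, (F i).IsHomogeneous d) (hF0 : F 0 = X 0 ^ d) (k e : ℕ) (y : Fin N → ℂ)
    (h : ptIdeal (Fin.cons 0 y : Fin (N + 1) → ℂ) ^ (e - 1) ≤
      Ideal.span (insert (X 0) (Set.range fun i =>
        iter F k i - C (eval (Fin.cons 0 y : Fin (N + 1) → ℂ) (iter F k i)))) ⊔
      ptIdeal (Fin.cons 0 y : Fin (N + 1) → ℂ) ^ e) :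
    NilLT (iter (lead d (aff F)) k) y e := by
  unfold NilLT
  set Y : Fin (N + 1) → ℂ := Fin.cons 0 y with hY
  have hpt : (ptIdeal Y).map (rst : MvPolynomial (Fin (N + 1)) ℂ →ₐ[ℂ] _) = ptIdeal y := by
    refine le_antisymm ?_ ?_
    · unfold ptIdeal
      rw [Ideal.map_span, Ideal.span_le]
      rintro _ ⟨_, ⟨i, rfl⟩, rfl⟩
      rw [SetLike.mem_coe]
      change rst (X i - C (Y i)) ∈ _
      refine Fin.cases ?_ (fun j => ?_) i
      · rw [map_sub, rst_X_zero, hY, Fin.cons_zero, C_0, map_zero, sub_zero]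
        exact Submodule.zero_mem _
      · rw [map_sub, rst_X_succ, hY, Fin.cons_succ, rst_C]
        exact Ideal.subset_span ⟨j, rfl⟩
    · unfold ptIdeal
      rw [Ideal.span_le]
      rintro _ ⟨j, rfl⟩
      rw [SetLike.mem_coe]
      have h1 : (X j - C (y j) : MvPolynomial (Fin N) ℂ) = rst (X j.succ - C (Y j.succ)) := by
        rw [map_sub, rst_X_succ, hY, Fin.cons_succ, rst_C]
      change (X j - C (y j) : MvPolynomial (Fin N) ℂ) ∈ _
      rw [h1]
      exact Ideal.mem_map_of_mem _ (Ideal.subset_span ⟨j.succ, rfl⟩)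
  have h1 := Ideal.map_mono (f := (rst : MvPolynomial (Fin (N + 1)) ℂ →ₐ[ℂ] _)) h
  rw [Ideal.map_sup, Ideal.map_pow, Ideal.map_pow, hpt] at h1
  refine h1.trans (sup_le_sup_right ?_ _)
  rw [Ideal.map_span, Ideal.span_le]
  rintro _ ⟨_, hx, rfl⟩
  rw [SetLike.mem_coe]
  rcases hx with rfl | ⟨i, rfl⟩
  · change rst (X 0) ∈ _
    rw [rst_X_zero]
    exact Submodule.zero_mem _
  · change rst (iter F k i - C (eval Y (iter F k i))) ∈ _
    refine Fin.cases ?_ (fun j => ?_) i
    · have h3 : d ^ k ≠ 0 := (Nat.pow_pos (by omega : 0 < d)).ne'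
      rw [iter_zero hF0, map_sub, map_pow, map_pow, rst_X_zero, rst_C,
        eval_X, hY, Fin.cons_zero, zero_pow h3, zero_pow h3, C_0, sub_zero]
      exact Submodule.zero_mem _
    · have h4 : eval Y (iter F k j.succ) = aeval y (iter (lead d (aff F)) k j) := by
        rw [hY, ← eval_rst, rst_iter (by omega) hF hF0, aeval_eq_eval]
      have h5 : (rst (iter F k j.succ) : MvPolynomial (Fin N) ℂ) =
          map (algebraMap ℂ ℂ) (iter (lead d (aff F)) k j) := by
        rw [rst_iter (by omega) hF hF0, Algebra.algebraMap_self, MvPolynomial.map_id]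
      rw [map_sub, h5, rst_C, h4]
      exact Ideal.subset_span ⟨j, rfl⟩

/-- The dynamical Mordell-Lang property for curves, over the complex numbers. -/
theorem main_nil {N d : ℕ} (hd : 2 ≤ d) (F : Fin (N + 1) → MvPolynomial (Fin (N + 1)) ℂ)
    (hF : ∀ i, (F i).IsHomogeneous d) (hF0 : F 0 = X 0 ^ d)
    (hnz : ∀ x : Fin (N + 1) → ℂ, (∀ i, eval x (F i) = 0) → x = 0)
    (S : Set (MvPolynomial (Fin (N + 1)) ℂ)) (hS : ∀ g ∈ S, ∃ e : ℕ, g.IsHomogeneous e)
    (hfin : ∃ B : Finset (Fin (N + 1) → ℂ), ∀ x : Fin (N + 1) → ℂ, x ≠ 0 → x 0 = 0 →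
      (∀ g ∈ S, eval x g = 0) → ∃ b ∈ B, ∃ c : ℂ, x = c • b)
    (hM : ∀ y : Fin (N + 1) → ℂ, y ≠ 0 → y 0 = 0 → (∀ g ∈ S, eval y g = 0) →
      (∃ (k : ℕ) (c : ℂ), 1 ≤ k ∧ ∀ i, eval y (iter F k i) = c * y i) →
      ∃ (k : ℕ) (c : ℂ), 1 ≤ k ∧ (∀ i, eval y (iter F k i) = c * y i) ∧
        ptIdeal y ^ (d ^ k - 1) ≤ Ideal.span (insert (X 0) (Set.range fun i =>
          iter F k i - C (eval y (iter F k i)))) ⊔ ptIdeal y ^ (d ^ k))
    (a : Fin (N + 1) → ℂ) (ha : a ≠ 0) :
    ∃ T : Finset (ℕ × ℕ),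
      {n : ℕ | ∀ g ∈ S, eval ((fun (x : Fin (N + 1) → ℂ) i => eval x (F i))^[n] a) g = 0} =
        {n : ℕ | ∃ q ∈ T, ∃ k : ℕ, n = q.1 * k + q.2} := by
  refine main_pr good_nil hd F hF hF0 hnz S hS hfin ?_ a ha
  intro y hy hyS k c hk hc
  set Y : Fin (N + 1) → ℂ := Fin.cons 0 y with hY
  have hY0 : Y ≠ 0 := by
    intro h0
    apply hy
    funext i
    have h2 := congrFun h0 i.succ
    rwa [hY, Fin.cons_succ] at h2
  have hiff : ∀ (k : ℕ) (c : ℂ), (∀ i, eval Y (iter F k i) = c * Y i) ↔
      ∀ i, eval y (iter (lead d (aff F)) k i) = c * y i := by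
    intro k c
    constructor
    · intro h i
      have h1 := h i.succ
      rw [hY, ← eval_rst, rst_iter (by omega) hF hF0, Fin.cons_succ] at h1
      exact h1
    · intro h i
      refine Fin.cases ?_ (fun j => ?_) i
      · rw [iter_zero hF0, map_pow, eval_X, hY, Fin.cons_zero, mul_zero,
          zero_pow (Nat.pow_pos (by omega : 0 < d)).ne']
      · rw [hY, ← eval_rst, rst_iter (by omega) hF hF0, Fin.cons_succ]
        exact h j
  obtain ⟨m, u, hm1, hmu, hm2⟩ := hM Y hY0 (by rw [hY, Fin.cons_zero]) hyS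
    ⟨k, c, hk, (hiff k c).2 hc⟩
  have hu0 : u ≠ 0 := by
    rintro rfl
    have hzero : ∀ n, (∀ i, eval Y (iter F n i) = 0) → False := by
      intro n
      induction n with
      | zero =>
        intro h
        apply hY0
        funext i
        have h1 := h i
        rw [iter, eval_X] at h1
        exact h1
      | succ n ih =>
        intro h
        refine ih fun i => ?_
        have h1 := hnz (fun j => eval Y (iter F n j)) (by
          intro i
          have h2 := h i
          have h3 : iter F (n + 1) i = bind₁ (iter F n) (F i) := rfl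
          have h4 := aeval_bind₁ Y (iter F n) (F i)
          simp only [aeval_eq_eval] at h4
          rw [← h4, ← h3]
          exact h2)
        exact congrFun h1 i
    exact hzero m fun i => by rw [hmu i, zero_mul]
  refine ⟨m, hm1, fun t ht1 ht2 => ?_⟩
  obtain ⟨s, rfl⟩ := ht2
  have hs : 1 ≤ s := by
    rcases Nat.eq_zero_or_pos s with h | h
    · rw [h, mul_zero] at ht1
      omega
    · exact h
  refine nil_iter (c := u) (by omega) (fun i => homogeneousComponent_isHomogeneous d _) hu0 ?_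
    (nil_rst hd hF hF0 m (d ^ m) y hm2) hs
  intro i
  rw [aeval_eq_eval]
  exact (hiff m u).1 hmu i

end Pool.Agent.Helper58.IC
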