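import Pool.Agent.Helper58.IC.Defs

/-!
# Polynomials of bounded growth at integral points

PROOF of T3a. Suppose `e = c.totalDegree > B`. The homogeneous component `c_e` is not zero, nor is
the top component `g_t` of `g₀`; the product of `c_e` with the image of `g_t` over `ℚ` is not zero,
so (`ℤ` is infinite: clear denominators and use `MvPolynomial.funext` over `ℤ`, or
`MvPolynomial.funext_set`) there is `w : Fin r → ℤ` with `c_e (w) ≠ 0` and `g_t (w) ≠ 0`. For natural
numbers `s` the numbers `g₀ (s w)` and `c (s w)` are values at `s` of one variable polynomials with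
leading coefficients `g_t (w)` (degree of `g₀`) and `c_e (w)` (degree `e`). So for all large `s` we
have `g₀ (s w) ≠ 0` and `|c (s w)| ≥ κ s ^ e` with `κ > 0`, while
`C (sz (s w)) ^ B ≤ C (s (1 + ∑ |w i|)) ^ B` for `s ≥ 1`. As `e > B` this is a contradiction for large
`s`.
-/

set_option autoImplicit false

namespace Pool.Agent.Helper58.IC

open MvPolynomial Filter
open Pool.Agent.Helper65.RP (MultLT orb iter van)

private theorem top_ne_zero {r : ℕ} (p : MvPolynomial (Fin r) ℚ) (hp : p ≠ 0) :
    homogeneousComponent p.totalDegree p ≠ 0 := by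
  obtain ⟨d, hd, hs⟩ := Finset.exists_mem_eq_sup p.support
    (Finset.nonempty_iff_ne_empty.2 (by simpa using hp)) (fun s => s.sum fun _ e => e)
  intro h
  have h1 := coeff_homogeneousComponent p.totalDegree p d
  have h2 : d.degree = p.totalDegree := by
    rw [MvPolynomial.totalDegree, hs]
    rfl
  rw [h, if_pos h2, coeff_zero] at h1
  exact (mem_support_iff.1 hd) h1.symm

private theorem line {r : ℕ} (p : MvPolynomial (Fin r) ℚ) (w : Fin r → ℤ)
    (hw : eval (fun i => (w i : ℚ)) (homogeneousComponent p.totalDegree p) ≠ 0) :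
    ∃ P : Polynomial ℝ, p.totalDegree ≤ P.natDegree ∧ P ≠ 0 ∧
      ∀ s : ℕ, P.eval (s : ℝ) =
        ((eval (fun i => (((s : ℤ) * w i : ℤ) : ℚ)) p : ℚ) : ℝ) := by
  classical
  set P : Polynomial ℝ := ∑ k ∈ Finset.range (p.totalDegree + 1),
    Polynomial.C (((eval (fun i => (w i : ℚ)) (homogeneousComponent k p) : ℚ) : ℝ)) *
      Polynomial.X ^ k with hP
  have hc : P.coeff p.totalDegree ≠ 0 := by
    rw [hP, Polynomial.finsetSum_coeff]
    simp only [Polynomial.coeff_C_mul, Polynomial.coeff_X_pow, mul_ite, mul_one, mul_zero]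
    rw [Finset.sum_ite_eq]
    rw [if_pos (Finset.self_mem_range_succ _)]
    exact_mod_cast hw
  refine ⟨P, Polynomial.le_natDegree_of_ne_zero hc, ?_, ?_⟩
  · intro h0
    rw [h0] at hc
    simp at hc
  · intro s
    have h1 : ∀ k, eval (fun i => (((s : ℤ) * w i : ℤ) : ℚ)) (homogeneousComponent k p) =
        (s : ℚ) ^ k * eval (fun i => (w i : ℚ)) (homogeneousComponent k p) := by
      intro k
      have h2 : (fun i => (((s : ℤ) * w i : ℤ) : ℚ)) = (s : ℚ) • (fun i => (w i : ℚ)) := by
        funext i
        simp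
      rw [h2]
      have h3 := (homogeneousComponent_isHomogeneous k p)
      rw [eval_eq', eval_eq', Finset.mul_sum]
      refine Finset.sum_congr rfl fun d hd => ?_
      have h5 : d.degree = k := by
        by_contra hne
        rw [mem_support_iff, coeff_homogeneousComponent, if_neg hne] at hd
        exact hd rfl
      have h6 : ∑ i, d i = k := by
        rw [← h5, Finsupp.degree_eq_sum]
      have h7 : ∏ i, ((s : ℚ) • (fun i => (w i : ℚ))) i ^ d i =
          (s : ℚ) ^ k * ∏ i, (w i : ℚ) ^ d i := by
        rw [← h6, ← Finset.prod_pow_eq_pow_sum, ← Finset.prod_mul_distrib]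
        refine Finset.prod_congr rfl fun i _ => ?_
        rw [← mul_pow]
        simp
      rw [h7]
      ring
    have h4 : eval (fun i => (((s : ℤ) * w i : ℤ) : ℚ)) p =
        ∑ k ∈ Finset.range (p.totalDegree + 1),
          (s : ℚ) ^ k * eval (fun i => (w i : ℚ)) (homogeneousComponent k p) := by
      conv_lhs => rw [← sum_homogeneousComponent p]
      rw [map_sum]
      exact Finset.sum_congr rfl fun k _ => h1 k
    rw [h4, hP, Polynomial.eval_finsetSum]
    push_cast
    refine Finset.sum_congr rfl fun k _ => ?_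
    rw [Polynomial.eval_mul, Polynomial.eval_C, Polynomial.eval_pow, Polynomial.eval_X, mul_comm]

/-- T3a. A polynomial which is of polynomial growth of degree `B` at the integral points off a
hypersurface has degree at most `B`. -/
theorem totalDegree_le_of_growth {r : ℕ} (c : MvPolynomial (Fin r) ℚ)
    (g₀ : MvPolynomial (Fin r) ℤ) (hg₀ : g₀ ≠ 0) (C : ℝ) (B : ℕ)
    (h : ∀ z : Fin r → ℤ, eval z g₀ ≠ 0 →
      |((eval (fun i => (z i : ℚ)) c : ℚ) : ℝ)| ≤ C * sz z ^ B) : c.totalDegree ≤ B := by
  by_contra hB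
  rw [not_le] at hB
  have hc : c ≠ 0 := by
    rintro rfl
    simp at hB
  set g : MvPolynomial (Fin r) ℚ := map (Int.castRingHom ℚ) g₀ with hg
  have hg0 : g ≠ 0 := by
    intro h0
    apply hg₀
    apply map_injective (Int.castRingHom ℚ) Int.cast_injective
    rw [← hg, h0, map_zero]
  have hprod : homogeneousComponent c.totalDegree c * homogeneousComponent g.totalDegree g ≠ 0 :=
    mul_ne_zero (top_ne_zero c hc) (top_ne_zero g hg0)
  obtain ⟨w, hw⟩ : ∃ w : Fin r → ℤ, eval (fun i => (w i : ℚ))
      (homogeneousComponent c.totalDegree c * homogeneousComponent g.totalDegree g) ≠ 0 := by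
    by_contra hcon
    push Not at hcon
    apply hprod
    refine funext_set (fun _ => Set.range (fun n : ℤ => (n : ℚ)))
      (fun _ => Set.infinite_range_of_injective Int.cast_injective) ?_
    intro x hx
    have hx' : ∀ i, ∃ n : ℤ, (n : ℚ) = x i := fun i => hx i (Set.mem_univ i)
    choose n hn using hx'
    have : x = fun i => (n i : ℚ) := by
      funext i
      exact (hn i).symm
    rw [this, hcon n, map_zero]
  rw [map_mul] at hw
  obtain ⟨P, hP1, hP2, hP3⟩ := line c w (left_ne_zero_of_mul hw)
  obtain ⟨G, hG1, hG2, hG3⟩ := line g w (right_ne_zero_of_mul hw)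
  set W : ℝ := ∑ i, |(w i : ℝ)| with hW
  set Q : Polynomial ℝ := Polynomial.C (|C| + 1) *
    (Polynomial.C 1 + Polynomial.C W * Polynomial.X) ^ B with hQ
  have hQd : Q.natDegree ≤ B := by
    rw [hQ]
    refine (Polynomial.natDegree_C_mul_le _ _).trans ?_
    refine (Polynomial.natDegree_pow_le).trans ?_
    have : (Polynomial.C 1 + Polynomial.C W * Polynomial.X : Polynomial ℝ).natDegree ≤ 1 := by
      compute_degree
    calc B * _ ≤ B * 1 := Nat.mul_le_mul_left _ this
      _ = B := mul_one B
  have hQ0 : Q ≠ 0 := by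
    intro h0
    have h1 : Q.eval 0 = 0 := by rw [h0]; simp
    rw [hQ] at h1
    simp at h1
    have := abs_nonneg C
    linarith
  have hdeg : Q.degree < P.degree := by
    apply Polynomial.degree_lt_degree
    omega
  have ht := (Polynomial.abs_div_tendsto_atTop_atTop_of_degree_gt P Q hdeg hQ0).comp
    tendsto_natCast_atTop_atTop
  have hroot := (tendsto_natCast_atTop_atTop (R := ℝ)).eventually
    (Polynomial.eventually_atTop_not_isRoot G hG2)
  obtain ⟨s, hs1, hs2, hs3⟩ := ((ht.eventually (eventually_gt_atTop 1)).and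
    (hroot.and (eventually_ge_atTop 1))).exists
  have hz : eval (fun i => (s : ℤ) * w i) g₀ ≠ 0 := by
    intro h0
    apply hs2
    rw [Polynomial.IsRoot.def, hG3 s]
    have : eval (fun i => (((s : ℤ) * w i : ℤ) : ℚ)) g = ((eval (fun i => (s : ℤ) * w i) g₀ : ℤ) : ℚ) := by
      rw [hg, eval_map]
      exact (eval₂_comp (Int.castRingHom ℚ) (fun i => (s : ℤ) * w i) g₀).symm
    rw [this, h0]
    simp
  have h1 := h _ hz
  have h2 : |P.eval (s : ℝ)| ≤ |Q.eval (s : ℝ)| := by
    rw [hP3 s]
    refine h1.trans ?_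
    have hsz : sz (fun i => (s : ℤ) * w i) = 1 + W * s := by
      rw [sz, hW, Finset.sum_mul]
      congr 1
      refine Finset.sum_congr rfl fun i _ => ?_
      push_cast
      rw [abs_mul, abs_of_nonneg (Nat.cast_nonneg s : (0 : ℝ) ≤ s), mul_comm]
    have hW0 : 0 ≤ W := Finset.sum_nonneg fun i _ => abs_nonneg _
    have hb : 0 ≤ 1 + W * s := by positivity
    rw [hsz, hQ]
    simp only [Polynomial.eval_mul, Polynomial.eval_C, Polynomial.eval_pow, Polynomial.eval_add,
      Polynomial.eval_X]
    rw [abs_of_nonneg (by positivity)]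
    apply mul_le_mul_of_nonneg_right _ (by positivity)
    linarith [le_abs_self C]
  simp only [Function.comp] at hs1
  rw [abs_div] at hs1
  have h3 : |P.eval (s : ℝ)| / |Q.eval (s : ℝ)| ≤ 1 := div_le_one_of_le₀ h2 (abs_nonneg _)
  linarith

end Pool.Agent.Helper58.IC
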