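import Pool.Agent.Helper58.IC.Defs

/-!
# Finitely many polynomials, finitely many rational numbers

T3b. Let `M = B + g₀.totalDegree` and let `Γ` be the finite set of the `z` with `0 ≤ z i ≤ M`. If two
members `c`, `c'` of the set have the same values at all `z ∈ Γ` with `g₀ (z) ≠ 0`, then
`(c - c') g₀` vanishes on `Γ` and has degree at most `M` in every variable, so it is zero
(`MvPolynomial.eq_zero_of_eval_zero_at_prod_finset` or the like), hence `c = c'`. So evaluation at
these points is injective on the set, with image in a product of finitely many finite sets.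

T3c. Let `q = a / b` in lowest terms, `b > 0`. If `p ∤ ℓ` then `p ∤ b`. If `p ∣ ℓ` then the exact power
of `p` dividing `b` is at most `max 1 (Cp p)`. So `b ≤ ∏_{p ∣ ℓ} max 1 (Cp p)`, and `|a| ≤ C b`.
-/

set_option autoImplicit false

namespace Pool.Agent.Helper58.IC

open MvPolynomial Filter
open Pool.Agent.Helper65.RP (MultLT orb iter van)

/-- T3b. Polynomials of bounded degree with finitely many possible values at every integral point
off a hypersurface. -/
theorem finite_of_values {r : ℕ} (g₀ : MvPolynomial (Fin r) ℤ) (hg₀ : g₀ ≠ 0) (B : ℕ)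
    (W : (Fin r → ℤ) → Set ℚ) (hW : ∀ z, (W z).Finite) :
    {c : MvPolynomial (Fin r) ℚ | c.totalDegree ≤ B ∧
      ∀ z : Fin r → ℤ, eval z g₀ ≠ 0 → eval (fun i => (z i : ℚ)) c ∈ W z}.Finite := by
  classical
  set M : ℕ := B + g₀.totalDegree with hM
  -- the points of the grid off the hypersurface
  let Γ : Set (Fin r → Fin (M + 1)) := {u | eval (fun i => ((u i : ℕ) : ℤ)) g₀ ≠ 0}
  let Φ : MvPolynomial (Fin r) ℚ → (Γ → ℚ) :=
    fun c u => eval (fun i => (((u.1 i : ℕ) : ℤ) : ℚ)) c
  have hfin : (Set.pi Set.univ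
      (fun u : Γ => W (fun i => ((u.1 i : ℕ) : ℤ)))).Finite :=
    Set.Finite.pi' (fun u => hW _) |>.subset (by
      intro f hf u
      exact hf u (Set.mem_univ u))
  refine Set.Finite.of_injOn (f := Φ) ?_ ?_ hfin
  · rintro c ⟨-, hc⟩ u -
    exact hc _ u.2
  · rintro c ⟨hcB, hc⟩ c' ⟨hcB', hc'⟩ hΦ
    have hg₁ : map (Int.castRingHom ℚ) g₀ ≠ 0 := by
      intro h
      apply hg₀
      apply map_injective (Int.castRingHom ℚ) (RingHom.injective_int _)
      rw [h, map_zero]
    have hP : (c - c') * map (Int.castRingHom ℚ) g₀ = 0 := by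
      apply MvPolynomial.eq_zero_of_eval_zero_at_prod_finset _
        (fun _ => (Finset.range (M + 1)).image (fun n : ℕ => (n : ℚ)))
      · intro i
        rw [Finset.card_image_of_injective _ Nat.cast_injective, Finset.card_range]
        refine Nat.lt_succ_of_le ?_
        refine (degreeOf_le_totalDegree _ _).trans ?_
        refine (totalDegree_mul _ _).trans ?_
        refine Nat.add_le_add ?_ ?_
        · exact (totalDegree_sub _ _).trans (max_le hcB hcB')
        · exact Finset.sup_mono (support_map_subset (Int.castRingHom ℚ) g₀)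
      · intro x hx
        have hx' : ∀ i, ∃ n : ℕ, n < M + 1 ∧ (n : ℚ) = x i := by
          intro i
          have := hx i
          rw [Finset.mem_image] at this
          obtain ⟨n, hn, hnx⟩ := this
          exact ⟨n, Finset.mem_range.1 hn, hnx⟩
        choose n hn hnx using hx'
        have hxn : x = fun i => ((n i : ℤ) : ℚ) := by
          funext i
          rw [← hnx i]
          push_cast
          rfl
        rw [map_mul, map_sub]
        by_cases hz : eval (fun i => ((n i : ℕ) : ℤ)) g₀ = 0
        · have : eval x (map (Int.castRingHom ℚ) g₀) = 0 := by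
            rw [hxn]
            have h1 := congrArg (Int.castRingHom ℚ) hz
            rw [map_zero, eval₂_comp] at h1
            rw [eval_map, ← h1]
            rfl
          rw [this, mul_zero]
        · have h1 := congrFun hΦ ⟨fun i => ⟨n i, hn i⟩, hz⟩
          have h2 : eval x c = eval x c' := by
            rw [hxn]
            exact h1
          rw [h2, sub_self, zero_mul]
    rcases mul_eq_zero.1 hP with h | h
    · exact sub_eq_zero.1 h
    · exact absurd h hg₁

/-- T3c. Rational numbers bounded at all places, by `1` at almost all of them. -/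
theorem finite_rat (ℓ : ℕ) (hℓ : ℓ ≠ 0) (C : ℝ) (Cp : ℕ → ℝ) :
    {q : ℚ | |(q : ℝ)| ≤ C ∧ ∀ (p : ℕ) [Fact p.Prime],
      ‖(q : ℚ_[p])‖ ≤ if p ∣ ℓ then Cp p else 1}.Finite := by
  classical
  set K : ℕ := ∏ p ∈ ℓ.primeFactors, ⌊max 1 (Cp p)⌋₊ with hK
  have hfin : ((Set.Icc (-⌈C * K⌉) ⌈C * K⌉) ×ˢ (Set.Iic K) : Set (ℤ × ℕ)).Finite :=
    (Set.finite_Icc _ _).prod (Set.finite_Iic _)
  refine (hfin.image (fun ab : ℤ × ℕ => (ab.1 : ℚ) / (ab.2 : ℚ))).subset ?_
  rintro q ⟨hqC, hq⟩
  have hden : q.den ≤ K := by
    have hpow : ∀ p ∈ q.den.primeFactors, p ∣ ℓ ∧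
        p ^ (q.den.factorization p) ≤ ⌊max 1 (Cp p)⌋₊ := by
      intro p hp
      have hpp : p.Prime := Nat.prime_of_mem_primeFactors hp
      have : Fact p.Prime := ⟨hpp⟩
      have hpd : p ∣ q.den := Nat.dvd_of_mem_primeFactors hp
      have hq0 : q ≠ 0 := by
        rintro rfl
        simp at hpd
        exact hpp.one_lt.ne' hpd
      have hnum : padicValInt p q.num = 0 := by
        apply padicValInt.eq_zero_of_not_dvd
        intro h
        have h1 : p ∣ q.num.natAbs := Int.natCast_dvd.1 h
        have h2 := Nat.dvd_gcd h1 hpd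
        rw [q.reduced] at h2
        exact hpp.one_lt.ne' (Nat.dvd_one.1 h2)
      have hnorm : ‖(q : ℚ_[p])‖ = (p : ℝ) ^ (q.den.factorization p) := by
        rw [Padic.eq_padicNorm, padicNorm.eq_zpow_of_nonzero hq0]
        rw [padicValRat, hnum, Nat.factorization_def _ hpp, Nat.cast_zero, zero_sub, neg_neg,
          zpow_natCast]
        push_cast
        rfl
      have h := hq p
      rw [hnorm] at h
      have hv : 1 ≤ q.den.factorization p :=
        (hpp.dvd_iff_one_le_factorization q.den_nz).1 hpd
      have hlt : (1 : ℝ) < (p : ℝ) ^ (q.den.factorization p) :=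
        one_lt_pow₀ (by exact_mod_cast hpp.one_lt) (by omega)
      by_cases hpl : p ∣ ℓ
      · refine ⟨hpl, ?_⟩
        rw [if_pos hpl] at h
        apply Nat.le_floor
        push_cast
        exact h.trans (le_max_right _ _)
      · rw [if_neg hpl] at h
        exact absurd h (not_le.2 hlt)
    calc q.den = ∏ p ∈ q.den.primeFactors, p ^ (q.den.factorization p) := by
          conv_lhs => rw [← Nat.prod_factorization_pow_eq_self q.den_nz]
          rfl
      _ ≤ ∏ p ∈ q.den.primeFactors, ⌊max 1 (Cp p)⌋₊ :=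
          Finset.prod_le_prod' (fun p hp => (hpow p hp).2)
      _ ≤ K := by
          apply Finset.prod_le_prod_of_subset_of_one_le'
          · intro p hp
            rw [Nat.mem_primeFactors]
            exact ⟨Nat.prime_of_mem_primeFactors hp, (hpow p hp).1, hℓ⟩
          · intro p _ _
            rw [Nat.one_le_floor_iff]
            exact le_max_left _ _
  have hCK : |(q.num : ℝ)| ≤ C * K := by
    have h1 : (q.num : ℝ) = (q : ℝ) * (q.den : ℝ) := by
      have := Rat.mul_den_eq_num q
      exact_mod_cast this.symm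
    rw [h1, abs_mul, abs_of_nonneg (Nat.cast_nonneg q.den : (0 : ℝ) ≤ (q.den : ℝ))]
    have hC : 0 ≤ C := (abs_nonneg _).trans hqC
    exact mul_le_mul hqC (by exact_mod_cast hden) (Nat.cast_nonneg _) hC
  refine ⟨(q.num, q.den), ⟨⟨?_, ?_⟩, hden⟩, Rat.num_div_den q⟩
  · have h1 := (abs_le.1 hCK).1
    have h2 := Int.le_ceil (C * (K : ℝ))
    have : (-((⌈C * (K : ℝ)⌉ : ℤ) : ℝ)) ≤ (q.num : ℝ) := by linarith
    exact_mod_cast this
  · have h1 := (abs_le.1 hCK).2
    have h2 := Int.le_ceil (C * (K : ℝ))
    have : (q.num : ℝ) ≤ ((⌈C * (K : ℝ)⌉ : ℤ) : ℝ) := by linarith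
    exact_mod_cast this

end Pool.Agent.Helper58.IC
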