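import Pool.Agent.Helper58.IC.Root
import Pool.Agent.Helper58.IC.GrowthZ
import Pool.Agent.Helper58.IC.Values

/-!
# Finiteness from bounds at all places

PROOF of T3. `A = MvPolynomial (Fin r) ℤ`. For `x ∈ 𝒳` choose `m` with `ℓ ^ m x` integral over `A`
(`hB.int`), let `p = minpoly A (ℓ ^ m x)`, `e = p.natDegree ≤ D` (`natDegree_minpoly_le`), and
`c_j = p_j / ℓ ^ (m (e - j))` in `ℚ[T] = MvPolynomial (Fin r) ℚ`, so that `q_x = ∑ c_j X ^ j` is monic
of degree `e` and `q_x (x) = 0` (in the fraction field of `R`, or in the form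
`∑_j p_j (ℓ ^ m x) ^ j = 0`).

(i) Let `z` be such that `g₀ (z) ≠ 0`, and `Ω = ℂ`, or `Ω = PadicAlgCl p` with `p ∣ ℓ`. Every root `α`
in `Ω` of the polynomial `minpoly A (ℓ ^ m x)` specialised at `z` is `y (ℓ ^ m x) = ℓ ^ m y (x)` for
some specialisation `y : R →+* Ω` (`exists_spec_root`), so `‖α‖ ≤ ‖ℓ ^ m‖ b` with
`b = max 1 (C sz z ^ B)`, resp. `b = max 1 C_p`. By `Polynomial.coeff_le_of_roots_le` (and
`choose ≤ 2 ^ D`) this gives `‖c_j (z)‖ ≤ b ^ D * 2 ^ D`. For the primes `p ∤ ℓ` the bound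
`‖c_j (z)‖_p ≤ 1` is trivial: `p_j (z)` is an integer and `‖ℓ‖_p = 1`.

(ii) The archimedean bound is `≤ C' sz z ^ (B D)`, so `c_j.totalDegree ≤ B D` by
`totalDegree_le_of_growth`. By (i) and `finite_rat` the value of `c_j` at each `z` with `g₀ (z) ≠ 0`
lies in a finite set `W z` which does not depend on `x`, `j`. By `finite_of_values` there are finitely
many possibilities for the `c_j`, so finitely many for `q_x` (degree `≤ D`), and each has finitely
many roots in the domain `R` (in its fraction field).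
-/

set_option autoImplicit false

namespace Pool.Agent.Helper58.IC

open MvPolynomial Filter
open Pool.Agent.Helper65.RP (MultLT orb iter van)

section aux

/-- Coefficients of a monic polynomial whose roots are bounded. -/
private lemma coeff_bound {Ω : Type} [NormedField Ω] [IsAlgClosed Ω] (P : Polynomial Ω)
    (hP : P.Monic) (s : Ω) (hs : s ≠ 0) (b : ℝ) (hb : 1 ≤ b) (D : ℕ) (hD : P.natDegree ≤ D)
    (h : ∀ α ∈ P.roots, ‖α‖ ≤ ‖s‖ * b) (i : ℕ) :
    ‖P.coeff i * s⁻¹ ^ (P.natDegree - i)‖ ≤ b ^ D * 2 ^ D := by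
  have h1 := Polynomial.coeff_le_of_roots_le (f := RingHom.id Ω) (B := ‖s‖ * b) i hP
    (by rw [Polynomial.map_id]; exact IsAlgClosed.splits P) (by rw [Polynomial.map_id]; exact h)
  rw [Polynomial.map_id] at h1
  have hs0 : 0 < ‖s‖ := norm_pos_iff.2 hs
  set e := P.natDegree with he
  have h2 : ‖P.coeff i * s⁻¹ ^ (e - i)‖ ≤ b ^ (e - i) * (e.choose i : ℝ) := by
    rw [norm_mul, norm_pow, norm_inv]
    calc ‖P.coeff i‖ * ‖s‖⁻¹ ^ (e - i)
        ≤ ((‖s‖ * b) ^ (e - i) * (e.choose i : ℝ)) * ‖s‖⁻¹ ^ (e - i) :=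
          mul_le_mul_of_nonneg_right h1 (by positivity)
      _ = b ^ (e - i) * (e.choose i : ℝ) := by
          rw [mul_pow]
          have h3 : ‖s‖ ^ (e - i) * ‖s‖⁻¹ ^ (e - i) = 1 := by
            rw [← mul_pow, mul_inv_cancel₀ hs0.ne', one_pow]
          linear_combination (b ^ (e - i) * (e.choose i : ℝ)) * h3
  refine h2.trans ?_
  have h4 : b ^ (e - i) ≤ b ^ D := pow_le_pow_right₀ hb (by omega)
  have h5 : (e.choose i : ℝ) ≤ 2 ^ D := by
    have h6 : e.choose i ≤ 2 ^ D :=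
      (Nat.choose_le_two_pow e i).trans (Nat.pow_le_pow_right (by norm_num) hD)
    exact_mod_cast h6
  exact mul_le_mul h4 h5 (Nat.cast_nonneg _) (by positivity)

/-- Finitely many polynomials of bounded degree with coefficients in a finite set. -/
private lemma finite_polys {S : Type} [CommRing S] (D : ℕ) (T : Set S) (hT : T.Finite) :
    {q : Polynomial S | q.natDegree ≤ D ∧ ∀ j, q.coeff j ∈ T}.Finite := by
  refine Set.Finite.of_injOn (f := fun (q : Polynomial S) (j : Fin (D + 1)) => q.coeff j)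
    (t := Set.pi Set.univ fun _ => T) ?_ ?_ (Set.Finite.pi fun _ => hT)
  · intro q hq j _
    exact hq.2 j
  · intro q hq q' hq' h
    ext j
    by_cases hj : j ≤ D
    · exact congrFun h ⟨j, by omega⟩
    · rw [Polynomial.coeff_eq_zero_of_natDegree_lt (by have := hq.1; omega),
        Polynomial.coeff_eq_zero_of_natDegree_lt (by have := hq'.1; omega)]

private lemma eval_castQ {r : ℕ} (z : Fin r → ℤ) (P : MvPolynomial (Fin r) ℤ) :
    eval (fun i => (z i : ℚ)) (map (Int.castRingHom ℚ) P) = ((eval z P : ℤ) : ℚ) := by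
  rw [eval_map]
  have h1 := eval₂_comp (Int.castRingHom ℚ) z P
  simp only [eq_intCast] at h1
  rw [h1]
  rfl

end aux

section base
variable {r ℓ D : ℕ} {R : Type} [CommRing R] [IsDomain R] [Algebra (MvPolynomial (Fin r) ℤ) R]

/-- T3. Finiteness from bounds at all places. -/
theorem finite_of_bounded (hB : IsBase r ℓ D R) (𝒳 : Set R) (g₀ : MvPolynomial (Fin r) ℤ)
    (hg₀ : g₀ ≠ 0) (C : ℝ) (B : ℕ)
    (h1 : ∀ x ∈ 𝒳, ∀ z : Fin r → ℤ, eval z g₀ ≠ 0 → ∀ y : R →+* ℂ, IsSpec z y →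
      ‖y x‖ ≤ C * sz z ^ B)
    (h2 : ∀ (p : ℕ) [Fact p.Prime], ∃ C : ℝ, ∀ x ∈ 𝒳, ∀ z : Fin r → ℤ, eval z g₀ ≠ 0 →
      ∀ y : R →+* PadicAlgCl p, IsSpec z y → ‖y x‖ ≤ C) : 𝒳.Finite := by
  classical
  have hℓ : ℓ ≠ 0 := hB.pos
  -- the rational polynomial attached to an element
  let ιA : MvPolynomial (Fin r) ℤ →+* MvPolynomial (Fin r) ℚ := map (Int.castRingHom ℚ)
  choose m hm using hB.int
  let pp : R → Polynomial (MvPolynomial (Fin r) ℤ) := fun x =>
    minpoly (MvPolynomial (Fin r) ℤ) ((ℓ : R) ^ m x * x)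
  have hmon : ∀ x, (pp x).Monic := fun x => minpoly.monic (hm x)
  have hdeg : ∀ x, (pp x).natDegree ≤ D := fun x => natDegree_minpoly_le hB _ (hm x)
  let sc : R → ℚ := fun x => ((ℓ : ℚ) ^ m x)⁻¹
  let qq : R → Polynomial (MvPolynomial (Fin r) ℚ) := fun x =>
    Polynomial.scaleRoots ((pp x).map ιA) (MvPolynomial.C (sc x))
  have hqdeg : ∀ x, (qq x).natDegree ≤ D := by
    intro x
    have e1 : (qq x).natDegree = ((pp x).map ιA).natDegree := Polynomial.natDegree_scaleRoots _ _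
    rw [e1, (hmon x).natDegree_map ιA]
    exact hdeg x
  have hqmon : ∀ x, (qq x).Monic := fun x =>
    (Polynomial.monic_scaleRoots_iff (MvPolynomial.C (sc x))).2 ((hmon x).map ιA)
  have hqc : ∀ x j, (qq x).coeff j = ιA ((pp x).coeff j) * MvPolynomial.C (sc x) ^ ((pp x).natDegree - j) := by
    intro x j
    have e1 : (qq x).coeff j = ((pp x).map ιA).coeff j *
      MvPolynomial.C (sc x) ^ (((pp x).map ιA).natDegree - j) := Polynomial.coeff_scaleRoots _ _ _
    rw [e1, Polynomial.coeff_map, (hmon x).natDegree_map ιA]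
  have hqe : ∀ x j (z : Fin r → ℤ), eval (fun i => (z i : ℚ)) ((qq x).coeff j) =
      ((eval z ((pp x).coeff j) : ℤ) : ℚ) * sc x ^ ((pp x).natDegree - j) := by
    intro x j z
    rw [hqc, map_mul, map_pow, eval_C]
    congr 1
    exact eval_castQ z _
  -- bounds at a place
  have hplace : ∀ (Ω : Type) [NormedField Ω] [IsAlgClosed Ω] [CharZero Ω] (x : R)
      (z : Fin r → ℤ) (b : ℝ), 1 ≤ b → (∀ y : R →+* Ω, IsSpec z y → ‖y x‖ ≤ b) →
      ∀ j, ‖(((eval (fun i => (z i : ℚ)) ((qq x).coeff j) : ℚ)) : Ω)‖ ≤ b ^ D * 2 ^ D := by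
    intro Ω _ _ _ x z b hb hy j
    set σ : MvPolynomial (Fin r) ℤ →+* Ω := (Int.castRingHom Ω).comp (eval z) with hσ
    have hs : ((ℓ : Ω) ^ m x) ≠ 0 := pow_ne_zero _ (Nat.cast_ne_zero.2 hℓ)
    have e1 := coeff_bound ((pp x).map σ) ((hmon x).map σ) ((ℓ : Ω) ^ m x) hs b hb D
      (by rw [(hmon x).natDegree_map σ]; exact hdeg x) (by
        intro α hα
        have hα2 : ((pp x).map σ).eval α = 0 := (Polynomial.mem_roots'.1 hα).2
        obtain ⟨y, hy1, hy2⟩ := exists_spec_root hB _ (hm x) z α hα2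
        rw [← hy2, map_mul, map_pow, map_natCast, norm_mul]
        exact mul_le_mul_of_nonneg_left (hy y hy1) (norm_nonneg _)) j
    rw [(hmon x).natDegree_map σ, Polynomial.coeff_map] at e1
    have e2 : (((eval (fun i => (z i : ℚ)) ((qq x).coeff j) : ℚ)) : Ω) =
        σ ((pp x).coeff j) * ((ℓ : Ω) ^ m x)⁻¹ ^ ((pp x).natDegree - j) := by
      have e3 : σ ((pp x).coeff j) = ((eval z ((pp x).coeff j) : ℤ) : Ω) := rfl
      have e4 : ((sc x : ℚ) : Ω) = ((ℓ : Ω) ^ m x)⁻¹ := by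
        simp only [sc]
        push_cast
        rfl
      rw [hqe, e3, ← e4]
      push_cast
      rfl
    rw [e2]
    exact e1
  -- archimedean bound
  have hsz : ∀ z : Fin r → ℤ, 1 ≤ sz z := fun z => by
    unfold sz
    have : 0 ≤ ∑ i, |(z i : ℝ)| := Finset.sum_nonneg fun _ _ => abs_nonneg _
    linarith
  set C' : ℝ := (max 1 C) ^ D * 2 ^ D with hC'
  have harch : ∀ x ∈ 𝒳, ∀ j, ∀ z : Fin r → ℤ, eval z g₀ ≠ 0 →
      |((eval (fun i => (z i : ℚ)) ((qq x).coeff j) : ℚ) : ℝ)| ≤ C' * sz z ^ (B * D) := by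
    intro x hx j z hz
    have hb1 : 1 ≤ max 1 C * sz z ^ B :=
      one_le_mul_of_one_le_of_one_le (le_max_left _ _) (one_le_pow₀ (hsz z))
    have e1 := hplace ℂ x z (max 1 C * sz z ^ B) hb1 (fun y hy => (h1 x hx z hz y hy).trans
      (mul_le_mul_of_nonneg_right (le_max_right _ _)
        (pow_nonneg (zero_le_one.trans (hsz z)) _))) j
    have e2 : ‖(((eval (fun i => (z i : ℚ)) ((qq x).coeff j) : ℚ)) : ℂ)‖ =
        |((eval (fun i => (z i : ℚ)) ((qq x).coeff j) : ℚ) : ℝ)| := by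
      rw [← Complex.ofReal_ratCast, Complex.norm_real, Real.norm_eq_abs]
    rw [e2] at e1
    refine e1.trans (le_of_eq ?_)
    rw [hC', mul_pow, ← pow_mul]
    ring
  -- p-adic bounds
  let Cp : ℕ → ℝ := fun p => if hp : p.Prime then
    (max 1 (@h2 p ⟨hp⟩).choose) ^ D * 2 ^ D else 0
  have hpad : ∀ x ∈ 𝒳, ∀ j, ∀ z : Fin r → ℤ, eval z g₀ ≠ 0 → ∀ (p : ℕ) [Fact p.Prime],
      ‖((eval (fun i => (z i : ℚ)) ((qq x).coeff j) : ℚ) : ℚ_[p])‖ ≤
        if p ∣ ℓ then Cp p else 1 := by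
    intro x hx j z hz p _
    split_ifs with hp
    · have e1 := hplace (PadicAlgCl p) x z (max 1 (h2 p).choose) (le_max_left _ _)
        (fun y hy => ((h2 p).choose_spec x hx z hz y hy).trans (le_max_right _ _)) j
      have e2 : ‖(((eval (fun i => (z i : ℚ)) ((qq x).coeff j) : ℚ)) : PadicAlgCl p)‖ =
          ‖((eval (fun i => (z i : ℚ)) ((qq x).coeff j) : ℚ) : ℚ_[p])‖ := by
        rw [← PadicAlgCl.norm_extends, map_ratCast]
      rw [e2] at e1
      have e3 : Cp p = (max 1 (h2 p).choose) ^ D * 2 ^ D := by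
        simp only [Cp]
        rw [dif_pos (Fact.out : p.Prime)]
      rw [e3]
      exact e1
    · rw [hqe]
      push_cast
      rw [norm_mul, norm_pow]
      have e1 : ‖((eval z ((pp x).coeff j) : ℤ) : ℚ_[p])‖ ≤ 1 := Padic.norm_int_le_one _
      have e2 : ‖((sc x : ℚ) : ℚ_[p])‖ = 1 := by
        have e3 : ‖((ℓ : ℕ) : ℚ_[p])‖ = 1 := by
          have e5 : ‖((ℓ : ℕ) : ℚ_[p])‖ ≤ 1 := by
            have := Padic.norm_int_le_one (p := p) (ℓ : ℤ)
            exact_mod_cast this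
          rcases lt_or_eq_of_le e5 with h | h
          · exact absurd (Padic.norm_natCast_lt_one_iff.1 h) hp
          · exact h
        simp only [sc]
        push_cast
        rw [norm_inv, norm_pow, e3, one_pow, inv_one]
      rw [e2, one_pow, mul_one]
      exact e1
  -- finitely many coefficients
  let W : (Fin r → ℤ) → Set ℚ := fun z => {q : ℚ | |(q : ℝ)| ≤ C' * sz z ^ (B * D) ∧
    ∀ (p : ℕ) [Fact p.Prime], ‖(q : ℚ_[p])‖ ≤ if p ∣ ℓ then Cp p else 1}
  have hW : ∀ z, (W z).Finite := fun z => finite_rat ℓ hℓ _ Cp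
  have hT := finite_of_values g₀ hg₀ (B * D) W hW
  have hQ := finite_polys D _ hT
  have hmem : ∀ x ∈ 𝒳, qq x ∈ {q : Polynomial (MvPolynomial (Fin r) ℚ) | q.natDegree ≤ D ∧
      ∀ j, q.coeff j ∈ {c : MvPolynomial (Fin r) ℚ | c.totalDegree ≤ B * D ∧
      ∀ z : Fin r → ℤ, eval z g₀ ≠ 0 → eval (fun i => (z i : ℚ)) c ∈ W z}} := by
    intro x hx
    refine ⟨hqdeg x, fun j => ⟨?_, ?_⟩⟩
    · exact totalDegree_le_of_growth _ g₀ hg₀ C' (B * D) fun z hz => harch x hx j z hz
    · intro z hz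
      exact ⟨harch x hx j z hz, fun p _ => hpad x hx j z hz p⟩
  -- the fraction field
  have : CharZero R := by
    have : CharZero (MvPolynomial (Fin r) ℤ) := inferInstance
    exact charZero_of_injective_algebraMap hB.inj
  have : CharZero (FractionRing R) :=
    charZero_of_injective_algebraMap (IsFractionRing.injective R (FractionRing R))
  let φ : MvPolynomial (Fin r) ℚ →+* FractionRing R :=
    eval₂Hom (algebraMap ℚ (FractionRing R)) fun i =>
      algebraMap R (FractionRing R) (algebraMap (MvPolynomial (Fin r) ℤ) R (X i))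
  have hφ : φ.comp ιA = (algebraMap R (FractionRing R)).comp
      (algebraMap (MvPolynomial (Fin r) ℤ) R) := by
    refine MvPolynomial.ringHom_ext' ?_ ?_
    · exact RingHom.ext_int _ _
    · intro i
      simp [φ, ιA]
  have hroot : ∀ x, Polynomial.eval₂ φ (algebraMap R (FractionRing R) x) (qq x) = 0 := by
    intro x
    have e1 : Polynomial.eval₂ φ (algebraMap R (FractionRing R) ((ℓ : R) ^ m x * x))
        ((pp x).map ιA) = 0 := by
      rw [Polynomial.eval₂_map, hφ, ← Polynomial.hom_eval₂]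
      have e2 : Polynomial.eval₂ (algebraMap (MvPolynomial (Fin r) ℤ) R)
          ((ℓ : R) ^ m x * x) (pp x) = 0 := minpoly.aeval _ _
      rw [e2, map_zero]
    have e3 := Polynomial.scaleRoots_eval₂_eq_zero φ (s := MvPolynomial.C (sc x)) e1
    have e4 : φ (MvPolynomial.C (sc x)) * algebraMap R (FractionRing R) ((ℓ : R) ^ m x * x) =
        algebraMap R (FractionRing R) x := by
      have e5 : φ (MvPolynomial.C (sc x)) = ((ℓ : FractionRing R) ^ m x)⁻¹ := by
        simp [φ, sc]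
      have e6 : ((ℓ : FractionRing R) ^ m x) ≠ 0 := pow_ne_zero _ (Nat.cast_ne_zero.2 hℓ)
      rw [e5, map_mul, map_pow, map_natCast, inv_mul_cancel_left₀ e6]
    rw [e4] at e3
    exact e3
  refine Set.Finite.subset (Set.Finite.biUnion hQ
    (t := fun q => if q.Monic then {x : R | Polynomial.eval₂ φ
      (algebraMap R (FractionRing R) x) q = 0} else ∅) ?_) ?_
  · intro q _
    split_ifs with hq
    · have e1 : {k : FractionRing R | (q.map φ).IsRoot k}.Finite :=
        Polynomial.finite_setOfPred_isRoot (hq.map φ).ne_zero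
      refine (e1.preimage (f := algebraMap R (FractionRing R))
        (IsFractionRing.injective R (FractionRing R)).injOn).subset ?_
      intro x hx
      rw [Set.mem_preimage, Set.mem_ofPred_eq, Polynomial.IsRoot, Polynomial.eval_map]
      exact hx
    · exact Set.finite_empty
  · intro x hx
    refine Set.mem_biUnion (hmem x hx) ?_
    rw [if_pos (hqmon x)]
    exact hroot x

end base

end Pool.Agent.Helper58.IC
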