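import Pool.Agent.Helper58.IC.Density
import Pool.Agent.Helper65.RP.Complex

/-!
# The generic conclusion
-/

set_option autoImplicit false

namespace Pool.Agent.Helper58.IC

open MvPolynomial Filter
open Pool.Agent.Helper65.RP (MultLT orb iter van vanE vanE_isPrime prime_eq orb_period
  exists_eventually_mem)

/-- Specialisation of the iterates. -/
lemma iter_mapT {R L : Type} [CommRing R] [Field L] {N : ℕ} (y : R →+* L)
    (f : Fin N → MvPolynomial (Fin N) R) (k : ℕ) (i : Fin N) :
    iter (mapT y f) k i = MvPolynomial.map y (iterR f k i) := by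
  induction k generalizing i with
  | zero => simp [iter, iterR]
  | succ k ih =>
    have h1 : iter (mapT y f) (k + 1) i = bind₁ (iter (mapT y f) k) (mapT y f i) := rfl
    have h2 : iterR f (k + 1) i = bind₁ (iterR f k) (f i) := rfl
    rw [h1, h2, map_bind₁]
    congr 2
    funext j
    exact ih j

/-- If all coordinates are almost everywhere roots of fixed polynomials, the orbit is finite. -/
lemma range_finite {K : Type} [Field K] {N : ℕ} {f : Fin N → MvPolynomial (Fin N) K}
    {b : Fin N → K} {𝒰 : Ultrafilter ℕ} (h𝒰 : (𝒰 : Filter ℕ) ≤ atTop) (p : Fin N → Polynomial K)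
    (hp : ∀ i, p i ≠ 0) (h : ∀ i, ∀ᶠ n in (𝒰 : Filter ℕ), (p i).eval (orb f b n i) = 0) :
    (Set.range (orb f b)).Finite := by
  classical
  have h2 : ∀ᶠ n in (𝒰 : Filter ℕ), ∀ i, orb f b n i ∈ (p i).roots.toFinset := by
    rw [eventually_all]
    intro i
    filter_upwards [h i] with n hn
    rw [Multiset.mem_toFinset, Polynomial.mem_roots (hp i)]
    exact hn
  set B : Finset (Fin N → K) := Fintype.piFinset fun i => (p i).roots.toFinset with hB
  have h3 : ∀ᶠ n in (𝒰 : Filter ℕ), ∃ x ∈ B, orb f b n = x := by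
    filter_upwards [h2] with n hn
    exact ⟨_, Fintype.mem_piFinset.2 hn, rfl⟩
  obtain ⟨x, _, hx⟩ := exists_eventually_mem B h3
  obtain ⟨n₁, hn₁⟩ := hx.exists
  obtain ⟨n₂, hn₂, hlt⟩ := (hx.and (h𝒰 (eventually_gt_atTop n₁))).exists
  have hper : ∀ n, n₁ ≤ n → orb f b (n + (n₂ - n₁)) = orb f b n := by
    intro n hn
    refine orb_period (n₀ := n₁) ?_ n hn
    rw [show n₁ + (n₂ - n₁) = n₂ by omega, hn₂, hn₁]
  have hfin : ∀ n, orb f b n ∈ (Finset.range n₂).image (orb f b) := by
    intro n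
    induction n using Nat.strong_induction_on with
    | _ n ih =>
      by_cases h : n < n₂
      · exact Finset.mem_image_of_mem _ (Finset.mem_range.2 h)
      · have h4 := hper (n - (n₂ - n₁)) (by omega)
        rw [show n - (n₂ - n₁) + (n₂ - n₁) = n by omega] at h4
        rw [h4]
        exact ih _ (by omega)
  refine ((Finset.range n₂).image (orb f b)).finite_toSet.subset ?_
  rintro _ ⟨n, rfl⟩
  exact hfin n

/-- Coordinates are algebraic modulo an ideal strictly larger than a prime of coheight one. -/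
lemma exists_poly {K : Type} [Field K] {N : ℕ} (Q : Ideal (MvPolynomial (Fin N) K))
    [hQ : Q.IsPrime] (hdim : ringKrullDim (MvPolynomial (Fin N) K ⧸ Q) ≤ 1)
    (G : MvPolynomial (Fin N) K) (hG : G ∉ Q) (i : Fin N) :
    ∃ p : Polynomial K, p ≠ 0 ∧ Polynomial.aeval (X i : MvPolynomial (Fin N) K) p ∈
      Q ⊔ Ideal.span {G} := by
  classical
  set J := Q ⊔ Ideal.span {G} with hJ
  have hmax : ∀ 𝔭 ∈ J.minimalPrimes, 𝔭.IsMaximal := by
    intro 𝔭 h𝔭
    haveI : 𝔭.IsPrime := h𝔭.1.1
    by_contra hm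
    have h1 : Q ≤ 𝔭 := le_trans le_sup_left h𝔭.1.2
    have h2 := prime_eq h1 hdim hm
    apply hG
    rw [h2]
    exact h𝔭.1.2 (Ideal.mem_sup_right (Ideal.mem_span_singleton_self G))
  have hp : ∀ 𝔭 ∈ J.minimalPrimes, ∃ p : Polynomial K, p ≠ 0 ∧
      Polynomial.aeval (X i : MvPolynomial (Fin N) K) p ∈ 𝔭 := by
    intro 𝔭 h𝔭
    haveI := hmax 𝔭 h𝔭
    letI : Field (MvPolynomial (Fin N) K ⧸ 𝔭) := Ideal.Quotient.field 𝔭
    haveI : Module.Finite K (MvPolynomial (Fin N) K ⧸ 𝔭) :=
      finite_of_finite_type_of_isJacobsonRing K (MvPolynomial (Fin N) K ⧸ 𝔭)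
    obtain ⟨p, hp, hp0⟩ : IsAlgebraic K (Ideal.Quotient.mk 𝔭 (X i)) :=
      (Algebra.IsAlgebraic.isAlgebraic (R := K) _)
    refine ⟨p, hp, ?_⟩
    have h3 : Ideal.Quotient.mk 𝔭 (Polynomial.aeval (X i) p) = 0 := by
      rw [← hp0]
      exact (Polynomial.aeval_algHom_apply (Ideal.Quotient.mkₐ K 𝔭) (X i) p).symm
    exact Ideal.Quotient.eq_zero_iff_mem.1 h3
  have hfin : J.minimalPrimes.Finite := Ideal.finite_minimalPrimes_of_isNoetherianRing _ J
  choose! P hP0 hP using hp
  set p : Polynomial K := ∏ 𝔭 ∈ hfin.toFinset, P 𝔭 with hpd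
  have h1 : Polynomial.aeval (X i : MvPolynomial (Fin N) K) p ∈ J.radical := by
    rw [← Ideal.sInf_minimalPrimes, Submodule.mem_sInf]
    intro 𝔭 h𝔭
    rw [hpd, map_prod, ← Finset.mul_prod_erase _ _ (hfin.mem_toFinset.2 h𝔭)]
    exact Ideal.mul_mem_right _ _ (hP 𝔭 h𝔭)
  obtain ⟨n, hn⟩ := h1
  refine ⟨p ^ n, pow_ne_zero _ ?_, ?_⟩
  · rw [hpd]
    exact Finset.prod_ne_zero_iff.2 fun 𝔭 h𝔭 => hP0 𝔭 (hfin.mem_toFinset.1 h𝔭)
  · rw [map_pow]
    exact hn

/-- Common denominators for finitely many polynomials. -/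
lemma exists_denom {R K : Type} [CommRing R] [IsDomain R] [Field K] [Algebra R K]
    [IsFractionRing R K] {σ : Type} (s : Finset (MvPolynomial σ K)) :
    ∃ g : R, g ≠ 0 ∧ ∀ p ∈ s, ∃ q : MvPolynomial σ R,
      MvPolynomial.map (algebraMap R K) q = C (algebraMap R K g) * p := by
  classical
  obtain ⟨b, hb⟩ := IsLocalization.exist_integer_multiples_of_finset (nonZeroDivisors R)
    (s.biUnion fun p => p.support.image fun m => p.coeff m)
  refine ⟨b, nonZeroDivisors.coe_ne_zero b, fun p hp => ?_⟩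
  have h1 : ∀ m, ∃ c : R, algebraMap R K c = algebraMap R K b * p.coeff m := by
    intro m
    by_cases hm : m ∈ p.support
    · obtain ⟨c, hc⟩ := hb (p.coeff m) (Finset.mem_biUnion.2 ⟨p, hp,
        Finset.mem_image_of_mem _ hm⟩)
      refine ⟨c, ?_⟩
      rw [hc, Algebra.smul_def]
    · refine ⟨0, ?_⟩
      rw [notMem_support_iff.1 hm, map_zero, mul_zero]
  choose c hc using h1
  refine ⟨∑ m ∈ p.support, monomial m (c m), ?_⟩
  rw [map_sum]
  conv_rhs => rw [p.as_sum, Finset.mul_sum]
  refine Finset.sum_congr rfl fun m _ => ?_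
  rw [map_monomial, C_mul_monomial, hc]

lemma van_isPrime {K : Type} [Field K] {N : ℕ} (𝒰 : Ultrafilter ℕ) (z : ℕ → Fin N → K) :
    (van 𝒰 z).IsPrime := by
  constructor
  · rw [Ideal.ne_top_iff_one]
    intro h
    have h' : ∀ᶠ n in (𝒰 : Filter ℕ), eval (z n) (1 : MvPolynomial (Fin N) K) = 0 := h
    obtain ⟨n, hn⟩ := h'.exists
    rw [map_one] at hn
    exact one_ne_zero hn
  · intro F G h
    have h' : ∀ᶠ n in (𝒰 : Filter ℕ), eval (z n) (F * G) = 0 := h
    have : (∀ᶠ n in (𝒰 : Filter ℕ), eval (z n) F = 0) ∨ ∀ᶠ n in (𝒰 : Filter ℕ),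
        eval (z n) G = 0 := by
      rw [← Ultrafilter.eventually_or]
      filter_upwards [h'] with n hn
      rw [map_mul, mul_eq_zero] at hn
      exact hn
    exact this

lemma map_bind_iterR {R K : Type} [CommRing R] [Field K] {N : ℕ} (y : R →+* K)
    (f : Fin N → MvPolynomial (Fin N) R) (k : ℕ) (P : MvPolynomial (Fin N) R) :
    MvPolynomial.map y (bind₁ (iterR f k) P) = bind₁ (iter (mapT y f) k) (MvPolynomial.map y P) := by
  rw [map_bind₁]
  congr 2
  funext i
  exact (iter_mapT y f k i).symm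

lemma eval_orb_map {R K : Type} [CommRing R] [Field K] {N : ℕ} (y : R →+* K)
    (f : Fin N → MvPolynomial (Fin N) R) (a : Fin N → R) (n : ℕ) (P : MvPolynomial (Fin N) R) :
    eval (orb (mapT y f) (fun i => y (a i)) n) (MvPolynomial.map y P) =
      y (eval (orbR f a n) P) := by
  rw [orb_mapT, eval_map]
  have h3 := eval₂_comp_left y (RingHom.id R) (orbR f a n) P
  rw [RingHom.comp_id] at h3
  exact h3.symm

/-- A relation over the fraction field specialises. -/
lemma van_spec {R K L : Type} [CommRing R] [IsDomain R] [Field K] [Algebra R K]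
    [IsFractionRing R K] [Field L] {N : ℕ} (y : R →+* L)
    (f : Fin N → MvPolynomial (Fin N) R) (a : Fin N → R) (𝒰 : Ultrafilter ℕ)
    (q : MvPolynomial (Fin N) R) (p : MvPolynomial (Fin N) K) (c : K)
    (hq : MvPolynomial.map (algebraMap R K) q = C c * p)
    (hp : p ∈ van 𝒰 (orb (mapT (algebraMap R K) f) (fun i => algebraMap R K (a i)))) :
    MvPolynomial.map y q ∈ van 𝒰 (orb (mapT y f) (fun i => y (a i))) := by
  have hp' : ∀ᶠ n in (𝒰 : Filter ℕ),
    eval (orb (mapT (algebraMap R K) f) (fun i => algebraMap R K (a i)) n) p = 0 := hp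
  show ∀ᶠ n in (𝒰 : Filter ℕ), eval (orb (mapT y f) (fun i => y (a i)) n)
    (MvPolynomial.map y q) = 0
  filter_upwards [hp'] with n hn
  have h1 := eval_orb_map (algebraMap R K) f a n q
  rw [hq, map_mul, hn, mul_zero] at h1
  rw [eval_orb_map]
  have h2 : eval (orbR f a n) q = 0 := by
    apply IsFractionRing.injective R K
    rw [← h1, map_zero]
  rw [h2, map_zero]

section base
variable {r ℓ D : ℕ} {R : Type} [CommRing R] [IsDomain R] [Algebra (MvPolynomial (Fin r) ℤ) R]

/-- The generic conclusion: invariance of the ideal of the orbit along an ultrafilter follows from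
invariance for the specialisations. -/
theorem generic_conclusion (hB : IsBase r ℓ D R) {K : Type} [Field K] [Algebra R K]
    [IsFractionRing R K] {N d : ℕ} (hd : 2 ≤ d)
    (f : Fin N → MvPolynomial (Fin N) R) (hf : ∀ i, (f i).totalDegree ≤ d)
    (hc : Cert (leadR d f)) (a : Fin N → R) (hinf : (Set.range (orbR f a)).Infinite)
    (𝒰 : Ultrafilter ℕ) (h𝒰 : (𝒰 : Filter ℕ) ≤ atTop)
    (hdim : ringKrullDim (MvPolynomial (Fin N) K ⧸
      van 𝒰 (orb (mapT (algebraMap R K) f) (fun i => algebraMap R K (a i)))) ≤ 1)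
    (k₁ : ℕ) (g₁ : R) (hg₁ : g₁ ≠ 0)
    (HS : ∀ (L : IntermediateField ℚ ℂ) (z : Fin r → ℤ) (y : R →+* L),
      FiniteDimensional ℚ L → Module.finrank ℚ L ≤ D → IsSpec z y → y g₁ ≠ 0 →
      (Set.range (orb (mapT y f) (fun i => y (a i)))).Infinite →
      ∀ P ∈ van 𝒰 (orb (mapT y f) (fun i => y (a i))),
        bind₁ (iter (mapT y f) k₁) P ∈ van 𝒰 (orb (mapT y f) (fun i => y (a i)))) :
    ∀ P ∈ van 𝒰 (orb (mapT (algebraMap R K) f) (fun i => algebraMap R K (a i))),
      bind₁ (iter (mapT (algebraMap R K) f) k₁) P ∈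
        van 𝒰 (orb (mapT (algebraMap R K) f) (fun i => algebraMap R K (a i))) := by
  classical
  set Q := van 𝒰 (orb (mapT (algebraMap R K) f) (fun i => algebraMap R K (a i))) with hQ
  haveI hQp : Q.IsPrime := van_isPrime 𝒰 _
  intro P hP
  set G := bind₁ (iter (mapT (algebraMap R K) f) k₁) P with hG
  by_contra hGQ
  have hinj : Function.Injective (algebraMap R K) := IsFractionRing.injective R K
  have hinjM : Function.Injective (MvPolynomial.map (algebraMap R K) :
      MvPolynomial (Fin N) R → MvPolynomial (Fin N) K) := map_injective _ hinj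
  choose p hp0 hpm using fun i => exists_poly Q hdim G hGQ i
  have hqw : ∀ i, ∃ q ∈ Q, ∃ w : MvPolynomial (Fin N) K,
      Polynomial.aeval (X i : MvPolynomial (Fin N) K) (p i) = q + w * G := by
    intro i
    obtain ⟨q, hq, v, hv, hqv⟩ := Submodule.mem_sup.1 (hpm i)
    obtain ⟨w, hw⟩ := Ideal.mem_span_singleton'.1 hv
    exact ⟨q, hq, w, by rw [← hqv, ← hw]⟩
  choose q hq w hqw using hqw
  -- common denominators
  obtain ⟨g₂, hg₂, hden⟩ := exists_denom (R := R) (K := K)
    (insert P ((Finset.univ.image q) ∪ (Finset.univ.image w)))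
  obtain ⟨PR, hPR⟩ := hden P (Finset.mem_insert_self _ _)
  have hqR : ∀ i, ∃ qR : MvPolynomial (Fin N) R,
      MvPolynomial.map (algebraMap R K) qR = C (algebraMap R K g₂) * q i := fun i =>
    hden (q i) (Finset.mem_insert_of_mem (Finset.mem_union_left _
      (Finset.mem_image_of_mem _ (Finset.mem_univ _))))
  have hwR : ∀ i, ∃ wR : MvPolynomial (Fin N) R,
      MvPolynomial.map (algebraMap R K) wR = C (algebraMap R K g₂) * w i := fun i =>
    hden (w i) (Finset.mem_insert_of_mem (Finset.mem_union_right _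
      (Finset.mem_image_of_mem _ (Finset.mem_univ _))))
  choose qR hqR using hqR
  choose wR hwR using hwR
  have hpR : ∀ i, ∃ (b : R) (pR : Polynomial R), pR ≠ 0 ∧
      Polynomial.map (algebraMap R K) pR = Polynomial.C (algebraMap R K b) * p i := by
    intro i
    obtain ⟨b, hb⟩ := IsLocalization.integerNormalization_map_to_map (nonZeroDivisors R) (p i)
    refine ⟨b, IsLocalization.integerNormalization (nonZeroDivisors R) (p i), ?_, ?_⟩
    · intro h0
      rw [h0, Polynomial.map_zero] at hb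
      have h1 : (algebraMap R K b) • p i = 0 := by
        rw [algebraMap_smul]
        exact hb.symm
      rcases smul_eq_zero.1 h1 with h2 | h2
      · exact nonZeroDivisors.coe_ne_zero b (hinj (by rw [h2, map_zero]))
      · exact hp0 i h2
    · rw [hb, ← Polynomial.smul_eq_C_mul, algebraMap_smul]
  choose b pR hpR0 hpR using hpR
  have key : ∀ i, C (g₂ ^ 2) * Polynomial.aeval (X i : MvPolynomial (Fin N) R) (pR i) =
      C (g₂ * b i) * qR i + C (b i) * wR i * bind₁ (iterR f k₁) PR := by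
    intro i
    apply hinjM
    have h1 : MvPolynomial.map (algebraMap R K)
        (Polynomial.aeval (X i : MvPolynomial (Fin N) R) (pR i)) =
        C (algebraMap R K (b i)) * Polynomial.aeval (X i : MvPolynomial (Fin N) K) (p i) := by
      rw [Polynomial.aeval_def, Polynomial.hom_eval₂, map_X,
        show (C (algebraMap R K (b i)) : MvPolynomial (Fin N) K) *
          Polynomial.aeval (X i : MvPolynomial (Fin N) K) (p i) =
          Polynomial.aeval (X i : MvPolynomial (Fin N) K)
            (Polynomial.C (algebraMap R K (b i)) * p i) by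
          rw [map_mul, Polynomial.aeval_C]; rfl, ← hpR i, Polynomial.aeval_def,
        Polynomial.eval₂_map]
      congr 1
      ext x
      simp [MvPolynomial.algebraMap_eq]
    have h2 : MvPolynomial.map (algebraMap R K) (bind₁ (iterR f k₁) PR) =
        C (algebraMap R K g₂) * G := by
      rw [map_bind_iterR, hPR, map_mul, bind₁_C_right, hG]
    simp only [map_mul, map_add, map_C, map_pow]
    rw [h1, h2, hqR i, hwR i, hqw i]
    ring
  -- the specialisation
  obtain ⟨z, y, hy, hyg, hyinf⟩ := exists_spec hB hd f hf hc a hinf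
    (g₁ * g₂ * ∏ i, (pR i).leadingCoeff) (mul_ne_zero (mul_ne_zero hg₁ hg₂)
      (Finset.prod_ne_zero_iff.2 fun i _ => Polynomial.leadingCoeff_ne_zero.2 (hpR0 i)))
  rw [map_mul, map_mul, map_prod] at hyg
  have hyg1 : y g₁ ≠ 0 := fun h => hyg (by rw [h, zero_mul, zero_mul])
  have hyg2 : y g₂ ≠ 0 := fun h => hyg (by rw [h, mul_zero, zero_mul])
  have hyg3 : ∀ i, y (pR i).leadingCoeff ≠ 0 := by
    intro i h
    apply hyg
    rw [Finset.prod_eq_zero (Finset.mem_univ i) h, mul_zero]
  obtain ⟨L, hLf, hLD, hL⟩ := exists_numberField hB z y hy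
  set yL : R →+* L := y.codRestrict L hL with hyL
  have hyLc : ∀ x, (algebraMap L ℂ) (yL x) = y x := fun x => rfl
  have hyLne : ∀ x, y x ≠ 0 → yL x ≠ 0 := by
    intro x hx h
    apply hx
    rw [← hyLc, h, map_zero]
  have hyLs : IsSpec z yL := by
    intro x
    apply (algebraMap L ℂ).injective
    rw [hyLc, hy x]
    simp
  have hLinf : (Set.range (orb (mapT yL f) (fun i => yL (a i)))).Infinite := by
    intro hfin
    apply hyinf
    have h1 := hfin.image (fun (x : Fin N → L) i => algebraMap L ℂ (x i))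
    refine h1.subset ?_
    rintro _ ⟨n, rfl⟩
    refine ⟨_, ⟨n, rfl⟩, ?_⟩
    rw [orb_mapT, orb_mapT]
    rfl
  have hvP : MvPolynomial.map yL PR ∈ van 𝒰 (orb (mapT yL f) (fun i => yL (a i))) :=
    van_spec yL f a 𝒰 PR P _ hPR hP
  have hvG := HS L z yL hLf hLD hyLs (hyLne _ hyg1) hLinf _ hvP
  rw [← map_bind_iterR] at hvG
  apply hLinf
  refine range_finite h𝒰 (fun i => (pR i).map yL) ?_ ?_
  · intro i h
    have h1 := congrArg (fun s => Polynomial.coeff s (pR i).natDegree) h
    simp only [Polynomial.coeff_map, Polynomial.coeff_zero] at h1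
    exact hyLne _ (hyg3 i) h1
  · intro i
    have hvq : MvPolynomial.map yL (qR i) ∈ van 𝒰 (orb (mapT yL f) (fun i => yL (a i))) :=
      van_spec yL f a 𝒰 (qR i) (q i) _ (hqR i) (hq i)
    have e1 : ∀ᶠ n in (𝒰 : Filter ℕ), eval (orb (mapT yL f) (fun i => yL (a i)) n)
      (MvPolynomial.map yL (qR i)) = 0 := hvq
    have e2 : ∀ᶠ n in (𝒰 : Filter ℕ), eval (orb (mapT yL f) (fun i => yL (a i)) n)
      (MvPolynomial.map yL (bind₁ (iterR f k₁) PR)) = 0 := hvG
    filter_upwards [e1, e2] with n h1 h2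
    have h3 := congrArg (fun s => eval (orb (mapT yL f) (fun i => yL (a i)) n)
      (MvPolynomial.map yL s)) (key i)
    simp only [map_mul, map_add, map_C, eval_C, h1, h2, mul_zero, add_zero] at h3
    have h4 : eval (orb (mapT yL f) (fun i => yL (a i)) n)
        (MvPolynomial.map yL (Polynomial.aeval (X i : MvPolynomial (Fin N) R) (pR i))) = 0 := by
      rcases mul_eq_zero.1 h3 with h5 | h5
      · exfalso
        rw [map_pow] at h5
        exact hyLne _ hyg2 (pow_eq_zero_iff (two_ne_zero) |>.1 h5)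
      · exact h5
    rw [← h4, Polynomial.aeval_def, Polynomial.hom_eval₂, Polynomial.hom_eval₂, map_X, eval_X,
      Polynomial.eval_map]
    congr 1
    ext x
    simp [MvPolynomial.algebraMap_eq]

end base

end Pool.Agent.Helper58.IC
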