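import Pool.Agent.Helper58.IC.Defs

/-!
# Functions on a residue ball with constant derivative modulo the maximal ideal

Write `𝔪` for the maximal ideal. If `Lin q φ l` and `x` is in the ball of `q`, then
`φ x - φ q ∈ 𝔪` (apply the definition at `q` with `u = x - q`, `j = 1`).

P1. Induction on `g`. Constants: `l = 0`. Sum: sum of the `l`. Multiplication by `X i` (or products):
`(φ ψ)(x + u) - (φ ψ)(x) = (φ (x+u) - φ x) ψ (x+u) + φ x (ψ (x+u) - ψ x)`, and
`ψ (x+u) - ψ q`, `φ x - φ q ∈ 𝔪`, and `l · u ∈ 𝔪 ^ j`: the derivative is `ψ q • l + φ q • l'`.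

P2. `(χ (x+u) - χ x) ψ (x+u) = (φ (x+u) - φ x) - χ x (ψ (x+u) - ψ x)`. First, this lies in `𝔪 ^ j`, so
`χ (x+u) - χ x ∈ 𝔪 ^ j` (`ψ (x+u)` is a unit); with `j = 1` at `q`: `χ x - χ q ∈ 𝔪`. Then modulo
`𝔪 ^ (j+1)`: `(χ (x+u) - χ x) ψ q = (l - χ q • l') · u`. So `l'' = (ψ q)⁻¹ • (l - χ q • l')`.
-/

set_option autoImplicit false

namespace Pool.Agent.Helper58.IC

open MvPolynomial Filter
open Pool.Agent.Helper65.RP (MultLT orb iter van)

section local_
variable {O : Type} [CommRing O] [IsLocalRing O] {N : ℕ}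

/-- The function `φ` on the residue ball of `q` is differentiable at first order with constant
derivative `l` modulo the maximal ideal. -/
def Lin (q : Fin N → O) (φ : (Fin N → O) → O) (l : Fin N → O) : Prop :=
  ∀ x : Fin N → O, (∀ i, x i - q i ∈ IsLocalRing.maximalIdeal O) → ∀ j : ℕ, 1 ≤ j →
    ∀ u : Fin N → O, (∀ i, u i ∈ IsLocalRing.maximalIdeal O ^ j) →
      φ (x + u) - φ x - ∑ i, l i * u i ∈ IsLocalRing.maximalIdeal O ^ (j + 1)

private theorem pow_le_max {j : ℕ} (hj : 1 ≤ j) :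
    IsLocalRing.maximalIdeal O ^ j ≤ IsLocalRing.maximalIdeal O :=
  Ideal.pow_le_self (by omega)

private theorem sum_mem {j : ℕ} (l : Fin N → O) {u : Fin N → O}
    (hu : ∀ i, u i ∈ IsLocalRing.maximalIdeal O ^ j) :
    ∑ i, l i * u i ∈ IsLocalRing.maximalIdeal O ^ j :=
  Ideal.sum_mem _ fun i _ => Ideal.mul_mem_left _ _ (hu i)

private theorem mul_mem_succ {j : ℕ} {a b : O} (ha : a ∈ IsLocalRing.maximalIdeal O ^ j)
    (hb : b ∈ IsLocalRing.maximalIdeal O) : a * b ∈ IsLocalRing.maximalIdeal O ^ (j + 1) := by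
  rw [pow_succ]
  exact Ideal.mul_mem_mul ha hb

private theorem mul_mem_succ' {j : ℕ} {a b : O} (ha : a ∈ IsLocalRing.maximalIdeal O)
    (hb : b ∈ IsLocalRing.maximalIdeal O ^ j) : a * b ∈ IsLocalRing.maximalIdeal O ^ (j + 1) := by
  rw [mul_comm]
  exact mul_mem_succ hb ha

private theorem ball_add {q x u : Fin N → O} (hx : ∀ i, x i - q i ∈ IsLocalRing.maximalIdeal O)
    {j : ℕ} (hj : 1 ≤ j) (hu : ∀ i, u i ∈ IsLocalRing.maximalIdeal O ^ j) :
    ∀ i, (x + u) i - q i ∈ IsLocalRing.maximalIdeal O := by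
  intro i
  have h1 : (x + u) i - q i = (x i - q i) + u i := by
    rw [Pi.add_apply]; ring
  rw [h1]
  exact Ideal.add_mem _ (hx i) (pow_le_max hj (hu i))

private theorem ball_self (q : Fin N → O) : ∀ i, q i - q i ∈ IsLocalRing.maximalIdeal O := by
  intro i
  rw [sub_self]
  exact Ideal.zero_mem _

private theorem lin_ball {q : Fin N → O} {φ : (Fin N → O) → O} {l : Fin N → O} (h : Lin q φ l)
    {x : Fin N → O} (hx : ∀ i, x i - q i ∈ IsLocalRing.maximalIdeal O) :
    φ x - φ q ∈ IsLocalRing.maximalIdeal O := by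
  have hu : ∀ i, (x - q) i ∈ IsLocalRing.maximalIdeal O ^ 1 := by
    intro i
    rw [pow_one]
    exact hx i
  have h1 := h q (ball_self q) 1 le_rfl (x - q) hu
  rw [add_sub_cancel] at h1
  have h2 := pow_le_max le_rfl (sum_mem l hu)
  have h3 := Ideal.add_mem _ (pow_le_max (by omega) h1) h2
  rw [sub_add_cancel] at h3
  exact h3

private theorem lin_mul {q : Fin N → O} {φ ψ : (Fin N → O) → O} {l l' : Fin N → O}
    (hφ : Lin q φ l) (hψ : Lin q ψ l') :
    Lin q (fun x => φ x * ψ x) (fun i => ψ q * l i + φ q * l' i) := by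
  intro x hx j hj u hu
  have ha := hφ x hx j hj u hu
  have hb := hψ x hx j hj u hu
  have hA := sum_mem l hu
  have hB := sum_mem l' hu
  have h1 := lin_ball hψ (ball_add hx hj hu)
  have h2 := lin_ball hφ hx
  have h3 : ∑ i, (ψ q * l i + φ q * l' i) * u i =
      ψ q * ∑ i, l i * u i + φ q * ∑ i, l' i * u i := by
    rw [Finset.mul_sum, Finset.mul_sum, ← Finset.sum_add_distrib]
    exact Finset.sum_congr rfl fun i _ => by ring
  show φ (x + u) * ψ (x + u) - φ x * ψ x - ∑ i, (ψ q * l i + φ q * l' i) * u i ∈ _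
  rw [h3]
  have h4 : φ (x + u) * ψ (x + u) - φ x * ψ x -
      (ψ q * ∑ i, l i * u i + φ q * ∑ i, l' i * u i) =
      ψ (x + u) * (φ (x + u) - φ x - ∑ i, l i * u i) +
        (∑ i, l i * u i) * (ψ (x + u) - ψ q) +
        φ x * (ψ (x + u) - ψ x - ∑ i, l' i * u i) +
        (φ x - φ q) * ∑ i, l' i * u i := by ring
  rw [h4]
  exact Ideal.add_mem _ (Ideal.add_mem _ (Ideal.add_mem _ (Ideal.mul_mem_left _ _ ha)
    (mul_mem_succ hA h1)) (Ideal.mul_mem_left _ _ hb)) (mul_mem_succ' h2 hB)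

/-- P1. Polynomials have this property. -/
theorem lin_eval (q : Fin N → O) (g : MvPolynomial (Fin N) O) :
    ∃ l, Lin q (fun x => eval x g) l := by
  classical
  induction g using MvPolynomial.induction_on with
  | C a =>
    refine ⟨fun _ => 0, ?_⟩
    intro x _ j _ u _
    simp
  | add g h hg hh =>
    obtain ⟨l, hl⟩ := hg
    obtain ⟨l', hl'⟩ := hh
    refine ⟨fun i => l i + l' i, ?_⟩
    intro x hx j hj u hu
    have h1 := Ideal.add_mem _ (hl x hx j hj u hu) (hl' x hx j hj u hu)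
    have h2 : ∑ i, (l i + l' i) * u i = ∑ i, l i * u i + ∑ i, l' i * u i := by
      rw [← Finset.sum_add_distrib]
      exact Finset.sum_congr rfl fun i _ => by ring
    have h3 : eval (x + u) (g + h) - eval x (g + h) - ∑ i, (l i + l' i) * u i =
        (eval (x + u) g - eval x g - ∑ i, l i * u i) +
        (eval (x + u) h - eval x h - ∑ i, l' i * u i) := by
      rw [h2, map_add, map_add]; ring
    show eval (x + u) (g + h) - eval x (g + h) - ∑ i, (l i + l' i) * u i ∈ _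
    rw [h3]
    exact h1
  | mul_X g i hg =>
    obtain ⟨l, hl⟩ := hg
    have hX : Lin q (fun x => x i) (Pi.single i 1) := by
      intro x _ j _ u _
      have h1 : ∑ k, (Pi.single i 1 : Fin N → O) k * u k = u i := by
        rw [Finset.sum_eq_single i]
        · rw [Pi.single_eq_same, one_mul]
        · intro k _ hk
          rw [Pi.single_eq_of_ne hk, zero_mul]
        · intro h
          exact absurd (Finset.mem_univ i) h
      have h2 : (x + u) i - x i - ∑ k, (Pi.single i 1 : Fin N → O) k * u k = 0 := by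
        rw [h1, Pi.add_apply]; ring
      show (x + u) i - x i - ∑ k, (Pi.single i 1 : Fin N → O) k * u k ∈ _
      rw [h2]
      exact Ideal.zero_mem _
    refine ⟨fun k => q i * l k + eval q g * (Pi.single i 1 : Fin N → O) k, ?_⟩
    have h1 := lin_mul hl hX
    intro x hx j hj u hu
    have h2 := h1 x hx j hj u hu
    simp only [map_mul, eval_X]
    exact h2

/-- P2. Quotients by units. -/
theorem lin_div (q : Fin N → O) (φ ψ χ : (Fin N → O) → O) (l l' : Fin N → O)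
    (hφ : Lin q φ l) (hψ : Lin q ψ l')
    (hu : ∀ x : Fin N → O, (∀ i, x i - q i ∈ IsLocalRing.maximalIdeal O) → IsUnit (ψ x))
    (hχ : ∀ x : Fin N → O, (∀ i, x i - q i ∈ IsLocalRing.maximalIdeal O) → χ x * ψ x = φ x) :
    ∃ l'', Lin q χ l'' := by
  obtain ⟨w, hw⟩ := hu q (ball_self q)
  -- the key identity
  have hkey : ∀ x : Fin N → O, (∀ i, x i - q i ∈ IsLocalRing.maximalIdeal O) → ∀ j : ℕ, 1 ≤ j →
      ∀ u : Fin N → O, (∀ i, u i ∈ IsLocalRing.maximalIdeal O ^ j) →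
      (χ (x + u) - χ x) * ψ (x + u) = (φ (x + u) - φ x) - χ x * (ψ (x + u) - ψ x) := by
    intro x hx j hj u hu'
    have h1 := hχ (x + u) (ball_add hx hj hu')
    have h2 := hχ x hx
    rw [← h1, ← h2]; ring
  have hdiff : ∀ {φ : (Fin N → O) → O} {l : Fin N → O}, Lin q φ l → ∀ x : Fin N → O,
      (∀ i, x i - q i ∈ IsLocalRing.maximalIdeal O) → ∀ j : ℕ, 1 ≤ j →
      ∀ u : Fin N → O, (∀ i, u i ∈ IsLocalRing.maximalIdeal O ^ j) →
      φ (x + u) - φ x ∈ IsLocalRing.maximalIdeal O ^ j := by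
    intro φ l h x hx j hj u hu'
    have h1 := Ideal.pow_le_pow_right (Nat.le_succ j) (h x hx j hj u hu')
    have h2 := Ideal.add_mem _ h1 (sum_mem l hu')
    rw [sub_add_cancel] at h2
    exact h2
  have hc : ∀ x : Fin N → O, (∀ i, x i - q i ∈ IsLocalRing.maximalIdeal O) → ∀ j : ℕ, 1 ≤ j →
      ∀ u : Fin N → O, (∀ i, u i ∈ IsLocalRing.maximalIdeal O ^ j) →
      χ (x + u) - χ x ∈ IsLocalRing.maximalIdeal O ^ j := by
    intro x hx j hj u hu'
    obtain ⟨v, hv⟩ := hu (x + u) (ball_add hx hj hu')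
    have h1 : (χ (x + u) - χ x) * ψ (x + u) ∈ IsLocalRing.maximalIdeal O ^ j := by
      rw [hkey x hx j hj u hu']
      exact Ideal.sub_mem _ (hdiff hφ x hx j hj u hu')
        (Ideal.mul_mem_left _ _ (hdiff hψ x hx j hj u hu'))
    have h2 : χ (x + u) - χ x = ((χ (x + u) - χ x) * ψ (x + u)) * ((v⁻¹ : Oˣ) : O) := by
      rw [← hv, mul_assoc, Units.mul_inv, mul_one]
    rw [h2]
    exact Ideal.mul_mem_right _ _ h1
  have hcq : ∀ x : Fin N → O, (∀ i, x i - q i ∈ IsLocalRing.maximalIdeal O) →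
      χ x - χ q ∈ IsLocalRing.maximalIdeal O := by
    intro x hx
    have hu' : ∀ i, (x - q) i ∈ IsLocalRing.maximalIdeal O ^ 1 := by
      intro i
      rw [pow_one]
      exact hx i
    have h1 := hc q (ball_self q) 1 le_rfl (x - q) hu'
    rw [add_sub_cancel, pow_one] at h1
    exact h1
  refine ⟨fun i => ((w⁻¹ : Oˣ) : O) * (l i - χ q * l' i), ?_⟩
  intro x hx j hj u hu'
  have ha := hφ x hx j hj u hu'
  have hb := hψ x hx j hj u hu'
  have hB := sum_mem l' hu'
  have h1 := lin_ball hψ (ball_add hx hj hu')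
  have h2 := hc x hx j hj u hu'
  have h3 := hcq x hx
  have hk := hkey x hx j hj u hu'
  have h4 : ∑ i, ((w⁻¹ : Oˣ) : O) * (l i - χ q * l' i) * u i =
      ((w⁻¹ : Oˣ) : O) * (∑ i, l i * u i - χ q * ∑ i, l' i * u i) := by
    rw [Finset.mul_sum, ← Finset.sum_sub_distrib, Finset.mul_sum]
    exact Finset.sum_congr rfl fun i _ => by ring
  show χ (x + u) - χ x - ∑ i, ((w⁻¹ : Oˣ) : O) * (l i - χ q * l' i) * u i ∈ _
  rw [h4]
  have h5 : χ (x + u) - χ x - ((w⁻¹ : Oˣ) : O) * (∑ i, l i * u i - χ q * ∑ i, l' i * u i) =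
      ((w⁻¹ : Oˣ) : O) * ((φ (x + u) - φ x - ∑ i, l i * u i) -
        χ x * (ψ (x + u) - ψ x - ∑ i, l' i * u i) -
        (χ x - χ q) * ∑ i, l' i * u i - (χ (x + u) - χ x) * (ψ (x + u) - ψ q)) := by
    have h6 : χ (x + u) - χ x = ((w⁻¹ : Oˣ) : O) * ((χ (x + u) - χ x) * ψ q) := by
      rw [← hw, mul_comm (χ (x + u) - χ x), ← mul_assoc, Units.inv_mul, one_mul]
    have h7 : (χ (x + u) - χ x) * ψ q = (χ (x + u) - χ x) * ψ (x + u) -
        (χ (x + u) - χ x) * (ψ (x + u) - ψ q) := by ring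
    rw [hk] at h7
    rw [h7] at h6
    calc χ (x + u) - χ x - ((w⁻¹ : Oˣ) : O) * (∑ i, l i * u i - χ q * ∑ i, l' i * u i)
        = ((w⁻¹ : Oˣ) : O) * (φ (x + u) - φ x - χ x * (ψ (x + u) - ψ x) -
            (χ (x + u) - χ x) * (ψ (x + u) - ψ q)) -
          ((w⁻¹ : Oˣ) : O) * (∑ i, l i * u i - χ q * ∑ i, l' i * u i) := by rw [← h6]
      _ = _ := by ring
  rw [h5]
  exact Ideal.mul_mem_left _ _ (Ideal.sub_mem _ (Ideal.sub_mem _ (Ideal.sub_mem _ ha
    (Ideal.mul_mem_left _ _ hb)) (mul_mem_succ' h3 hB)) (mul_mem_succ h2 h1))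

end local_

end Pool.Agent.Helper58.IC
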