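import Pool.Agent.Helper58.IC.Core
import Pool.Agent.Helper58.IC.Base
import Pool.Agent.Helper58.IC.CertC
import Pool.Agent.Helper65.RP.Proj

/-!
# The main theorem over the complex numbers
-/

set_option autoImplicit false

namespace Pool.Agent.Helper58.IC

open MvPolynomial Filter
open Pool.Agent.Helper65.RP (orb iter van Regular lead deh rst aff deh_map rst_map aeval_deh
  aeval_rst totalDegree_deh homogeneousComponent_deh ap_of_ultra exists_closed orb_period orb_succ
  exists_eventually_mem krull_le)

section ring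
variable {R : Type} [CommRing R] {N : ℕ}

/-- Dehomogenisation over a commutative ring. -/
noncomputable def dehR : MvPolynomial (Fin (N + 1)) R →ₐ[R] MvPolynomial (Fin N) R :=
  aeval (Fin.cons 1 X : Fin (N + 1) → MvPolynomial (Fin N) R)

/-- Restriction to the hyperplane `X_0 = 0` over a commutative ring. -/
noncomputable def rstR : MvPolynomial (Fin (N + 1)) R →ₐ[R] MvPolynomial (Fin N) R :=
  aeval (Fin.cons 0 X : Fin (N + 1) → MvPolynomial (Fin N) R)

lemma map_dehR {L : Type} [Field L] (y : R →+* L) (p : MvPolynomial (Fin (N + 1)) R) :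
    MvPolynomial.map y (dehR p) = deh (MvPolynomial.map y p) := by
  unfold deh dehR
  induction p using MvPolynomial.induction_on with
  | C a => simp
  | add p q hp hq => simp only [map_add, hp, hq]
  | mul_X p i hp =>
    simp only [map_mul, hp, map_X]
    congr 1
    refine Fin.cases ?_ (fun j => ?_) i
    · simp
    · simp

lemma map_rstR {L : Type} [Field L] (y : R →+* L) (p : MvPolynomial (Fin (N + 1)) R) :
    MvPolynomial.map y (rstR p) = rst (MvPolynomial.map y p) := by
  unfold rst rstR
  induction p using MvPolynomial.induction_on with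
  | C a => simp
  | add p q hp hq => simp only [map_add, hp, hq]
  | mul_X p i hp =>
    simp only [map_mul, hp, map_X]
    congr 1
    refine Fin.cases ?_ (fun j => ?_) i
    · simp
    · simp

lemma hom_of_map {S : Type} [CommRing S] {σ : Type} {y : R →+* S} (hy : Function.Injective y)
    {p : MvPolynomial σ R} {e : ℕ} (h : (MvPolynomial.map y p).IsHomogeneous e) :
    p.IsHomogeneous e := by
  intro m hm
  refine h ?_
  rw [coeff_map]
  intro h0
  exact hm (hy (by rw [h0, map_zero]))

end ring

section field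
variable {K : Type} [Field K] {N d : ℕ} {F : Fin (N + 1) → MvPolynomial (Fin (N + 1)) K}

lemma iter_zero (hF0 : F 0 = X 0 ^ d) (k : ℕ) : iter F k 0 = X 0 ^ d ^ k := by
  induction k with
  | zero => simp [iter]
  | succ k ih =>
    have h1 : iter F (k + 1) 0 = bind₁ (iter F k) (F 0) := rfl
    rw [h1, hF0, map_pow, bind₁_X_right, ih, ← pow_mul, pow_succ]

lemma lead_aff (hF : ∀ i, (F i).IsHomogeneous d) : lead d (aff F) = fun i => rst (F i.succ) := by
  funext i
  exact homogeneousComponent_deh (hF i.succ)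

lemma rst_iter (hd : 1 ≤ d) (hF : ∀ i, (F i).IsHomogeneous d) (hF0 : F 0 = X 0 ^ d) (k : ℕ)
    (i : Fin N) : rst (iter F k i.succ) = iter (lead d (aff F)) k i := by
  induction k generalizing i with
  | zero =>
    unfold rst
    simp [iter]
  | succ k ih =>
    have h1 : iter F (k + 1) i.succ = bind₁ (iter F k) (F i.succ) := rfl
    have h2 : iter (lead d (aff F)) (k + 1) i =
      bind₁ (iter (lead d (aff F)) k) (lead d (aff F) i) := rfl
    rw [h1, h2]
    have h3 : lead d (aff F) i = rst (F i.succ) := congrFun (lead_aff hF) i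
    rw [h3]
    unfold bind₁
    rw [← AlgHom.comp_apply, comp_aeval]
    unfold rst
    rw [← AlgHom.comp_apply, comp_aeval]
    congr 2
    funext j
    refine Fin.cases ?_ (fun l => ?_) j
    · have h6 : d ^ k ≠ 0 := (Nat.pow_pos (by omega : 0 < d)).ne'
      rw [iter_zero hF0, Fin.cons_zero, map_pow, aeval_X, Fin.cons_zero, zero_pow h6, map_zero]
    · have h5 := ih l
      unfold rst at h5
      simp only [Fin.cons_succ, aeval_X]
      exact h5

lemma eval_deh (x : Fin N → K) (p : MvPolynomial (Fin (N + 1)) K) :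
    eval x (deh p) = eval (Fin.cons 1 x : Fin (N + 1) → K) p := by
  have h := aeval_deh (K := K) (E := K) x p
  rwa [aeval_eq_eval, aeval_eq_eval] at h

lemma eval_rst (x : Fin N → K) (p : MvPolynomial (Fin (N + 1)) K) :
    eval x (rst p) = eval (Fin.cons 0 x : Fin (N + 1) → K) p := by
  have h := aeval_rst (K := K) (E := K) x p
  rwa [aeval_eq_eval, aeval_eq_eval] at h

lemma eval_smul_hom {σ : ℕ} {e : ℕ} {P : MvPolynomial (Fin σ) K} (hP : P.IsHomogeneous e) (u : K)
    (y : Fin σ → K) : eval (u • y) P = u ^ e * eval y P := by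
  have h := Pool.Agent.Helper47.RP.aeval_mul_hom hP u y
  rwa [aeval_eq_eval] at h

/-- Condition at infinity for the dehomogenisation. -/
lemma eval_rst_of_deh {g : MvPolynomial (Fin (N + 1)) K} {e : ℕ} (he : g.IsHomogeneous e)
    {x : Fin N → K} (h : eval x (homogeneousComponent (deh g).totalDegree (deh g)) = 0) :
    eval x (rst g) = 0 := by
  rw [← homogeneousComponent_deh he]
  by_cases hlt : (deh g).totalDegree < e
  · rw [homogeneousComponent_eq_zero _ _ hlt, map_zero]
  · have h2 : (deh g).totalDegree = e := le_antisymm (totalDegree_deh he) (not_lt.1 hlt)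
    rw [h2] at h
    exact h

end field

/-- The affine form of the main theorem, over a base ring inside the complex numbers. -/
theorem main_ring {Pr : ∀ (K Kb : Type) [Field K] [Field Kb] [Algebra K Kb] (N : ℕ),
      (Fin N → MvPolynomial (Fin N) K) → (Fin N → Kb) → ℕ → Prop} (G : Good Pr)
    {r ℓ D : ℕ} {R : Subring ℂ} [Algebra (MvPolynomial (Fin r) ℤ) R] (hB : IsBase r ℓ D R)
    {N d : ℕ} (hd : 2 ≤ d) (f : Fin N → MvPolynomial (Fin N) R) (hf : ∀ i, (f i).totalDegree ≤ d)
    (hc : Cert (leadR d f))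
    (S : Finset (MvPolynomial (Fin (N + 1)) R)) (hS : ∀ g ∈ S, ∃ e : ℕ, g.IsHomogeneous e)
    (B : Finset (Fin N → R)) (hB1 : ∀ b ∈ B, ∃ i, b i = 1)
    (hB2 : ∀ (L : Type) [Field L] (y : R →+* L) (x : Fin N → L), x ≠ 0 →
      (∀ g ∈ S, eval x (MvPolynomial.map y (rstR g)) = 0) → ∃ b ∈ B, ∃ c : L, ∀ i, x i = c * y (b i))
    (hM : ∀ b ∈ B, ∀ (k : ℕ) (c : ℂ), 1 ≤ k →
      (∀ i, ((eval b (iterR (leadR d f) k i) : R) : ℂ) = c * (b i : ℂ)) →
      ∃ m, 1 ≤ m ∧ ∀ t, 1 ≤ t → m ∣ t →
        Pr ℂ ℂ N (mapT R.subtype (iterR (leadR d f) t)) (fun i => (b i : ℂ)) (d ^ t))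
    (a : Fin N → R) :
    ∃ T : Finset (ℕ × ℕ), {n : ℕ | ∀ g ∈ S, eval (orbR f a n) (dehR g) = 0} =
      {n : ℕ | ∃ q ∈ T, ∃ k : ℕ, n = q.1 * k + q.2} := by
  classical
  set K := FractionRing R with hK
  have hRC : Function.Injective R.subtype := Subtype.val_injective
  letI : Algebra K ℂ := (IsFractionRing.lift (K := K) hRC).toAlgebra
  have hKC : ∀ x : R, algebraMap K ℂ (algebraMap R K x) = (x : ℂ) := fun x =>
    IsFractionRing.lift_algebraMap hRC x
  have hKC' : (algebraMap K ℂ).comp (algebraMap R K) = R.subtype := RingHom.ext hKC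
  have hRK : Function.Injective (algebraMap R K) := IsFractionRing.injective R K
  -- dimensions
  have hdeh : ∀ {L : Type} [Field L] (y : R →+* L),
      deh '' (MvPolynomial.map y '' (S : Set (MvPolynomial (Fin (N + 1)) R))) =
        MvPolynomial.map y '' (dehR '' (S : Set (MvPolynomial (Fin (N + 1)) R))) := by
    intro L _ y
    rw [Set.image_image, Set.image_image]
    exact Set.image_congr fun g _ => (map_dehR y g).symm
  have hdim : ∀ (L : Type) [Field L] [Algebra L ℂ] (y : R →+* L),
      ringKrullDim (MvPolynomial (Fin N) L ⧸ Ideal.span (MvPolynomial.map y ''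
        (dehR '' (S : Set (MvPolynomial (Fin (N + 1)) R))))) ≤ 1 := by
    intro L _ _ y
    rw [← hdeh]
    refine krull_le _ ?_ (B.image fun b =>
      (Fin.cons 0 (fun i => algebraMap L ℂ (y (b i))) : Fin (N + 1) → ℂ)) ?_
    · rintro _ ⟨g, hg, rfl⟩
      obtain ⟨e, he⟩ := hS g hg
      exact ⟨e, he.map _⟩
    · intro x hx hx0 hxS
      have hcons : (Fin.cons 0 (fun i : Fin N => x i.succ) : Fin (N + 1) → ℂ) = x := by
        funext i
        refine Fin.cases ?_ (fun j => ?_) i
        · rw [Fin.cons_zero, hx0]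
        · rw [Fin.cons_succ]
      obtain ⟨b, hb, c, hbc⟩ := hB2 ℂ ((algebraMap L ℂ).comp y) (fun i => x i.succ) (by
        intro h0
        apply hx
        rw [← hcons]
        funext i
        refine Fin.cases ?_ (fun j => ?_) i
        · rfl
        · rw [Fin.cons_succ]
          exact congrFun h0 j) (by
        intro g hg
        rw [map_rstR, eval_rst, hcons]
        have h1 := hxS _ ⟨g, hg, rfl⟩
        rw [aeval_def, ← eval_map, MvPolynomial.map_map] at h1
        exact h1)
      refine ⟨_, Finset.mem_image_of_mem _ hb, c, ?_⟩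
      rw [← hcons]
      funext i
      refine Fin.cases ?_ (fun j => ?_) i
      · rw [Pi.smul_apply, Fin.cons_zero, Fin.cons_zero, smul_zero]
      · rw [Pi.smul_apply, Fin.cons_succ, Fin.cons_succ, hbc j]
        rfl
  apply ap_of_ultra
  intro 𝒰 h𝒰 h𝒩
  have h𝒩' : ∀ᶠ n in (𝒰 : Filter ℕ), ∀ g ∈ S, eval (orbR f a n) (dehR g) = 0 := h𝒩
  by_cases hinf : (Set.range (orbR f a)).Infinite
  · obtain ⟨k, hk, hP⟩ := core G hB (K := K) hd f hf hc
      (dehR '' (S : Set (MvPolynomial (Fin (N + 1)) R))) (hdim K (algebraMap R K))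
      (fun L y => hdim L y) B hB1 (by
        intro Lb _ y x hx hxS
        refine hB2 Lb y x hx fun g hg => ?_
        have h1 := hxS _ ⟨g, hg, rfl⟩
        obtain ⟨e, he⟩ := hS g hg
        rw [map_dehR] at h1
        rw [map_rstR]
        exact eval_rst_of_deh (he.map y) h1) (by
        intro b hb k c hk hkc
        obtain ⟨m, hm1, hm2⟩ := hM b hb k (algebraMap K ℂ c) hk (by
          intro i
          have h1 := congrArg (algebraMap K ℂ) (hkc i)
          rw [map_mul, hKC, hKC] at h1
          exact h1)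
        refine ⟨m, hm1, fun t ht1 ht2 => ?_⟩
        refine G.desc K ℂ N (d ^ t) _ _ (Nat.pow_pos (by omega)) ?_
        have h3 := hm2 t ht1 ht2
        have h4 : mapT (algebraMap K ℂ) (mapT (algebraMap R K) (iterR (leadR d f) t)) =
            mapT R.subtype (iterR (leadR d f) t) := by
          funext i
          unfold mapT
          rw [MvPolynomial.map_map, hKC']
        have h5 : (fun i => algebraMap K ℂ (algebraMap R K (b i))) = fun i => (b i : ℂ) :=
          funext fun i => hKC _
        rw [h4, h5]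
        exact h3) a hinf 𝒰 h𝒰 (by
        filter_upwards [h𝒩'] with n hn
        rintro _ ⟨g, hg, rfl⟩
        exact hn g hg)
    obtain ⟨M, hM, hMk, hMP⟩ := exists_closed hP
    refine ⟨M, ?_, hM, k, hk, hMk⟩
    intro n hn g hg
    have h1 := hMP n hn (MvPolynomial.map (algebraMap R K) (dehR g)) (by
      change ∀ᶠ n in (𝒰 : Filter ℕ), eval (orb (mapT (algebraMap R K) f)
        (fun i => algebraMap R K (a i)) n) (MvPolynomial.map (algebraMap R K) (dehR g)) = 0
      filter_upwards [h𝒩'] with n hn
      rw [eval_orb_map, hn g hg, map_zero])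
    rw [eval_orb_map] at h1
    exact hRK (by rw [h1, map_zero])
  · rw [Set.not_infinite] at hinf
    obtain ⟨n₁, n₂, hne, heq⟩ : ∃ n₁ n₂ : ℕ, n₁ < n₂ ∧ orbR f a n₁ = orbR f a n₂ := by
      by_contra hcon
      push Not at hcon
      have hinj : Function.Injective (orbR f a) := by
        intro m n hmn
        rcases lt_trichotomy m n with h | h | h
        · exact absurd hmn (hcon m n h)
        · exact h
        · exact absurd hmn.symm (hcon n m h)
      exact Set.infinite_range_of_injective hinj hinf
    have hper : ∀ n, n₁ ≤ n → orbR f a (n + (n₂ - n₁)) = orbR f a n := by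
      intro n hn
      induction n, hn using Nat.le_induction with
      | base => rw [show n₁ + (n₂ - n₁) = n₂ by omega]; exact heq.symm
      | succ n hn ih =>
        have h1 : ∀ m, orbR f a (m + 1) = fun i => eval (orbR f a m) (f i) := by
          intro m
          unfold orbR
          rw [Function.iterate_succ_apply']
        rw [show n + 1 + (n₂ - n₁) = n + (n₂ - n₁) + 1 by ring, h1, h1, ih]
    refine ⟨{n | ∀ g ∈ S, eval (orbR f a n) (dehR g) = 0} ∩ Set.Ici n₁, Set.inter_subset_left,
      inter_mem h𝒩 (h𝒰 (Ici_mem_atTop n₁)), n₂ - n₁, by omega, ?_⟩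
    rintro n ⟨hn, hn1⟩
    refine ⟨?_, ?_⟩
    · intro g hg
      rw [hper n hn1]
      exact hn g hg
    · exact Set.mem_Ici.2 (le_trans hn1 (Nat.le_add_right _ _))

end Pool.Agent.Helper58.IC
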