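import Pool.Agent.Helper58.IC.Main

/-!
# The main theorem over the complex numbers, projective form
-/

set_option autoImplicit false

namespace Pool.Agent.Helper58.IC

open MvPolynomial Filter
open Pool.Agent.Helper65.RP (orb iter van Regular lead deh rst aff deh_map rst_map aeval_deh
  aeval_rst totalDegree_deh homogeneousComponent_deh ap_of_ultra exists_closed orb_period orb_succ
  exists_eventually_mem krull_le)

/-- The main theorem for a finite set of forms and a starting point off the hyperplane. -/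
theorem main_fin {Pr : ∀ (K Kb : Type) [Field K] [Field Kb] [Algebra K Kb] (N : ℕ),
      (Fin N → MvPolynomial (Fin N) K) → (Fin N → Kb) → ℕ → Prop} (G : Good Pr)
    {N d : ℕ} (hd : 2 ≤ d) (F : Fin (N + 1) → MvPolynomial (Fin (N + 1)) ℂ)
    (hF : ∀ i, (F i).IsHomogeneous d) (hF0 : F 0 = X 0 ^ d)
    (hnz : ∀ x : Fin (N + 1) → ℂ, (∀ i, eval x (F i) = 0) → x = 0)
    (S : Finset (MvPolynomial (Fin (N + 1)) ℂ)) (hS : ∀ g ∈ S, ∃ e : ℕ, g.IsHomogeneous e)
    (hfin : ∃ B : Finset (Fin (N + 1) → ℂ), ∀ x : Fin (N + 1) → ℂ, x ≠ 0 → x 0 = 0 →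
      (∀ g ∈ S, eval x g = 0) → ∃ b ∈ B, ∃ c : ℂ, x = c • b)
    (hM : ∀ y : Fin N → ℂ, y ≠ 0 → (∀ g ∈ S, eval (Fin.cons 0 y : Fin (N + 1) → ℂ) g = 0) →
      ∀ (k : ℕ) (c : ℂ), 1 ≤ k → (∀ i, eval y (iter (lead d (aff F)) k i) = c * y i) →
      ∃ m, 1 ≤ m ∧ ∀ t, 1 ≤ t → m ∣ t → Pr ℂ ℂ N (iter (lead d (aff F)) t) y (d ^ t))
    (a : Fin N → ℂ) :
    ∃ T : Finset (ℕ × ℕ), {n : ℕ | ∀ g ∈ S, eval (orb (aff F) a n) (deh g) = 0} =
      {n : ℕ | ∃ q ∈ T, ∃ k : ℕ, n = q.1 * k + q.2} := by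
  classical
  obtain ⟨B₀, hB₀⟩ := hfin
  -- the points at infinity, normalised
  set P : (Fin N → ℂ) → Prop := fun b => (∃ i, b i = 1) ∧
    ∀ g ∈ S, eval (Fin.cons 0 b : Fin (N + 1) → ℂ) g = 0 with hP
  have hnorm : ∀ b : Fin (N + 1) → ℂ, ∃ b' : Fin N → ℂ,
      (b ≠ 0 → b 0 = 0 → (∀ g ∈ S, eval b g = 0) →
        P b' ∧ ∃ c : ℂ, ∀ i, b i.succ = c * b' i) := by
    intro b
    by_cases hb : b ≠ 0 ∧ b 0 = 0
    · obtain ⟨hb1, hb0⟩ := hb
      obtain ⟨j, hj⟩ : ∃ j : Fin N, b j.succ ≠ 0 := by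
        by_contra hcon
        push Not at hcon
        apply hb1
        funext i
        exact Fin.cases hb0 hcon i
      refine ⟨fun i => (b j.succ)⁻¹ * b i.succ, fun _ _ hbS => ⟨⟨⟨j, inv_mul_cancel₀ hj⟩, ?_⟩,
        b j.succ, fun i => (mul_inv_cancel_left₀ hj _).symm⟩⟩
      intro g hg
      obtain ⟨e, he⟩ := hS g hg
      have h1 : (Fin.cons 0 (fun i => (b j.succ)⁻¹ * b i.succ) : Fin (N + 1) → ℂ) =
          (b j.succ)⁻¹ • b := by
        funext i
        refine Fin.cases ?_ (fun l => ?_) i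
        · rw [Fin.cons_zero, Pi.smul_apply, hb0, smul_zero]
        · rw [Fin.cons_succ, Pi.smul_apply, smul_eq_mul]
      rw [h1, eval_smul_hom he, hbS g hg, mul_zero]
    · refine ⟨0, fun h1 h2 => absurd ⟨h1, h2⟩ hb⟩
  choose ν hν using hnorm
  set B : Finset (Fin N → ℂ) := (B₀.filter fun b => b ≠ 0 ∧ b 0 = 0 ∧ ∀ g ∈ S, eval b g = 0).image ν
    with hBdef
  have hBP : ∀ b ∈ B, P b := by
    intro b hb
    obtain ⟨b₀, hb₀, rfl⟩ := Finset.mem_image.1 hb
    obtain ⟨_, h1, h2, h3⟩ := Finset.mem_filter.1 hb₀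
    exact (hν b₀ h1 h2 h3).1
  have hBfin : ∀ x : Fin N → ℂ, x ≠ 0 → (∀ s ∈ S.image rst, eval x s = 0) →
      ∃ b ∈ B, ∃ c : ℂ, x = c • b := by
    intro x hx hxS
    have hxc : (Fin.cons 0 x : Fin (N + 1) → ℂ) ≠ 0 := by
      intro h0
      apply hx
      funext i
      have := congrFun h0 i.succ
      rwa [Fin.cons_succ] at this
    have hxS' : ∀ g ∈ S, eval (Fin.cons 0 x : Fin (N + 1) → ℂ) g = 0 := by
      intro g hg
      rw [← eval_rst]
      exact hxS _ (Finset.mem_image_of_mem _ hg)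
    obtain ⟨b, hb, c, hbc⟩ := hB₀ _ hxc (by rw [Fin.cons_zero]) hxS'
    have hc0 : c ≠ 0 := by
      rintro rfl
      apply hxc
      rw [hbc, zero_smul]
    have hb1 : b ≠ 0 := by
      rintro rfl
      apply hxc
      rw [hbc, smul_zero]
    have hb2 : b 0 = 0 := by
      have h1 := congrFun hbc 0
      rw [Fin.cons_zero, Pi.smul_apply, smul_eq_mul] at h1
      exact (mul_eq_zero.1 h1.symm).resolve_left hc0
    have hb3 : ∀ g ∈ S, eval b g = 0 := by
      intro g hg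
      obtain ⟨e, he⟩ := hS g hg
      have h1 := hxS' g hg
      rw [hbc, eval_smul_hom he] at h1
      exact (mul_eq_zero.1 h1).resolve_left (pow_ne_zero _ hc0)
    obtain ⟨_, u, hu⟩ := hν b hb1 hb2 hb3
    refine ⟨ν b, Finset.mem_image_of_mem _ (Finset.mem_filter.2 ⟨hb, hb1, hb2, hb3⟩), c * u, ?_⟩
    funext i
    have h1 := congrFun hbc i.succ
    rw [Fin.cons_succ, Pi.smul_apply, smul_eq_mul, hu i] at h1
    rw [h1, Pi.smul_apply, smul_eq_mul, mul_assoc]
  -- certificates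
  obtain ⟨E₁, hE₁⟩ := spec_inf (S.image rst) B (fun b hb => (hBP b hb).1) hBfin
  obtain ⟨M, A, hM1, hA⟩ := exists_cert (fun i : Fin N => rst (F i.succ)) (by
    intro x hx
    have h1 := hnz (Fin.cons 0 x) (by
      intro i
      refine Fin.cases ?_ (fun j => ?_) i
      · rw [hF0, map_pow, eval_X, Fin.cons_zero, zero_pow (by omega)]
      · rw [← eval_rst]
        exact hx j)
    funext i
    have h2 := congrFun h1 i.succ
    rwa [Fin.cons_succ] at h2)
  set E : Finset ℂ := E₁ ∪ (Finset.univ.biUnion fun i => Finset.univ.biUnion fun j =>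
      (A i j).coeffs) ∪ (Finset.univ.biUnion fun i => (aff F i).coeffs) ∪
    (S.biUnion fun g => g.coeffs) ∪ (Finset.univ.image a) ∪
    (B.biUnion fun b => Finset.univ.image b) with hE
  obtain ⟨r, ℓ, D, R, _, hB, hER⟩ := exists_base E
  have hRC : Function.Injective R.subtype := Subtype.val_injective
  have hlift : ∀ {σ : Type} (p : MvPolynomial σ ℂ), (∀ x ∈ p.coeffs, x ∈ R) →
      ∃ p' : MvPolynomial σ R, MvPolynomial.map R.subtype p' = p := by
    intro σ p hp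
    have h1 : p ∈ Set.range (MvPolynomial.map R.subtype) := by
      rw [mem_range_map_iff_coeffs_subset]
      intro x hx
      exact ⟨⟨x, hp x hx⟩, rfl⟩
    exact h1
  have hAR : ∀ i j, ∃ p' : MvPolynomial (Fin N) R, MvPolynomial.map R.subtype p' = A i j :=
    fun i j => hlift _ fun x hx => hER x (by
      rw [hE]
      simp only [Finset.mem_union, Finset.mem_biUnion]
      exact Or.inl (Or.inl (Or.inl (Or.inl (Or.inr ⟨i, Finset.mem_univ i, j, Finset.mem_univ j,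
        hx⟩)))))
  choose A' hA' using hAR
  have hfR : ∀ i, ∃ p' : MvPolynomial (Fin N) R, MvPolynomial.map R.subtype p' = aff F i :=
    fun i => hlift _ fun x hx => hER x (by
      rw [hE]
      simp only [Finset.mem_union, Finset.mem_biUnion]
      exact Or.inl (Or.inl (Or.inl (Or.inr ⟨i, Finset.mem_univ i, hx⟩))))
  choose f hf using hfR
  have hSR : ∀ g : MvPolynomial (Fin (N + 1)) ℂ, ∃ g' : MvPolynomial (Fin (N + 1)) R, g ∈ S →
      MvPolynomial.map R.subtype g' = g := by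
    intro g
    by_cases hg : g ∈ S
    · obtain ⟨g', hg'⟩ := hlift g fun x hx => hER x (by
        rw [hE]
        simp only [Finset.mem_union, Finset.mem_biUnion]
        exact Or.inl (Or.inl (Or.inr ⟨g, hg, hx⟩)))
      exact ⟨g', fun _ => hg'⟩
    · exact ⟨0, fun h => absurd h hg⟩
  choose γ hγ using hSR
  have haR : ∀ i, a i ∈ R := fun i => hER _ (by
    rw [hE]
    exact Finset.mem_union_left _ (Finset.mem_union_right _
      (Finset.mem_image_of_mem _ (Finset.mem_univ i))))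
  have hbR : ∀ b : Fin N → ℂ, ∃ b' : Fin N → R, b ∈ B → ∀ i, (b' i : ℂ) = b i := by
    intro b
    by_cases hb : b ∈ B
    · exact ⟨fun i => ⟨b i, hER _ (by
        rw [hE]
        exact Finset.mem_union_right _ (Finset.mem_biUnion.2 ⟨b, hb,
          Finset.mem_image_of_mem _ (Finset.mem_univ i)⟩))⟩, fun _ _ => rfl⟩
    · exact ⟨0, fun h => absurd h hb⟩
  choose β hβ using hbR
  have hfaff : mapT R.subtype f = aff F := funext hf
  have hlead : mapT R.subtype (leadR d f) = lead d (aff F) := by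
    rw [← hfaff, lead_mapT]
  have hiter : ∀ k, mapT R.subtype (iterR (leadR d f) k) = iter (lead d (aff F)) k := by
    intro k
    rw [← hlead, iter_mapT']
  obtain ⟨T, hT⟩ := main_ring G hB hd f (by
    intro i
    have h1 : (aff F i).totalDegree ≤ d := totalDegree_deh (hF i.succ)
    rw [← hf i] at h1
    refine le_trans (le_of_eq ?_) h1
    exact (Finset.sup_congr (support_map_of_injective _ hRC) fun _ _ => rfl).symm) (by
    refine ⟨M, A', hM1, fun i => ?_⟩
    apply map_injective _ hRC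
    rw [map_pow, map_X, hA i, map_sum]
    refine Finset.sum_congr rfl fun j _ => ?_
    rw [map_mul, hA' i j]
    congr 1
    have h1 := congrFun hlead j
    rw [lead_aff hF] at h1
    exact h1.symm) (S.image γ) (by
    intro g' hg'
    obtain ⟨g, hg, rfl⟩ := Finset.mem_image.1 hg'
    obtain ⟨e, he⟩ := hS g hg
    exact ⟨e, hom_of_map hRC (by rw [hγ g hg]; exact he)⟩) (B.image β) (by
    intro b' hb'
    obtain ⟨b, hb, rfl⟩ := Finset.mem_image.1 hb'
    obtain ⟨i, hi⟩ := (hBP b hb).1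
    exact ⟨i, hRC (by
      change ((β b i : R) : ℂ) = ((1 : R) : ℂ)
      rw [hβ b hb i, hi]
      rfl)⟩) (by
    intro L _ y x hx hxS
    refine hE₁ R (fun e he => hER e (by
      rw [hE]
      simp only [Finset.mem_union]
      exact Or.inl (Or.inl (Or.inl (Or.inl (Or.inl he)))))) ((S.image γ).image rstR)
      (B.image β) ?_ ?_ L y x hx ?_
    · intro s hs
      obtain ⟨g, hg, rfl⟩ := Finset.mem_image.1 hs
      refine ⟨_, Finset.mem_image_of_mem _ (Finset.mem_image_of_mem _ hg), ?_⟩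
      rw [map_rstR, hγ g hg]
    · intro b hb
      exact ⟨_, Finset.mem_image_of_mem _ hb, hβ b hb⟩
    · intro s' hs'
      obtain ⟨g', hg', rfl⟩ := Finset.mem_image.1 hs'
      exact hxS g' hg') (by
    intro b' hb' k c hk hkc
    obtain ⟨b, hb, rfl⟩ := Finset.mem_image.1 hb'
    have hbb : (fun i => ((β b i : R) : ℂ)) = b := funext (hβ b hb)
    have hb0 : b ≠ 0 := by
      rintro rfl
      obtain ⟨i, hi⟩ := (hBP 0 hb).1
      exact zero_ne_one hi
    obtain ⟨m, hm1, hm2⟩ := hM b hb0 (hBP b hb).2 k c hk (by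
      intro i
      rw [← hiter k, ← hbb]
      have h1 := hkc i
      rw [← h1]
      exact eval_map' R.subtype (β b) _)
    refine ⟨m, hm1, fun t ht1 ht2 => ?_⟩
    rw [hiter, hbb]
    exact hm2 t ht1 ht2) (fun i => ⟨a i, haR i⟩)
  refine ⟨T, ?_⟩
  rw [← hT]
  have horb : ∀ n (p : MvPolynomial (Fin N) R),
      eval (orb (aff F) a n) (MvPolynomial.map R.subtype p) =
        ((eval (orbR f (fun i => (⟨a i, haR i⟩ : R)) n) p : R) : ℂ) := by
    intro n p
    rw [← hfaff]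
    exact eval_orb_map R.subtype f (fun i => (⟨a i, haR i⟩ : R)) n p
  ext n
  rw [Set.mem_ofPred_eq, Set.mem_ofPred_eq]
  constructor
  · intro h g' hg'
    obtain ⟨g, hg, rfl⟩ := Finset.mem_image.1 hg'
    apply hRC
    change ((_ : R) : ℂ) = ((0 : R) : ℂ)
    rw [← horb, map_dehR, hγ g hg, h g hg]
    rfl
  · intro h g hg
    have h1 := h (γ g) (Finset.mem_image_of_mem _ hg)
    have h2 := horb n (dehR (γ g))
    rw [h1, map_dehR, hγ g hg] at h2
    rw [h2]
    rfl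

/-- The dynamical Mordell-Lang property for curves, over the complex numbers. -/
theorem main_pr {Pr : ∀ (K Kb : Type) [Field K] [Field Kb] [Algebra K Kb] (N : ℕ),
      (Fin N → MvPolynomial (Fin N) K) → (Fin N → Kb) → ℕ → Prop} (G : Good Pr)
    {N d : ℕ} (hd : 2 ≤ d) (F : Fin (N + 1) → MvPolynomial (Fin (N + 1)) ℂ)
    (hF : ∀ i, (F i).IsHomogeneous d) (hF0 : F 0 = X 0 ^ d)
    (hnz : ∀ x : Fin (N + 1) → ℂ, (∀ i, eval x (F i) = 0) → x = 0)
    (S : Set (MvPolynomial (Fin (N + 1)) ℂ)) (hS : ∀ g ∈ S, ∃ e : ℕ, g.IsHomogeneous e)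
    (hfin : ∃ B : Finset (Fin (N + 1) → ℂ), ∀ x : Fin (N + 1) → ℂ, x ≠ 0 → x 0 = 0 →
      (∀ g ∈ S, eval x g = 0) → ∃ b ∈ B, ∃ c : ℂ, x = c • b)
    (hM : ∀ y : Fin N → ℂ, y ≠ 0 → (∀ g ∈ S, eval (Fin.cons 0 y : Fin (N + 1) → ℂ) g = 0) →
      ∀ (k : ℕ) (c : ℂ), 1 ≤ k → (∀ i, eval y (iter (lead d (aff F)) k i) = c * y i) →
      ∃ m, 1 ≤ m ∧ ∀ t, 1 ≤ t → m ∣ t → Pr ℂ ℂ N (iter (lead d (aff F)) t) y (d ^ t))
    (a : Fin (N + 1) → ℂ) (ha : a ≠ 0) :
    ∃ T : Finset (ℕ × ℕ),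
      {n : ℕ | ∀ g ∈ S, eval ((fun (x : Fin (N + 1) → ℂ) i => eval x (F i))^[n] a) g = 0} =
        {n : ℕ | ∃ q ∈ T, ∃ k : ℕ, n = q.1 * k + q.2} := by
  classical
  -- finitely many equations
  obtain ⟨S₀, hS₀, hspan⟩ := (Submodule.fg_span_iff_fg_span_finset_subset S).1
    ((inferInstance : IsNoetherianRing (MvPolynomial (Fin (N + 1)) ℂ)).noetherian (Ideal.span S))
  have hequiv : ∀ x : Fin (N + 1) → ℂ, (∀ g ∈ S₀, eval x g = 0) ↔ ∀ g ∈ S, eval x g = 0 := by
    intro x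
    refine ⟨fun h g hg => ?_, fun h g hg => h g (hS₀ hg)⟩
    have h1 : Ideal.span (S₀ : Set (MvPolynomial (Fin (N + 1)) ℂ)) ≤ RingHom.ker (eval x) :=
      Ideal.span_le.2 fun p hp => RingHom.mem_ker.2 (h p hp)
    have h2 : g ∈ Ideal.span (S₀ : Set (MvPolynomial (Fin (N + 1)) ℂ)) := by
      have h3 : g ∈ Ideal.span S := Ideal.subset_span hg
      have h4 : Ideal.span S = Ideal.span (S₀ : Set (MvPolynomial (Fin (N + 1)) ℂ)) := hspan
      rwa [h4] at h3
    exact RingHom.mem_ker.1 (h1 h2)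
  set Φ : (Fin (N + 1) → ℂ) → Fin (N + 1) → ℂ := fun x i => eval x (F i) with hΦ
  have hΦs : ∀ (u : ℂ) (x : Fin (N + 1) → ℂ), Φ (u • x) = u ^ d • Φ x := by
    intro u x
    funext i
    exact eval_smul_hom (hF i) u x
  have hΦnz : ∀ x, x ≠ 0 → Φ x ≠ 0 := by
    intro x hx h0
    exact hx (hnz x fun i => congrFun h0 i)
  have hnzn : ∀ n, Φ^[n] a ≠ 0 := by
    intro n
    induction n with
    | zero => exact ha
    | succ n ih =>
      rw [Function.iterate_succ_apply']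
      exact hΦnz _ ih
  have hSs : ∀ (u : ℂ) (x : Fin (N + 1) → ℂ), u ≠ 0 →
      ((∀ g ∈ S, eval (u • x) g = 0) ↔ ∀ g ∈ S, eval x g = 0) := by
    intro u x hu
    refine forall₂_congr fun g hg => ?_
    obtain ⟨e, he⟩ := hS g hg
    rw [eval_smul_hom he, mul_eq_zero, or_iff_right (pow_ne_zero e hu)]
  by_cases ha0 : a 0 = 0
  · -- the orbit lies in the hyperplane
    obtain ⟨B, hB⟩ := hfin
    have h0 : ∀ n, (Φ^[n] a) 0 = 0 := by
      intro n
      induction n with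
      | zero => exact ha0
      | succ n ih =>
        rw [Function.iterate_succ_apply']
        change eval (Φ^[n] a) (F 0) = 0
        rw [hF0, map_pow, eval_X, ih, zero_pow (by omega)]
    apply ap_of_ultra
    intro 𝒰 h𝒰 h𝒩
    have h1 : ∀ᶠ n in (𝒰 : Filter ℕ), ∃ b ∈ B, ∃ c : ℂ, Φ^[n] a = c • b := by
      have h2 : ∀ᶠ n in (𝒰 : Filter ℕ), ∀ g ∈ S, eval (Φ^[n] a) g = 0 := h𝒩
      filter_upwards [h2] with n hn
      exact hB _ (hnzn n) (h0 n) hn
    obtain ⟨b, _, hb⟩ := exists_eventually_mem B h1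
    obtain ⟨n₁, c₁, hn₁⟩ := hb.exists
    obtain ⟨n₂, ⟨c₂, hn₂⟩, hlt⟩ := (hb.and (h𝒰 (eventually_gt_atTop n₁))).exists
    have hc₁ : c₁ ≠ 0 := by
      rintro rfl
      rw [zero_smul] at hn₁
      exact hnzn n₁ hn₁
    have hc₂ : c₂ ≠ 0 := by
      rintro rfl
      rw [zero_smul] at hn₂
      exact hnzn n₂ hn₂
    have hper : ∀ n, n₁ ≤ n → ∃ u : ℂ, u ≠ 0 ∧ Φ^[n + (n₂ - n₁)] a = u • Φ^[n] a := by
      intro n hn
      induction n, hn using Nat.le_induction with
      | base =>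
        refine ⟨c₂ / c₁, div_ne_zero hc₂ hc₁, ?_⟩
        rw [show n₁ + (n₂ - n₁) = n₂ by omega, hn₂, hn₁, smul_smul, div_mul_cancel₀ _ hc₁]
      | succ n hn ih =>
        obtain ⟨u, hu, h⟩ := ih
        refine ⟨u ^ d, pow_ne_zero d hu, ?_⟩
        rw [show n + 1 + (n₂ - n₁) = n + (n₂ - n₁) + 1 by omega, Function.iterate_succ_apply',
          Function.iterate_succ_apply', h, hΦs]
    refine ⟨{n | ∀ g ∈ S, eval (Φ^[n] a) g = 0} ∩ Set.Ici n₁, Set.inter_subset_left,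
      inter_mem h𝒩 (h𝒰 (Ici_mem_atTop n₁)), n₂ - n₁, by omega, ?_⟩
    rintro n ⟨hn, hn1⟩
    refine ⟨?_, Set.mem_Ici.2 (le_trans hn1 (Nat.le_add_right _ _))⟩
    obtain ⟨u, hu, h⟩ := hper n hn1
    change ∀ g ∈ S, eval (Φ^[n + (n₂ - n₁)] a) g = 0
    rw [h]
    exact (hSs u _ hu).2 hn
  · -- affine points
    set b : Fin N → ℂ := fun i => (a 0)⁻¹ * a i.succ with hb
    have horb : ∀ n, ∃ u : ℂ, u ≠ 0 ∧ Φ^[n] a = u • (Fin.cons 1 (orb (aff F) b n) :
        Fin (N + 1) → ℂ) := by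
      intro n
      induction n with
      | zero =>
        refine ⟨a 0, ha0, ?_⟩
        funext i
        refine Fin.cases ?_ (fun j => ?_) i
        · simp
        · change a j.succ = a 0 * (Fin.cons 1 b : Fin (N + 1) → ℂ) j.succ
          rw [Fin.cons_succ, hb, mul_inv_cancel_left₀ ha0]
      | succ n ih =>
        obtain ⟨u, hu, h⟩ := ih
        refine ⟨u ^ d, pow_ne_zero d hu, ?_⟩
        rw [Function.iterate_succ_apply', h, hΦs]
        congr 1
        funext i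
        refine Fin.cases ?_ (fun j => ?_) i
        · change eval _ (F 0) = _
          rw [hF0, map_pow, eval_X, Fin.cons_zero, Fin.cons_zero, one_pow]
        · change eval _ (F j.succ) = _
          rw [← eval_deh, Fin.cons_succ, orb_succ]
          rfl
    obtain ⟨T, hT⟩ := main_fin G hd F hF hF0 hnz S₀ (fun g hg => hS g (hS₀ hg)) (by
      obtain ⟨B, hB⟩ := hfin
      exact ⟨B, fun x hx hx0 hxS => hB x hx hx0 ((hequiv x).1 hxS)⟩)
      (fun y hy hyS => hM y hy ((hequiv _).1 hyS)) b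
    refine ⟨T, ?_⟩
    rw [← hT]
    ext n
    obtain ⟨u, hu, h⟩ := horb n
    rw [Set.mem_ofPred_eq, Set.mem_ofPred_eq, h, hSs u _ hu, ← hequiv]
    refine forall₂_congr fun g _ => ?_
    rw [eval_deh]

end Pool.Agent.Helper58.IC
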