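import Pool.Agent.Helper58.IC.Ball

/-!
# Periodic points of projective space over a local ring

PROOF of P4. `𝔪` = maximal ideal, `k` = residue field, `E₁ = (Q ^ N)!`, `E₂ = (Q ^ (N N))!`,
`E0 N Q = E₁ E₂`.
(1) A vector is called primitive if some coordinate is a unit. By `Cert` and since `O` is local, `h x`
is primitive for primitive `x` (`∑ A i j (x) h j (x) = x i ^ M`); so are all iterates. Also
`iterR h n` is homogeneous of degree `d ^ n` and
`eval x (iterR h (m + n) i) = eval (fun j => eval x (iterR h m j)) (iterR h n i)`.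
(2) Modulo `𝔪` the classes up to scalars of the iterates of `q` in `k ^ N \ {0}` form a cycle (as `q` is
periodic; the scalar `c` is a unit because both sides are primitive) of length at most
`(card k) ^ N ≤ Q ^ N`, so with `g = iterR h E₁` we have `g (q) = c₁ q` modulo `𝔪`, `c₁` a unit.
(3) On the ball of `q` the function `g_{i₀}` takes unit values. Put `G x i = g_i (x) / g_{i₀} (x)` (any
value off the ball). It maps the ball of `q` into itself, and every `G · i` satisfies `Lin` by
`lin_eval`, `lin_div`. Let `A` be the matrix of the derivatives.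
(4) The monoid of the `N × N` matrices over `k` has at most `Q ^ (N N)` elements, so `A ^ E₂` is
idempotent modulo `𝔪` (in a finite monoid with at most `s` elements `a ^ (s!)` is idempotent).
(5) `G^[n] q` is the normalisation (coordinate `i₀` equal to `1`) of `iterR h (E₁ n) (q)`, by
homogeneity. So `G^[k] q = q` (from `hper`, the iterate `E₁ k` also fixes `q` up to a scalar) and
`ball_period` gives `G^[E₂ p ^ e] q = q`, that is the claim.
-/

set_option autoImplicit false

namespace Pool.Agent.Helper58.IC

open MvPolynomial Filter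
open Pool.Agent.Helper65.RP (MultLT orb iter van)

/-- The exponent for points over a local ring with residue field of size at most `Q`. -/
def E0 (N Q : ℕ) : ℕ := (Q ^ N).factorial * (Q ^ (N * N)).factorial

section maps
variable {O : Type} [CommRing O] {N : ℕ}

/-- The map defined by the polynomials `h`. -/
private noncomputable def ev (h : Fin N → MvPolynomial (Fin N) O) (x : Fin N → O) : Fin N → O :=
  fun i => eval x (h i)

private theorem eval_iterR (h : Fin N → MvPolynomial (Fin N) O) (n : ℕ) (x : Fin N → O)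
    (i : Fin N) : eval x (iterR h n i) = (ev h)^[n] x i := by
  induction n generalizing i with
  | zero => simp [iterR]
  | succ n ih =>
    rw [Function.iterate_succ_apply']
    show eval x (bind₁ (iterR h n) (h i)) = eval ((ev h)^[n] x) (h i)
    rw [← coe_aeval_eq_eval, RingHom.coe_coe, aeval_bind₁]
    have h1 : (fun j => aeval x (iterR h n j)) = (ev h)^[n] x := by
      ext j
      rw [← ih j, ← coe_aeval_eq_eval]
      rfl
    rw [h1, ← coe_aeval_eq_eval]
    rfl

private theorem ev_smul {d : ℕ} {h : Fin N → MvPolynomial (Fin N) O}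
    (hh : ∀ i, (h i).IsHomogeneous d) (c : O) (x : Fin N → O) :
    ev h (c • x) = c ^ d • ev h x := by
  ext i
  rw [Pi.smul_apply, smul_eq_mul]
  show eval (c • x) (h i) = c ^ d * eval x (h i)
  rw [eval_eq, eval_eq, Finset.mul_sum]
  refine Finset.sum_congr rfl fun m hm => ?_
  have h1 : ∑ k, m k = d := by
    have h2 := hh i (mem_support_iff.1 hm)
    rw [Finsupp.weight_apply] at h2
    rw [← h2, Finsupp.sum_fintype]
    · exact Finset.sum_congr rfl fun k _ => by simp
    · intro k
      simp
  have h3 : ∏ k ∈ m.support, (c • x) k ^ m k = c ^ d * ∏ k ∈ m.support, x k ^ m k := by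
    have h4 : ∀ y : Fin N → O, ∏ k ∈ m.support, y k ^ m k = ∏ k, y k ^ m k := by
      intro y
      refine Finset.prod_subset (Finset.subset_univ _) fun k _ hk => ?_
      rw [Finsupp.notMem_support_iff.1 hk, pow_zero]
    rw [h4, h4, ← h1, ← Finset.prod_pow_eq_pow_sum, ← Finset.prod_mul_distrib]
    exact Finset.prod_congr rfl fun k _ => by rw [Pi.smul_apply, smul_eq_mul, mul_pow]
  rw [h3]
  ring

private theorem iter_smul {d : ℕ} {h : Fin N → MvPolynomial (Fin N) O}
    (hh : ∀ i, (h i).IsHomogeneous d) (n : ℕ) (c : O) (x : Fin N → O) :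
    (ev h)^[n] (c • x) = c ^ d ^ n • (ev h)^[n] x := by
  induction n generalizing c x with
  | zero => rw [Function.iterate_zero, id, id, pow_zero, pow_one]
  | succ n ih =>
    rw [Function.iterate_succ_apply, Function.iterate_succ_apply, ev_smul hh, ih, ← pow_mul,
      ← pow_succ']

/-- Congruent arguments have congruent values. -/
private theorem eval_congr (I : Ideal O) {x y : Fin N → O} (hy : ∀ i, y i - x i ∈ I)
    (P : MvPolynomial (Fin N) O) : eval y P - eval x P ∈ I := by
  induction P using MvPolynomial.induction_on with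
  | C a => simp
  | add p q hp hq =>
    have : eval y (p + q) - eval x (p + q) = (eval y p - eval x p) + (eval y q - eval x q) := by
      simp only [map_add]; ring
    rw [this]
    exact I.add_mem hp hq
  | mul_X p i hp =>
    have : eval y (p * X i) - eval x (p * X i) =
        (eval y p - eval x p) * y i + eval x p * (y i - x i) := by
      simp only [map_mul, eval_X]; ring
    rw [this]
    exact I.add_mem (I.mul_mem_right _ hp) (I.mul_mem_left _ (hy i))

/-- Equality up to a unit modulo an ideal. -/
private def Sim (I : Ideal O) (x y : Fin N → O) : Prop :=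
  ∃ c : O, IsUnit c ∧ ∀ i, x i - c * y i ∈ I

private theorem Sim.refl (I : Ideal O) (x : Fin N → O) : Sim I x x :=
  ⟨1, isUnit_one, fun i => by
    rw [one_mul, sub_self]
    exact I.zero_mem⟩

private theorem Sim.symm {I : Ideal O} {x y : Fin N → O} (h : Sim I x y) : Sim I y x := by
  obtain ⟨_, ⟨c, rfl⟩, h⟩ := h
  refine ⟨((c⁻¹ : Oˣ) : O), Units.isUnit _, fun i => ?_⟩
  have h1 := I.mul_mem_left (-((c⁻¹ : Oˣ) : O)) (h i)
  have h2 : -((c⁻¹ : Oˣ) : O) * (x i - (c : O) * y i) = y i - ((c⁻¹ : Oˣ) : O) * x i := by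
    have h3 : ((c⁻¹ : Oˣ) : O) * (c : O) = 1 := Units.inv_mul c
    linear_combination (y i) * h3
  rwa [h2] at h1

private theorem Sim.trans {I : Ideal O} {x y z : Fin N → O} (h : Sim I x y) (h' : Sim I y z) :
    Sim I x z := by
  obtain ⟨c, hc, h⟩ := h
  obtain ⟨c', hc', h'⟩ := h'
  refine ⟨c * c', hc.mul hc', fun i => ?_⟩
  have h1 := I.add_mem (h i) (I.mul_mem_left c (h' i))
  have h2 : x i - c * y i + c * (y i - c' * z i) = x i - c * c' * z i := by ring
  rwa [h2] at h1

private theorem Sim.ev {I : Ideal O} {d : ℕ} {h : Fin N → MvPolynomial (Fin N) O}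
    (hh : ∀ i, (h i).IsHomogeneous d) {x y : Fin N → O} (hxy : Sim I x y) :
    Sim I (ev h x) (ev h y) := by
  obtain ⟨c, hc, hxy⟩ := hxy
  refine ⟨c ^ d, hc.pow d, fun i => ?_⟩
  have h1 := congrFun (ev_smul hh c y) i
  rw [Pi.smul_apply, smul_eq_mul] at h1
  rw [← h1]
  exact eval_congr I (x := c • y) (y := x) hxy (h i)

private theorem Sim.iter {I : Ideal O} {d : ℕ} {h : Fin N → MvPolynomial (Fin N) O}
    (hh : ∀ i, (h i).IsHomogeneous d) {x y : Fin N → O} (hxy : Sim I x y) (n : ℕ) :
    Sim I ((IC.ev h)^[n] x) ((IC.ev h)^[n] y) := by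
  induction n with
  | zero => exact hxy
  | succ n ih =>
    rw [Function.iterate_succ_apply', Function.iterate_succ_apply']
    exact ih.ev hh

/-- Multiples of a period are periods. -/
private theorem Sim.mul {I : Ideal O} {d : ℕ} {h : Fin N → MvPolynomial (Fin N) O}
    (hh : ∀ i, (h i).IsHomogeneous d) {x : Fin N → O} {k : ℕ}
    (hk : Sim I ((IC.ev h)^[k] x) x) (t : ℕ) : Sim I ((IC.ev h)^[k * t] x) x := by
  induction t with
  | zero => exact Sim.refl I x
  | succ t ih =>
    rw [Nat.mul_succ, Nat.add_comm, Function.iterate_add_apply]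
    exact (ih.iter hh k).trans hk

end maps

section finite_
variable {O : Type} [CommRing O] [IsLocalRing O] {N : ℕ}

/-- The reduction of a periodic point has a period at most `Q ^ N`. -/
private theorem period_mod (Q : ℕ) (hfin : Finite (IsLocalRing.ResidueField O))
    (hQ : Nat.card (IsLocalRing.ResidueField O) ≤ Q) {d : ℕ}
    {h : Fin N → MvPolynomial (Fin N) O} (hh : ∀ i, (h i).IsHomogeneous d) {q : Fin N → O} {k : ℕ}
    (hk : 1 ≤ k) (hper : Sim (IsLocalRing.maximalIdeal O) ((ev h)^[k] q) q) :
    Sim (IsLocalRing.maximalIdeal O) ((ev h)^[(Q ^ N).factorial] q) q := by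
  classical
  have := Fintype.ofFinite (IsLocalRing.ResidueField O)
  let f : ℕ → Fin N → IsLocalRing.ResidueField O :=
    fun n i => IsLocalRing.residue O ((ev h)^[n] q i)
  have hcard : (Finset.univ : Finset (Fin N → IsLocalRing.ResidueField O)).card <
      (Finset.range (Q ^ N + 1)).card := by
    rw [Finset.card_range, Finset.card_univ, Fintype.card_fun, Fintype.card_fin,
      ← Nat.card_eq_fintype_card]
    exact Nat.lt_succ_of_le (Nat.pow_le_pow_left hQ N)
  obtain ⟨a, ha, b, hb, hab, heq⟩ := Finset.exists_ne_map_eq_of_card_lt_of_maps_to hcard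
    (f := f) (fun _ _ => Finset.mem_coe.2 (Finset.mem_univ _))
  wlog hlt : a < b generalizing a b
  · exact this b hb a ha hab.symm heq.symm (by omega)
  have hb' : b ≤ Q ^ N := by
    have := Finset.mem_range.1 hb
    omega
  have hAB : Sim (IsLocalRing.maximalIdeal O) ((ev h)^[b] q) ((ev h)^[a] q) := by
    refine ⟨1, isUnit_one, fun i => ?_⟩
    rw [one_mul, ← IsLocalRing.residue_eq_zero_iff, map_sub, sub_eq_zero]
    exact (congrFun heq i).symm
  have hg : Sim (IsLocalRing.maximalIdeal O) ((ev h)^[b - a] q) q := by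
    have h1 := Sim.mul hh hper a
    have h2 := (h1.iter hh (b - a)).symm
    rw [← Function.iterate_add_apply] at h2
    have h3 := hAB.iter hh (k * a - a)
    rw [← Function.iterate_add_apply, ← Function.iterate_add_apply] at h3
    have hle : a ≤ k * a := Nat.le_mul_of_pos_left a hk
    have e1 : k * a - a + b = b - a + k * a := by omega
    have e2 : k * a - a + a = k * a := by omega
    rw [e1, e2] at h3
    exact (h2.trans h3).trans h1
  obtain ⟨t, ht⟩ : (b - a) ∣ (Q ^ N).factorial :=
    Nat.dvd_factorial (by omega) (by omega)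
  rw [ht]
  exact Sim.mul hh hg t

/-- Powers of a matrix modulo the maximal ideal become idempotent. -/
private theorem idem_mod (Q : ℕ) (hfin : Finite (IsLocalRing.ResidueField O))
    (hQ : Nat.card (IsLocalRing.ResidueField O) ≤ Q) (A : Matrix (Fin N) (Fin N) O) (i j : Fin N) :
    (A ^ (Q ^ (N * N)).factorial * A ^ (Q ^ (N * N)).factorial -
      A ^ (Q ^ (N * N)).factorial) i j ∈ IsLocalRing.maximalIdeal O := by
  classical
  have := Fintype.ofFinite (IsLocalRing.ResidueField O)
  let f : ℕ → Fin N → Fin N → IsLocalRing.ResidueField O :=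
    fun n => (A.map (IsLocalRing.residue O)) ^ n
  have hcard : (Finset.univ : Finset (Fin N → Fin N → IsLocalRing.ResidueField O)).card <
      (Finset.range (Q ^ (N * N) + 1)).card := by
    rw [Finset.card_range, Finset.card_univ, Fintype.card_fun, Fintype.card_fun,
      Fintype.card_fin, ← Nat.card_eq_fintype_card, ← pow_mul]
    exact Nat.lt_succ_of_le (Nat.pow_le_pow_left hQ _)
  obtain ⟨a, ha, b, hb, hab, heq⟩ := Finset.exists_ne_map_eq_of_card_lt_of_maps_to hcard
    (f := f) (fun _ _ => Finset.mem_coe.2 (Finset.mem_univ _))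
  wlog hlt : a < b generalizing a b
  · exact this b hb a ha hab.symm heq.symm (by omega)
  have hb' : b ≤ Q ^ (N * N) := by
    have := Finset.mem_range.1 hb
    omega
  set s := (Q ^ (N * N)).factorial with hs
  set B := A.map (IsLocalRing.residue O) with hB
  have hstep : ∀ t n, a ≤ n → B ^ (n + (b - a) * t) = B ^ n := by
    intro t
    induction t with
    | zero =>
      intro n _
      rw [Nat.mul_zero, Nat.add_zero]
    | succ t ih =>
      intro n hn
      have e1 : n + (b - a) * (t + 1) = (n - a) + b + (b - a) * t := by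
        rw [Nat.mul_succ]
        omega
      rw [e1, ih _ (by omega), pow_add, ← (show B ^ a = B ^ b from heq), ← pow_add]
      congr 1
      omega
  obtain ⟨t, ht⟩ : (b - a) ∣ s := Nat.dvd_factorial (by omega) (by omega)
  have hle : a ≤ s := by
    have h1 : Q ^ (N * N) ≤ s := Nat.self_le_factorial _
    omega
  have hkey : B ^ s * B ^ s = B ^ s := by
    rw [← pow_add]
    have h1 := hstep t s hle
    rwa [← ht] at h1
  have hmap : (A ^ s).map (IsLocalRing.residue O) = B ^ s :=
    map_pow (RingHom.mapMatrix (IsLocalRing.residue O)) A s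
  rw [← IsLocalRing.residue_eq_zero_iff, Matrix.sub_apply, map_sub, sub_eq_zero]
  rw [← hmap, ← Matrix.map_mul] at hkey
  exact congrFun (congrFun hkey i) j

/-- A vector with a unit coordinate. -/
private def Prim (x : Fin N → O) : Prop := ∃ i, IsUnit (x i)

private theorem Prim.ev {h : Fin N → MvPolynomial (Fin N) O} (hc : Cert h) {x : Fin N → O}
    (hx : Prim x) : Prim (ev h x) := by
  obtain ⟨i, hi⟩ := hx
  obtain ⟨M, A, _, hA⟩ := hc
  by_contra hcon
  have h1 : ∀ j, IC.ev h x j ∈ IsLocalRing.maximalIdeal O := fun j =>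
    (IsLocalRing.mem_maximalIdeal _).2 fun hj => hcon ⟨j, hj⟩
  have h2 := congrArg (eval x) (hA i)
  rw [map_pow, eval_X, map_sum] at h2
  have h3 : x i ^ M ∈ IsLocalRing.maximalIdeal O := by
    rw [h2]
    refine Ideal.sum_mem _ fun j _ => ?_
    rw [map_mul]
    exact Ideal.mul_mem_left _ _ (h1 j)
  exact (IsLocalRing.mem_maximalIdeal _).1 h3 (hi.pow M)

private theorem Prim.iter {h : Fin N → MvPolynomial (Fin N) O} (hc : Cert h) {x : Fin N → O}
    (hx : Prim x) (n : ℕ) : Prim ((IC.ev h)^[n] x) := by
  induction n with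
  | zero => exact hx
  | succ n ih =>
    rw [Function.iterate_succ_apply']
    exact ih.ev hc

private theorem isUnit_of_sub_mem {u c : O} (hc : IsUnit c)
    (h : u - c ∈ IsLocalRing.maximalIdeal O) : IsUnit u := by
  by_contra hu
  have h1 : u ∈ IsLocalRing.maximalIdeal O := (IsLocalRing.mem_maximalIdeal u).2 hu
  have h2 : c ∈ IsLocalRing.maximalIdeal O := by
    have := Ideal.sub_mem _ h1 h
    rwa [sub_sub_cancel] at this
  exact (IsLocalRing.mem_maximalIdeal c).1 h2 hc

end finite_

/-- P4. Periodic points of projective space over a local ring with finite residue field. -/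
theorem proj_period_local {O : Type} [CommRing O] [IsLocalRing O] {N : ℕ} [IsDomain O]
    [IsNoetherianRing O] (p : ℕ) (hp : p.Prime)
    (hpm : (p : O) ∈ IsLocalRing.maximalIdeal O) (Q : ℕ)
    (hfin : Finite (IsLocalRing.ResidueField O)) (hQ : Nat.card (IsLocalRing.ResidueField O) ≤ Q)
    {d : ℕ} (hd : 1 ≤ d) (h : Fin N → MvPolynomial (Fin N) O) (hh : ∀ i, (h i).IsHomogeneous d)
    (hc : Cert h) (q : Fin N → O) (i₀ : Fin N) (hq : q i₀ = 1) (k : ℕ) (hk : 1 ≤ k) (c : O)
    (hper : ∀ i, eval q (iterR h k i) = c * q i) :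
    ∃ (e : ℕ) (c : O), ∀ i, eval q (iterR h (E0 N Q * p ^ e) i) = c * q i := by
  classical
  have hqq : ∀ i, q i - q i ∈ IsLocalRing.maximalIdeal O := fun i => by
    rw [sub_self]
    exact Ideal.zero_mem _
  have hprim : Prim q := ⟨i₀, by rw [hq]; exact isUnit_one⟩
  have hper' : (ev h)^[k] q = c • q := by
    ext i
    rw [← eval_iterR, hper i, Pi.smul_apply, smul_eq_mul]
  have hcu : IsUnit c := by
    obtain ⟨i, hi⟩ := hprim.iter hc k
    rw [hper', Pi.smul_apply, smul_eq_mul] at hi
    exact isUnit_of_mul_isUnit_left hi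
  -- the period modulo the maximal ideal
  set E₁ := (Q ^ N).factorial with hE₁
  set E₂ := (Q ^ (N * N)).factorial with hE₂
  obtain ⟨c₁, hc₁, hmod⟩ : Sim (IsLocalRing.maximalIdeal O) ((ev h)^[E₁] q) q := by
    refine period_mod Q hfin hQ hh hk ⟨c, hcu, fun i => ?_⟩
    rw [hper', Pi.smul_apply, smul_eq_mul, sub_self]
    exact Ideal.zero_mem _
  -- the chart
  set g := iterR h E₁ with hg
  have hgu : ∀ x : Fin N → O, (∀ i, x i - q i ∈ IsLocalRing.maximalIdeal O) →
      IsUnit (eval x (g i₀)) := by
    intro x hx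
    refine isUnit_of_sub_mem hc₁ ?_
    have h1 := Ideal.add_mem _ (eval_congr _ hx (g i₀)) (hmod i₀)
    rw [hq, mul_one, ← eval_iterR, sub_add_sub_cancel] at h1
    exact h1
  let G : (Fin N → O) → Fin N → O := fun x i => eval x (g i) * Ring.inverse (eval x (g i₀))
  have hGe : ∀ x : Fin N → O, (∀ i, x i - q i ∈ IsLocalRing.maximalIdeal O) → ∀ i,
      G x i * eval x (g i₀) = eval x (g i) := by
    intro x hx i
    show eval x (g i) * Ring.inverse (eval x (g i₀)) * eval x (g i₀) = eval x (g i)
    rw [mul_assoc, Ring.inverse_mul_cancel _ (hgu x hx), mul_one]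
  have hG : ∀ x : Fin N → O, (∀ i, x i - q i ∈ IsLocalRing.maximalIdeal O) →
      ∀ i, G x i - q i ∈ IsLocalRing.maximalIdeal O := by
    intro x hx i
    have h1 := hGe x hx i
    obtain ⟨v, hv⟩ := hgu x hx
    have h2 : (G x i - q i) * eval x (g i₀) ∈ IsLocalRing.maximalIdeal O := by
      have h3 := eval_congr _ hx (g i)
      have h4 := eval_congr _ hx (g i₀)
      have h5 := hmod i
      have h6 := hmod i₀
      rw [← eval_iterR] at h5 h6
      rw [hq, mul_one] at h6
      have h7 : (G x i - q i) * eval x (g i₀) =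
          (eval x (g i) - eval q (g i)) + (eval q (g i) - c₁ * q i) -
            q i * ((eval x (g i₀) - eval q (g i₀)) + (eval q (g i₀) - c₁)) := by
        rw [sub_mul, h1]
        ring
      rw [h7]
      exact Ideal.sub_mem _ (Ideal.add_mem _ h3 h5)
        (Ideal.mul_mem_left _ _ (Ideal.add_mem _ h4 h6))
    rw [← hv] at h2
    have h3 := Ideal.mul_mem_right ((v⁻¹ : Oˣ) : O) _ h2
    rwa [mul_assoc, Units.mul_inv, mul_one] at h3
  have hlin : ∀ i, ∃ l, Lin q (fun x => G x i) l := by
    intro i
    obtain ⟨l, hl⟩ := lin_eval q (g i)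
    obtain ⟨l', hl'⟩ := lin_eval q (g i₀)
    exact lin_div q (fun x => eval x (g i)) (fun x => eval x (g i₀)) (fun x => G x i) l l' hl hl'
      hgu (fun x hx => hGe x hx i)
  choose A hA using hlin
  -- the iterates in the chart
  have hball : ∀ n, ∀ i, (G^[n] q) i - q i ∈ IsLocalRing.maximalIdeal O := by
    intro n
    induction n with
    | zero => exact hqq
    | succ n ih =>
      rw [Function.iterate_succ_apply']
      exact hG _ ih
  have hone : ∀ n, (G^[n] q) i₀ = 1 := by
    intro n
    rcases n with _ | n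
    · exact hq
    · rw [Function.iterate_succ_apply']
      exact Ring.mul_inverse_cancel _ (hgu _ (hball n))
  have hrel : ∀ n, ∃ c : O, IsUnit c ∧ (ev h)^[E₁ * n] q = c • (G^[n] q) := by
    intro n
    induction n with
    | zero => exact ⟨1, isUnit_one, by rw [one_smul]; rfl⟩
    | succ n ih =>
      obtain ⟨c, hc, h1⟩ := ih
      refine ⟨c ^ d ^ E₁ * eval (G^[n] q) (g i₀), (hc.pow _).mul (hgu _ (hball n)), ?_⟩
      rw [Nat.mul_succ, Nat.add_comm, Function.iterate_add_apply, h1, iter_smul hh, mul_smul]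
      congr 1
      ext i
      rw [← eval_iterR, Function.iterate_succ_apply', Pi.smul_apply, smul_eq_mul, mul_comm,
        hGe _ (hball n)]
  have hpk : ∀ n, ∃ c : O, (ev h)^[k * n] q = c • q := by
    intro n
    induction n with
    | zero => exact ⟨1, by rw [one_smul]; rfl⟩
    | succ n ih =>
      obtain ⟨c', h1⟩ := ih
      refine ⟨c' ^ d ^ k * c, ?_⟩
      rw [Nat.mul_succ, Nat.add_comm, Function.iterate_add_apply, h1, iter_smul hh, hper',
        mul_smul]
  have hfix : G^[k] q = q := by
    obtain ⟨c', hc', h1⟩ := hrel k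
    obtain ⟨c'', h2⟩ := hpk E₁
    rw [mul_comm, h1] at h2
    have h3 := congrFun h2 i₀
    rw [Pi.smul_apply, Pi.smul_apply, smul_eq_mul, smul_eq_mul, hone, hq, mul_one, mul_one] at h3
    rw [← h3] at h2
    ext i
    have h4 := congrFun h2 i
    rw [Pi.smul_apply, Pi.smul_apply, smul_eq_mul, smul_eq_mul] at h4
    exact hc'.mul_left_cancel h4
  obtain ⟨e, he⟩ := ball_period p hp hpm G q (Matrix.of A) hG hA E₂
    (Nat.succ_le_of_lt (Nat.factorial_pos _)) (idem_mod Q hfin hQ (Matrix.of A)) k hk hfix
  obtain ⟨c', _, h1⟩ := hrel (E₂ * p ^ e)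
  refine ⟨e, c', fun i => ?_⟩
  rw [eval_iterR, E0, mul_assoc, h1, he, Pi.smul_apply, smul_eq_mul]

end Pool.Agent.Helper58.IC
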