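import Pool.Agent.Helper58.IC.Ext

/-!
# Roots of the specialised minimal polynomial

`A = MvPolynomial (Fin r) ℤ` is a UFD, hence integrally closed; `R` is a domain containing `A`
(`hB.inj`), hence torsion free.

T2a. `R₁ = integralClosure A R` is integral over `B = Algebra.adjoin A {x}` (`x` lies in `R₁`; define
`B` inside `R₁`). `minpoly.equivAdjoin` (or `minpoly.ToAdjoin`): `B ≅ A[X]/(minpoly A x)`. By
`AdjoinRoot.lift` the root `α` gives `φ₀ : B → Ω` which is `(Int.castRingHom Ω).comp (eval z)` on `A`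
and sends `x` to `α`. By `exists_ext` it extends to `R₁ → Ω`. Since `ℓ ≠ 0` in `Ω`, and by `hB.int`
and `hB.unit` every element of `R` is `x₁ / ℓ ^ m` with `x₁` in `R₁`, `R` is the localization of `R₁`
away from `ℓ` (or define the extension by hand) and the map extends to `R`.

T2b. For some `m` the element `x = ℓ ^ m g` is integral over `A` and nonzero. With
`p = minpoly A x` we have `p.coeff 0 ≠ 0` (otherwise `p = X p'` and `p' (x) = 0`, against
minimality), and `algebraMap (p.coeff 0) = - x * aeval x p.divX` is a multiple of `g`.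

T2c. Let `e` be as in `hB.gen`. Multiplying by powers of `ℓ` there are one `m` and `c j k` in `A`
with `ℓ ^ m x e_j = ∑_k c j k e_k`. The vector `(e_j)` is not zero (`hB.gen` for `1`), so
`det (ℓ ^ m x - c) = 0` in the domain `R`, that is, the nonzero polynomial
`(charpoly c).comp (ℓ ^ m X)` of degree `D` over `A` vanishes at `x`. The minimal polynomial
divides it (`minpoly.isIntegrallyClosed_dvd`).
-/

set_option autoImplicit false

namespace Pool.Agent.Helper58.IC

open MvPolynomial Filter
open Pool.Agent.Helper65.RP (MultLT orb iter van)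

section base
variable {r ℓ D : ℕ} {R : Type} [CommRing R] [IsDomain R] [Algebra (MvPolynomial (Fin r) ℤ) R]

/-- The ring `R` is torsion free over the polynomial ring. -/
private theorem torsionFree (hB : IsBase r ℓ D R) :
    Module.IsTorsionFree (MvPolynomial (Fin r) ℤ) R := by
  have h : FaithfulSMul (MvPolynomial (Fin r) ℤ) R :=
    (faithfulSMul_iff_algebraMap_injective _ _).2 hB.inj
  infer_instance

/-- Extension of a homomorphism, with a prescribed value at an integral element. -/
private theorem exists_ext_root {A R Ω : Type} [CommRing A] [IsDomain A] [IsIntegrallyClosed A]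
    [CommRing R] [IsDomain R] [Algebra A R] [Module.IsTorsionFree A R] [Field Ω] [IsAlgClosed Ω]
    (x : R) (hx : IsIntegral A x) (ψ : A →+* Ω) (α : Ω)
    (hα : ((minpoly A x).map ψ).eval α = 0) (ℓ : ℕ) (hℓ0 : (ℓ : Ω) ≠ 0) (hunit : IsUnit (ℓ : R))
    (hint0 : ∀ w : R, ∃ m : ℕ, IsIntegral A ((ℓ : R) ^ m * w)) :
    ∃ y : R →+* Ω, (∀ p : A, y (algebraMap A R p) = ψ p) ∧ y x = α := by
  have hα' : (minpoly A x).eval₂ ψ α = 0 := by rw [← Polynomial.eval_map]; exact hα
  -- the map on the subalgebra generated by `x`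
  let φ₀ : Algebra.adjoin A ({x} : Set R) →+* Ω :=
    (AdjoinRoot.lift ψ α hα').comp
      ((minpoly.equivAdjoin hx).symm : _ →+* AdjoinRoot (minpoly A x))
  have hφA : ∀ p : A, φ₀ (algebraMap A _ p) = ψ p := by
    intro p
    have e : (minpoly.equivAdjoin hx).symm (algebraMap A _ p) =
        algebraMap A (AdjoinRoot (minpoly A x)) p := AlgEquiv.commutes _ _
    change AdjoinRoot.lift ψ α hα' ((minpoly.equivAdjoin hx).symm (algebraMap A _ p)) = ψ p
    rw [e]
    exact AdjoinRoot.lift_of hα'
  have hφx : φ₀ ⟨x, Algebra.self_mem_adjoin_singleton A x⟩ = α := by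
    have e : (minpoly.equivAdjoin hx).symm ⟨x, Algebra.self_mem_adjoin_singleton A x⟩ =
        AdjoinRoot.root (minpoly A x) := by
      rw [AlgEquiv.symm_apply_eq]
      apply Subtype.ext
      simp
    change AdjoinRoot.lift ψ α hα' ((minpoly.equivAdjoin hx).symm ⟨x, _⟩) = α
    rw [e]
    exact AdjoinRoot.lift_root hα'
  -- extension to the integral closure
  have hle : Algebra.adjoin A ({x} : Set R) ≤ integralClosure A R := by
    rw [Algebra.adjoin_le_iff, Set.singleton_subset_iff]
    exact hx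
  let _ : Algebra (Algebra.adjoin A ({x} : Set R)) (integralClosure A R) :=
    (Subalgebra.inclusion hle).toRingHom.toAlgebra
  have htower : IsScalarTower A (Algebra.adjoin A ({x} : Set R)) (integralClosure A R) :=
    IsScalarTower.of_algebraMap_eq (fun p => rfl)
  have hintA : Algebra.IsIntegral A (integralClosure A R) := inferInstance
  have hint : Algebra.IsIntegral (Algebra.adjoin A ({x} : Set R)) (integralClosure A R) :=
    ⟨fun b => (hintA.isIntegral b).tower_top⟩
  have hinj : Function.Injective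
      (algebraMap (Algebra.adjoin A ({x} : Set R)) (integralClosure A R)) :=
    Subalgebra.inclusion_injective hle
  obtain ⟨ψ₁, hψ₁⟩ := exists_ext hinj hint φ₀
  -- extension to the localisation
  have hℓ : IsUnit (ψ₁ (ℓ : integralClosure A R)) := by
    rw [map_natCast]
    exact isUnit_iff_ne_zero.2 hℓ0
  have hloc : IsLocalization.Away (ℓ : integralClosure A R) R := by
    rw [IsLocalization.Away, isLocalization_iff]
    refine ⟨?_, ?_, ?_⟩
    · rintro ⟨y, n, rfl⟩
      change IsUnit (algebraMap (integralClosure A R) R ((ℓ : integralClosure A R) ^ n))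
      rw [map_pow, map_natCast]
      exact hunit.pow n
    · intro w
      obtain ⟨m, hm⟩ := hint0 w
      refine ⟨⟨⟨(ℓ : R) ^ m * w, hm⟩, ⟨(ℓ : integralClosure A R) ^ m, m, rfl⟩⟩, ?_⟩
      change w * algebraMap (integralClosure A R) R ((ℓ : integralClosure A R) ^ m) =
        (ℓ : R) ^ m * w
      rw [map_pow, map_natCast, mul_comm]
    · intro a b hab
      refine ⟨1, ?_⟩
      have : a = b := Subtype.ext hab
      rw [this]
  refine ⟨IsLocalization.Away.lift (ℓ : integralClosure A R) hℓ, ?_, ?_⟩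
  · intro p
    have e1 : algebraMap A R p = algebraMap (integralClosure A R) R
        (algebraMap (Algebra.adjoin A ({x} : Set R)) (integralClosure A R)
          (algebraMap A _ p)) := rfl
    rw [e1, IsLocalization.Away.lift_eq]
    have e2 := congrArg (fun f : _ →+* Ω => f (algebraMap A _ p)) hψ₁
    simp only [RingHom.comp_apply] at e2
    rw [e2, hφA]
  · have e2 := congrArg (fun f : _ →+* Ω =>
      f ⟨x, Algebra.self_mem_adjoin_singleton A x⟩) hψ₁
    simp only [RingHom.comp_apply] at e2
    have e3 : IsLocalization.Away.lift (ℓ : integralClosure A R) hℓ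
        (algebraMap (integralClosure A R) R
        (algebraMap (Algebra.adjoin A ({x} : Set R)) (integralClosure A R)
          ⟨x, Algebra.self_mem_adjoin_singleton A x⟩)) = α := by
      rw [IsLocalization.Away.lift_eq, e2, hφx]
    exact e3

/-- T2a. Every root of the specialised minimal polynomial is the value of a specialisation. -/
theorem exists_spec_root (hB : IsBase r ℓ D R) (x : R)
    (hx : IsIntegral (MvPolynomial (Fin r) ℤ) x) (z : Fin r → ℤ) {Ω : Type} [Field Ω]
    [CharZero Ω] [IsAlgClosed Ω] (α : Ω)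
    (hα : ((minpoly (MvPolynomial (Fin r) ℤ) x).map
      ((Int.castRingHom Ω).comp (eval z))).eval α = 0) :
    ∃ y : R →+* Ω, IsSpec z y ∧ y x = α := by
  have hT := torsionFree hB
  obtain ⟨y, hy, hyx⟩ := exists_ext_root x hx ((Int.castRingHom Ω).comp (eval z)) α hα ℓ
    (Nat.cast_ne_zero.2 hB.pos) hB.unit hB.int
  exact ⟨y, fun p => hy p, hyx⟩

/-- T2b. Every nonzero element divides a nonzero polynomial in the parameters. -/
theorem exists_multiple (hB : IsBase r ℓ D R) (g : R) (hg : g ≠ 0) :
    ∃ (g₀ : MvPolynomial (Fin r) ℤ) (g' : R), g₀ ≠ 0 ∧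
      algebraMap (MvPolynomial (Fin r) ℤ) R g₀ = g * g' := by
  obtain ⟨m, hm⟩ := hB.int g
  have hℓ : (ℓ : R) ^ m ≠ 0 := (hB.unit.pow m).ne_zero
  have hx0 : (ℓ : R) ^ m * g ≠ 0 := mul_ne_zero hℓ hg
  have hdiv := Polynomial.divX_mul_X_add (minpoly (MvPolynomial (Fin r) ℤ) ((ℓ : R) ^ m * g))
  have haev : Polynomial.aeval ((ℓ : R) ^ m * g)
      (minpoly (MvPolynomial (Fin r) ℤ) ((ℓ : R) ^ m * g)).divX * ((ℓ : R) ^ m * g) +
      algebraMap (MvPolynomial (Fin r) ℤ) R
        ((minpoly (MvPolynomial (Fin r) ℤ) ((ℓ : R) ^ m * g)).coeff 0) = 0 := by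
    have h := minpoly.aeval (MvPolynomial (Fin r) ℤ) ((ℓ : R) ^ m * g)
    rw [← hdiv] at h
    simpa using h
  refine ⟨(minpoly (MvPolynomial (Fin r) ℤ) ((ℓ : R) ^ m * g)).coeff 0,
    -((ℓ : R) ^ m * Polynomial.aeval ((ℓ : R) ^ m * g)
      (minpoly (MvPolynomial (Fin r) ℤ) ((ℓ : R) ^ m * g)).divX), ?_, ?_⟩
  · intro h0
    rw [h0, map_zero, add_zero] at haev
    rcases mul_eq_zero.1 haev with h1 | h1
    · have hne := minpoly.ne_zero hm
      have hdx : (minpoly (MvPolynomial (Fin r) ℤ) ((ℓ : R) ^ m * g)).divX ≠ 0 := by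
        intro h2
        rw [h2, h0] at hdiv
        apply hne
        rw [← hdiv]
        simp
      have hmon := minpoly.monic hm
      have hpos : 0 < (minpoly (MvPolynomial (Fin r) ℤ) ((ℓ : R) ^ m * g)).natDegree :=
        minpoly.natDegree_pos hm
      have hdm : (minpoly (MvPolynomial (Fin r) ℤ) ((ℓ : R) ^ m * g)).divX.Monic := by
        rw [Polynomial.Monic, Polynomial.leadingCoeff, Polynomial.natDegree_divX_eq_natDegree_tsub_one,
          Polynomial.coeff_divX, Nat.sub_add_cancel hpos]
        exact hmon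
      have hmin := minpoly.min (MvPolynomial (Fin r) ℤ) ((ℓ : R) ^ m * g) hdm h1
      have hlt := Polynomial.degree_divX_lt hne
      exact absurd hmin (not_le.2 hlt)
    · exact hx0 h1
  · have h2 := eq_neg_of_add_eq_zero_right haev
    rw [h2]
    ring

/-- T2c. The degree of the minimal polynomial. -/
theorem natDegree_minpoly_le (hB : IsBase r ℓ D R) (x : R)
    (hx : IsIntegral (MvPolynomial (Fin r) ℤ) x) :
    (minpoly (MvPolynomial (Fin r) ℤ) x).natDegree ≤ D := by
  have hT := torsionFree hB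
  obtain ⟨e, he⟩ := hB.gen
  have he0 : e ≠ 0 := by
    intro h0
    obtain ⟨m, c, hc⟩ := he 1
    rw [h0] at hc
    simp only [Pi.zero_apply, mul_zero, Finset.sum_const_zero, mul_one] at hc
    exact (hB.unit.pow m).ne_zero hc
  choose m c hc using fun j : Fin D => he (x * e j)
  let M : ℕ := ∑ j, m j
  have hM : ∀ j, m j ≤ M := fun j => Finset.single_le_sum (f := m) (fun i _ => Nat.zero_le _)
    (Finset.mem_univ j)
  let C : Matrix (Fin D) (Fin D) (MvPolynomial (Fin r) ℤ) :=
    fun j k => (ℓ : MvPolynomial (Fin r) ℤ) ^ (M - m j) * c j k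
  have hC : ∀ j, (ℓ : R) ^ M * x * e j =
      ∑ k, algebraMap (MvPolynomial (Fin r) ℤ) R (C j k) * e k := by
    intro j
    have h1 : (ℓ : R) ^ M = (ℓ : R) ^ (M - m j) * (ℓ : R) ^ (m j) := by
      rw [← pow_add, Nat.sub_add_cancel (hM j)]
    calc (ℓ : R) ^ M * x * e j = (ℓ : R) ^ (M - m j) * ((ℓ : R) ^ (m j) * (x * e j)) := by
          rw [h1]; ring
      _ = (ℓ : R) ^ (M - m j) * ∑ k, algebraMap (MvPolynomial (Fin r) ℤ) R (c j k) * e k := by
          rw [hc j]
      _ = ∑ k, algebraMap (MvPolynomial (Fin r) ℤ) R (C j k) * e k := by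
          rw [Finset.mul_sum]
          refine Finset.sum_congr rfl fun k _ => ?_
          change _ = algebraMap (MvPolynomial (Fin r) ℤ) R
            ((ℓ : MvPolynomial (Fin r) ℤ) ^ (M - m j) * c j k) * e k
          rw [map_mul, map_pow, map_natCast]
          ring
  have hdet : (Matrix.scalar (Fin D) ((ℓ : R) ^ M * x) -
      C.map (algebraMap (MvPolynomial (Fin r) ℤ) R)).det = 0 := by
    rw [← Matrix.exists_mulVec_eq_zero_iff]
    refine ⟨e, he0, ?_⟩
    funext j
    rw [Matrix.sub_mulVec]
    simp only [Pi.sub_apply, Pi.zero_apply, Matrix.scalar_apply, Matrix.mulVec_diagonal]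
    rw [sub_eq_zero, hC j]
    rfl
  have hcp : Polynomial.aeval ((ℓ : R) ^ M * x) C.charpoly = 0 := by
    rw [Polynomial.aeval_def, ← Polynomial.eval_map, ← Matrix.charpoly_map,
      Matrix.eval_charpoly]
    exact hdet
  have hq : Polynomial.aeval x (C.charpoly.comp
      (Polynomial.C ((ℓ : MvPolynomial (Fin r) ℤ) ^ M) * Polynomial.X)) = 0 := by
    rw [Polynomial.aeval_comp]
    have h1 : Polynomial.aeval x (Polynomial.C ((ℓ : MvPolynomial (Fin r) ℤ) ^ M) *
        Polynomial.X) = (ℓ : R) ^ M * x := by simp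
    rw [h1]
    exact hcp
  have hdvd := minpoly.isIntegrallyClosed_dvd hx hq
  have hℓA : (ℓ : MvPolynomial (Fin r) ℤ) ^ M ≠ 0 :=
    pow_ne_zero _ (Nat.cast_ne_zero.2 hB.pos)
  have hne : C.charpoly.comp
      (Polynomial.C ((ℓ : MvPolynomial (Fin r) ℤ) ^ M) * Polynomial.X) ≠ 0 := by
    intro h0
    have h1 := (Polynomial.comp_C_mul_X_eq_zero_iff
      (mem_nonZeroDivisors_of_ne_zero hℓA)).1 h0
    exact (Matrix.charpoly_monic C).ne_zero h1
  calc (minpoly (MvPolynomial (Fin r) ℤ) x).natDegree ≤ (C.charpoly.comp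
      (Polynomial.C ((ℓ : MvPolynomial (Fin r) ℤ) ^ M) * Polynomial.X)).natDegree :=
        Polynomial.natDegree_le_of_dvd hdvd hne
    _ ≤ D := by
        refine le_trans Polynomial.natDegree_comp_le ?_
        rw [Matrix.charpoly_natDegree_eq_dim, Fintype.card_fin]
        calc D * (Polynomial.C ((ℓ : MvPolynomial (Fin r) ℤ) ^ M) * Polynomial.X).natDegree
            ≤ D * 1 := Nat.mul_le_mul_left _
              (le_trans (Polynomial.natDegree_C_mul_le _ _) Polynomial.natDegree_X_le)
          _ = D := mul_one D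

end base

end Pool.Agent.Helper58.IC
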