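import Pool.Agent.Helper58.IC.Defs

/-!
# The multiplicity condition and scaling

PROOF of M2. Let `σ` be the `Kb`-algebra automorphism `X i ↦ C c * X i` of
`MvPolynomial (Fin N) Kb` (inverse `X i ↦ C c⁻¹ * X i`). It maps `ptIdeal (c q)` onto `ptIdeal q`
(`σ (X i - C (c q_i)) = C c (X i - C q_i)`), and `fibreIdeal H (c q)` onto `fibreIdeal H q`
(`σ (map (H i) - C (H i (c q))) = C (c ^ d) (map (H i) - C (H i (q)))`, `H i` homogeneous). So the
quotients by `fibreIdeal ⊔ ptIdeal ^ n` are isomorphic as `Kb`-modules and have the same `finrank`.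
-/

set_option autoImplicit false

namespace Pool.Agent.Helper58.IC

open MvPolynomial Filter
open Pool.Agent.Helper65.RP (MultLT orb iter van)

/-- Homogeneous polynomials at a multiple of a point. -/
private theorem hom_aeval {K A : Type} [Field K] [CommRing A] [Algebra K A] {N d : ℕ}
    {p : MvPolynomial (Fin N) K} (hp : p.IsHomogeneous d) (c : A) (x : Fin N → A) :
    aeval (fun i => c * x i) p = c ^ d * aeval x p := by
  conv_lhs => rw [p.as_sum]
  conv_rhs => rw [p.as_sum]
  rw [map_sum, map_sum, Finset.mul_sum]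
  refine Finset.sum_congr rfl fun m hm => ?_
  have hdeg : m.sum (fun _ k => k) = d := by
    have h1 := hp (mem_support_iff.mp hm)
    rw [Finsupp.weight_apply] at h1
    simpa using h1
  rw [aeval_monomial, aeval_monomial]
  have h2 : (m.prod fun i k => (c * x i) ^ k) = c ^ d * m.prod fun i k => x i ^ k := by
    rw [← hdeg, Finsupp.prod, Finsupp.prod, Finsupp.sum, ← Finset.prod_pow_eq_pow_sum,
      ← Finset.prod_mul_distrib]
    exact Finset.prod_congr rfl fun i _ => mul_pow _ _ _
  rw [h2]
  ring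

/-- The rescaling homomorphism. -/
private noncomputable def scal {L : Type} [Field L] {N : ℕ} (c : L) :
    MvPolynomial (Fin N) L →ₐ[L] MvPolynomial (Fin N) L :=
  aeval fun i => C c * X i

private theorem scal_comp {L : Type} [Field L] {N : ℕ} (c b : L) (h : c * b = 1) :
    (scal c : MvPolynomial (Fin N) L →ₐ[L] MvPolynomial (Fin N) L).comp (scal b)
      = AlgHom.id L _ := by
  refine MvPolynomial.algHom_ext fun i => ?_
  rw [AlgHom.comp_apply, AlgHom.id_apply, scal, scal, aeval_X, map_mul, aeval_X, aeval_C,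
    ← mul_assoc, algebraMap_eq, ← C_mul, mul_comm b c, h, C_1, one_mul]

/-- The rescaling automorphism. -/
private noncomputable def scalE {L : Type} [Field L] {N : ℕ} (c : L) (hc : c ≠ 0) :
    MvPolynomial (Fin N) L ≃ₐ[L] MvPolynomial (Fin N) L :=
  AlgEquiv.ofAlgHom (scal c) (scal c⁻¹) (scal_comp c c⁻¹ (mul_inv_cancel₀ hc))
    (scal_comp c⁻¹ c (inv_mul_cancel₀ hc))

private theorem scalE_apply {L : Type} [Field L] {N : ℕ} (c : L) (hc : c ≠ 0)
    (p : MvPolynomial (Fin N) L) : scalE c hc p = aeval (fun i => C c * X i) p := rfl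

private theorem span_unit_mul {A : Type} [CommRing A] {N : ℕ} (u v : A) (h : u * v = 1)
    (g : Fin N → A) :
    Ideal.span (Set.range fun i => u * g i) = Ideal.span (Set.range g) := by
  refine le_antisymm (Ideal.span_le.mpr ?_) (Ideal.span_le.mpr ?_)
  · rintro _ ⟨i, rfl⟩
    exact Ideal.mul_mem_left _ _ (Ideal.subset_span ⟨i, rfl⟩)
  · rintro _ ⟨i, rfl⟩
    have h1 : g i = v * (u * g i) := by rw [← mul_assoc, mul_comm v u, h, one_mul]
    rw [SetLike.mem_coe, h1]
    exact Ideal.mul_mem_left _ _ (Ideal.subset_span ⟨i, rfl⟩)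

/-- M2. The multiplicity condition does not change if the point is rescaled. -/
theorem multLT_smul {K Kb : Type} [Field K] [Field Kb] [Algebra K Kb] {N e d : ℕ}
    {H : Fin N → MvPolynomial (Fin N) K} (hH : ∀ i, (H i).IsHomogeneous d) {q : Fin N → Kb}
    (c : Kb) (hc : c ≠ 0) (h : MultLT H q e) : MultLT H (fun i => c * q i) e := by
  intro n
  have hpt : (Pool.Agent.Helper65.RP.ptIdeal fun i => c * q i).map (scalE c hc)
      = Pool.Agent.Helper65.RP.ptIdeal q := by
    rw [Pool.Agent.Helper65.RP.ptIdeal, Pool.Agent.Helper65.RP.ptIdeal, Ideal.map_span,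
      ← Set.range_comp, ← span_unit_mul (C c : MvPolynomial (Fin N) Kb) (C c⁻¹)
        (by rw [← C_mul, mul_inv_cancel₀ hc, C_1]) fun i => X i - C (q i)]
    congr 2
    funext i
    rw [Function.comp_apply, map_sub, scalE_apply, scalE_apply, aeval_X, aeval_C, algebraMap_eq,
      C_mul, mul_sub]
  have hfib : (Pool.Agent.Helper65.RP.fibreIdeal H fun i => c * q i).map (scalE c hc)
      = Pool.Agent.Helper65.RP.fibreIdeal H q := by
    rw [Pool.Agent.Helper65.RP.fibreIdeal, Pool.Agent.Helper65.RP.fibreIdeal, Ideal.map_span,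
      ← Set.range_comp, ← span_unit_mul (C (c ^ d) : MvPolynomial (Fin N) Kb) (C (c ^ d)⁻¹)
        (by rw [← C_mul, mul_inv_cancel₀ (pow_ne_zero d hc), C_1])
        fun i => map (algebraMap K Kb) (H i) - C (aeval q (H i))]
    congr 2
    funext i
    have h1 : aeval (fun j => C c * X j) (map (algebraMap K Kb) (H i))
        = C (c ^ d) * map (algebraMap K Kb) (H i) := by
      have h2 := hom_aeval ((hH i).map (algebraMap K Kb)) (C c : MvPolynomial (Fin N) Kb) X
      rw [h2, aeval_X_left, AlgHom.id_apply, C_pow]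
    rw [Function.comp_apply, map_sub, scalE_apply, scalE_apply, h1, aeval_C, algebraMap_eq,
      hom_aeval (hH i), C_mul, mul_sub]
  have hmap : Pool.Agent.Helper65.RP.fibreIdeal H q ⊔ Pool.Agent.Helper65.RP.ptIdeal q ^ n
      = (Pool.Agent.Helper65.RP.fibreIdeal H (fun i => c * q i) ⊔
        Pool.Agent.Helper65.RP.ptIdeal (fun i => c * q i) ^ n).map (scalE c hc) := by
    rw [Ideal.map_sup, Ideal.map_pow, hpt, hfib]
  have heq := LinearEquiv.finrank_eq
    (Ideal.quotientEquivAlg _ _ (scalE c hc) hmap).toLinearEquiv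
  rw [heq]
  exact h n

end Pool.Agent.Helper58.IC
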